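import Pool.Agent.TH693.QQ.Stm
import Pool.Agent.H397R2.PP.TH

set_option autoImplicit false

/-!
# Task QD1: theta functions with characteristics modulo 2
-/

namespace Pool.Agent.TH693.QQ.D1

open PowerSeries Pool.Agent.TH693.PP Pool.Agent.H397R2.PP Pool.Agent.TH693.QQ

lemma bound {z N : ℤ} (h : z ^ 2 ≤ N) : -N ≤ z ∧ z ≤ N := by
  rcases lt_trichotomy z 0 with h0 | h0 | h0
  · constructor <;> nlinarith
  · subst h0; constructor <;> nlinarith
  · constructor <;> nlinarith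

lemma coeff_th (M : ℕ) (b : ℤ) (N n : ℕ) (h : n ≤ N) : coeff n (th M b) =
    ∑ _z ∈ (Finset.Icc (-(N : ℤ)) (N : ℤ)).filter (fun z : ℤ => z ^ 2 = (n : ℤ) ∧ (M : ℤ) ∣ z - b),
      (1 : ZMod 2) := by
  classical
  rw [th, coeff_mk, Finset.sum_const, nsmul_eq_mul, mul_one]
  congr 2
  ext z
  simp only [Finset.mem_filter, Finset.mem_Icc]
  constructor
  · rintro ⟨h1, h2, h3⟩
    exact ⟨⟨by omega, by omega⟩, h2, h3⟩
  · rintro ⟨h1, h2, h3⟩
    exact ⟨bound h2.le, h2, h3⟩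

lemma sq_eq (f : S) : f ^ 2 = PowerSeries.expand 2 (by norm_num) f :=
  pow_eq_expand' 2 1 (by norm_num) (by norm_num) f

lemma coeff_th_sq (M : ℕ) (b : ℤ) (N n : ℕ) (h : n ≤ N) : coeff n (th M b ^ 2) =
    ∑ _z ∈ (Finset.Icc (-(N : ℤ)) (N : ℤ)).filter
      (fun z : ℤ => 2 * z ^ 2 = (n : ℤ) ∧ (M : ℤ) ∣ z - b), (1 : ZMod 2) := by
  rw [sq_eq, coeff_expand]
  split_ifs with h2
  · obtain ⟨m, rfl⟩ := h2
    rw [Nat.mul_div_cancel_left m (by norm_num), coeff_th M b N m (by omega)]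
    refine Finset.sum_congr ?_ fun z _ => rfl
    ext z
    simp only [Finset.mem_filter, Finset.mem_Icc]
    push_cast
    constructor
    · rintro ⟨h1, h2, h3⟩
      exact ⟨h1, by omega, h3⟩
    · rintro ⟨h1, h2, h3⟩
      exact ⟨h1, by omega, h3⟩
  · symm
    apply Finset.sum_eq_zero
    intro z hz
    rw [Finset.mem_filter] at hz
    obtain ⟨-, h3, -⟩ := hz
    exact absurd ⟨(z ^ 2).toNat, by have := sq_nonneg z; omega⟩ h2

/-- coefficients of a product of two series given by sums over integers -/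
lemma coeff_prod {ι κ : Type*} [DecidableEq ι] [DecidableEq κ] (f g : S) (N : ℕ) (A : Finset ι)
    (B : Finset κ) (α : ι → ℤ) (β : κ → ℤ) (hα : ∀ a ∈ A, 0 ≤ α a) (hβ : ∀ b ∈ B, 0 ≤ β b)
    (hf : ∀ n ≤ N, coeff n f = ∑ _z ∈ A.filter (fun z => α z = (n : ℤ)), 1)
    (hg : ∀ n ≤ N, coeff n g = ∑ _z ∈ B.filter (fun z => β z = (n : ℤ)), 1) :
    coeff N (f * g) = ∑ _x ∈ (A ×ˢ B).filter (fun x => α x.1 + β x.2 = (N : ℤ)), (1 : ZMod 2) := by
  rw [coeff_mul]
  have h1 : ∀ p ∈ Finset.HasAntidiagonal.antidiagonal N, coeff p.1 f * coeff p.2 g =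
      ∑ x ∈ A ×ˢ B, if α x.1 = (p.1 : ℤ) ∧ β x.2 = (p.2 : ℤ) then (1 : ZMod 2) else 0 := by
    intro p hp
    rw [Finset.HasAntidiagonal.mem_antidiagonal] at hp
    rw [hf p.1 (by omega), hg p.2 (by omega), Finset.sum_mul_sum, ← Finset.sum_product',
      ← Finset.filter_product, Finset.sum_filter]
    refine Finset.sum_congr rfl fun x _ => ?_
    rw [mul_one]
  rw [Finset.sum_congr rfl h1, Finset.sum_comm, Finset.sum_filter]
  refine Finset.sum_congr rfl fun x hx => ?_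
  rw [Finset.mem_product] at hx
  have ha := hα x.1 hx.1
  have hb := hβ x.2 hx.2
  split_ifs with h
  · rw [Finset.sum_eq_single ((α x.1).toNat, (β x.2).toNat)]
    · rw [if_pos ⟨by simp; omega, by simp; omega⟩]
    · rintro ⟨p, q⟩ - hne
      rw [if_neg]
      rintro ⟨h2, h3⟩
      apply hne
      simp only at h2 h3
      rw [h2, h3]
      simp
    · intro hn
      exfalso
      apply hn
      rw [Finset.HasAntidiagonal.mem_antidiagonal]
      simp only
      omega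
  · apply Finset.sum_eq_zero
    rintro ⟨p, q⟩ hp
    rw [Finset.HasAntidiagonal.mem_antidiagonal] at hp
    rw [if_neg]
    rintro ⟨h2, h3⟩
    simp only at h2 h3 hp
    apply h
    omega

lemma coeff_Dh (k : ℕ) (hk : 1 ≤ k) (N n : ℕ) (h : n ≤ N) : coeff n (Db ^ 2 ^ (2 * k - 1)) =
    ∑ _v ∈ ((Finset.Icc (0 : ℤ) (N : ℤ)).filter (fun v : ℤ => (2 ^ k : ℤ) ∣ v - 2 ^ (k - 1))).filter
      (fun v : ℤ => 2 * v ^ 2 = (n : ℤ)), (1 : ZMod 2) := by
  classical
  obtain ⟨j, rfl⟩ : ∃ j, k = j + 1 := ⟨k - 1, by omega⟩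
  have e1 : 2 * (j + 1) - 1 = 2 * j + 1 := by omega
  rw [e1, Nat.add_sub_cancel, pow_eq_expand' (2 ^ (2 * j + 1)) (2 * j + 1) (by positivity) rfl,
    coeff_expand, Db_eq_theta]
  have hp : (0 : ℤ) < 2 ^ j := by positivity
  by_cases h1 : ∃ i : ℕ, n = 2 ^ (2 * j + 1) * (2 * i + 1) ^ 2
  · obtain ⟨i, hi⟩ := h1
    rw [hi, if_pos (Dvd.intro _ rfl), Nat.mul_div_cancel_left _ (by positivity), coeff_mk, if_pos ⟨i, rfl⟩]
    have : ((Finset.Icc (0 : ℤ) (N : ℤ)).filter (fun v : ℤ => (2 ^ (j + 1) : ℤ) ∣ v - 2 ^ j)).filter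
      (fun v : ℤ => 2 * v ^ 2 = ((2 ^ (2 * j + 1) * (2 * i + 1) ^ 2 : ℕ) : ℤ)) =
        {(2 ^ j * (2 * i + 1) : ℤ)} := by
      ext z
      simp only [Finset.mem_filter, Finset.mem_Icc, Finset.mem_singleton]
      constructor
      · rintro ⟨⟨⟨h1, h2⟩, h3⟩, h5⟩
        push_cast at h5
        have : (z - 2 ^ j * (2 * i + 1)) * (z + 2 ^ j * (2 * i + 1)) = 0 := by
          have e : (2 : ℤ) ^ (2 * j + 1) = 2 * (2 ^ j) ^ 2 := by ring
          rw [e] at h5
          have h6 : z ^ 2 = (2 ^ j) ^ 2 * (2 * (i : ℤ) + 1) ^ 2 := by linarith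
          linear_combination h6
        rcases mul_eq_zero.1 this with h | h
        · linarith
        · exfalso
          have : 0 < 2 ^ j * (2 * (i : ℤ) + 1) := by positivity
          linarith
      · rintro rfl
        have h6 : 2 * (2 ^ j * (2 * (i : ℤ) + 1)) ^ 2 = (n : ℤ) := by
          rw [hi]; push_cast; ring
        refine ⟨⟨⟨by positivity, ?_⟩, ⟨i, by ring⟩⟩, by rw [h6, hi]⟩
        have h7 := (bound (z := 2 ^ j * (2 * (i : ℤ) + 1)) (N := n) (by
          nlinarith [sq_nonneg (2 ^ j * (2 * (i : ℤ) + 1))])).2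
        exact h7.trans (by exact_mod_cast h)
    rw [this, Finset.sum_singleton]
  · have hz : ∀ v ∈ ((Finset.Icc (0 : ℤ) (N : ℤ)).filter
        (fun v : ℤ => (2 ^ (j + 1) : ℤ) ∣ v - 2 ^ j)).filter (fun v : ℤ => 2 * v ^ 2 = (n : ℤ)), False := by
      intro z hz
      simp only [Finset.mem_filter, Finset.mem_Icc] at hz
      obtain ⟨⟨⟨h2, h3⟩, ⟨y, h4⟩⟩, h5⟩ := hz
      apply h1
      have hzy : z = 2 ^ j * (2 * y + 1) := by rw [pow_succ] at h4; linear_combination h4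
      have hy : 0 ≤ y := by
        by_contra hneg
        have : 2 ^ j * (2 * y + 1) < 0 := mul_neg_of_pos_of_neg hp (by omega)
        omega
      refine ⟨y.toNat, ?_⟩
      have h7 : ((y.toNat : ℕ) : ℤ) = y := by omega
      zify
      rw [h7, ← h5, hzy]
      ring
    rw [Finset.sum_eq_zero (fun v hv => (hz v hv).elim)]
    split_ifs with h2
    · rw [coeff_mk, if_neg]
      rintro ⟨i, hi⟩
      apply h1
      refine ⟨i, ?_⟩
      obtain ⟨m, hm⟩ := h2
      rw [hm, Nat.mul_div_cancel_left _ (by positivity)] at hi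
      rw [hm, hi]
    · rfl

theorem prod (k : ℕ) (b : ℤ) (hk : 1 ≤ k) :
    th (2 ^ (k + 1)) b * th (2 ^ (k + 1)) (b + 2 ^ k) =
      Db ^ 2 ^ (2 * k - 1) * th (2 ^ k) (b + 2 ^ (k - 1)) ^ 2 := by
  classical
  ext N
  rw [coeff_prod (th (2 ^ (k + 1)) b) (th (2 ^ (k + 1)) (b + 2 ^ k)) N
      ((Finset.Icc (-(N : ℤ)) (N : ℤ)).filter (fun z : ℤ => (2 ^ (k + 1) : ℤ) ∣ z - b))
      ((Finset.Icc (-(N : ℤ)) (N : ℤ)).filter (fun z : ℤ => (2 ^ (k + 1) : ℤ) ∣ z - (b + 2 ^ k)))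
      (fun z => z ^ 2) (fun z => z ^ 2) (fun z _ => by positivity) (fun z _ => by positivity)
      (fun n hn => by
        rw [coeff_th _ _ N n hn, Finset.filter_filter]
        refine Finset.sum_congr ?_ fun _ _ => rfl
        ext z
        simp only [Finset.mem_filter]
        push_cast
        tauto)
      (fun n hn => by
        rw [coeff_th _ _ N n hn, Finset.filter_filter]
        refine Finset.sum_congr ?_ fun _ _ => rfl
        ext z
        simp only [Finset.mem_filter]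
        push_cast
        tauto),
    coeff_prod (Db ^ 2 ^ (2 * k - 1)) (th (2 ^ k) (b + 2 ^ (k - 1)) ^ 2) N
      ((Finset.Icc (0 : ℤ) (N : ℤ)).filter (fun v : ℤ => (2 ^ k : ℤ) ∣ v - 2 ^ (k - 1)))
      ((Finset.Icc (-(N : ℤ)) (N : ℤ)).filter (fun z : ℤ => (2 ^ k : ℤ) ∣ z - (b + 2 ^ (k - 1))))
      (fun z => 2 * z ^ 2) (fun z => 2 * z ^ 2) (fun z _ => by positivity) (fun z _ => by positivity)
      (fun n hn => coeff_Dh k hk N n hn)
      (fun n hn => by
        rw [coeff_th_sq _ _ N n hn, Finset.filter_filter]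
        refine Finset.sum_congr ?_ fun _ _ => rfl
        ext z
        simp only [Finset.mem_filter]
        push_cast
        tauto)]
  obtain ⟨j, rfl⟩ : ∃ j, k = j + 1 := ⟨k - 1, by omega⟩
  rw [Nat.add_sub_cancel]
  have e2 : (2 : ℤ) ^ (j + 1 + 1) = 4 * 2 ^ j := by ring
  have e1 : (2 : ℤ) ^ (j + 1) = 2 * 2 ^ j := by ring
  rw [e2, e1]
  have hp : (0 : ℤ) < 2 ^ j := by positivity
  generalize (2 : ℤ) ^ j = h at *
  refine Finset.sum_bij' (fun x _ => (|x.1 - x.2| / 2, (x.1 + x.2) / 2))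
    (fun x _ => if 4 * h ∣ x.2 + x.1 - b then (x.2 + x.1, x.2 - x.1)
      else (x.2 - x.1, x.2 + x.1)) ?_ ?_ ?_ ?_ ?_
  · rintro ⟨z, w⟩ hx
    simp only [Finset.mem_filter, Finset.mem_product, Finset.mem_Icc] at hx ⊢
    obtain ⟨⟨⟨⟨h1, h2⟩, ⟨l, h3⟩⟩, ⟨h4, h5⟩, ⟨m, h6⟩⟩, h7⟩ := hx
    obtain ⟨p, hp'⟩ : ∃ p, z + w = 2 * p := ⟨b + h + 2 * h * (l + m), by linear_combination h3 + h6⟩
    obtain ⟨q, hq⟩ : ∃ q, z - w = 2 * q := ⟨-h + 2 * h * (l - m), by linear_combination h3 - h6⟩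
    have hz : z = p + q := by omega
    have hw : w = p - q := by omega
    have hqv2 : 2 * q = 2 * (-h + 2 * h * (l - m)) := by linear_combination h3 - h6 - hq
    have hpv2 : 2 * p = 2 * (b + h + 2 * h * (l + m)) := by linear_combination h3 + h6 - hp'
    have hqv : q = -h + 2 * h * (l - m) := mul_left_cancel₀ two_ne_zero hqv2
    have hpv : p = b + h + 2 * h * (l + m) := mul_left_cancel₀ two_ne_zero hpv2
    have e0 : 2 * q ^ 2 + 2 * p ^ 2 = N := by rw [← h7, hz, hw]; ring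
    have b1 := bound (z := |q|) (N := N) (by rw [sq_abs]; nlinarith [sq_nonneg p, sq_nonneg q])
    have b2 := bound (z := p) (N := N) (by nlinarith [sq_nonneg p, sq_nonneg q])
    rw [hp', hq, abs_mul, abs_two, Int.mul_ediv_cancel_left _ (by norm_num),
      Int.mul_ediv_cancel_left _ (by norm_num)]
    refine ⟨⟨⟨⟨abs_nonneg _, b1.2⟩, ?_⟩, b2, ⟨l + m, by rw [hpv]; ring⟩⟩, by rw [sq_abs]; exact e0⟩
    rcases abs_cases q with ⟨h', -⟩ | ⟨h', -⟩
    · rw [h', hqv]
      exact ⟨l - m - 1, by ring⟩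
    · rw [h', hqv]
      exact ⟨m - l, by ring⟩
  · rintro ⟨v, u⟩ hx
    simp only [Finset.mem_filter, Finset.mem_product, Finset.mem_Icc] at hx
    obtain ⟨⟨⟨⟨h1, h2⟩, ⟨l, h3⟩⟩, ⟨h4, h5⟩, ⟨m, h6⟩⟩, h7⟩ := hx
    have e3 : (u + v) ^ 2 + (u - v) ^ 2 = N := by rw [← h7]; ring
    have b1 := bound (z := u + v) (N := N) (by nlinarith [sq_nonneg (u - v)])
    have b2 := bound (z := u - v) (N := N) (by nlinarith [sq_nonneg (u + v)])
    simp only
    split_ifs with hc
    · simp only [Finset.mem_filter, Finset.mem_product, Finset.mem_Icc]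
      refine ⟨⟨⟨b1, hc⟩, b2, ?_⟩, e3⟩
      obtain ⟨c, hc⟩ := hc
      exact ⟨c - l - 1, by linear_combination hc - 2 * h3⟩
    · simp only [Finset.mem_filter, Finset.mem_product, Finset.mem_Icc]
      have h8 : u + v - b = 2 * h * (l + m + 1) := by linear_combination h3 + h6
      have hodd : (l + m + 1) % 2 = 1 := by
        by_contra hne
        obtain ⟨c, hc'⟩ : ∃ c, l + m + 1 = 2 * c := ⟨(l + m + 1) / 2, by omega⟩
        exact hc ⟨c, by rw [h8, hc']; ring⟩
      obtain ⟨c, hc'⟩ : ∃ c, l + m + 1 = 2 * c + 1 := ⟨(l + m + 1) / 2, by omega⟩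
      have h9 : m = 2 * c - l := by omega
      refine ⟨⟨⟨b2, ⟨c - l, ?_⟩⟩, b1, ⟨c, ?_⟩⟩, by rw [← e3]; ring⟩
      · rw [h9] at h6
        linear_combination h6 - h3
      · rw [hc'] at h8
        linear_combination h8
  · rintro ⟨z, w⟩ hx
    simp only [Finset.mem_filter, Finset.mem_product, Finset.mem_Icc] at hx ⊢
    obtain ⟨⟨⟨⟨h1, h2⟩, ⟨l, h3⟩⟩, ⟨h4, h5⟩, ⟨m, h6⟩⟩, h7⟩ := hx
    obtain ⟨p, hp'⟩ : ∃ p, z + w = 2 * p := ⟨b + h + 2 * h * (l + m), by linear_combination h3 + h6⟩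
    obtain ⟨q, hq⟩ : ∃ q, z - w = 2 * q := ⟨-h + 2 * h * (l - m), by linear_combination h3 - h6⟩
    have hz : z = p + q := by omega
    have hw : w = p - q := by omega
    rw [hp', hq, abs_mul, abs_two, Int.mul_ediv_cancel_left _ (by norm_num),
      Int.mul_ediv_cancel_left _ (by norm_num)]
    rcases abs_cases q with ⟨h', -⟩ | ⟨h', -⟩
    · rw [h', if_pos ⟨l, by rw [← hz]; exact h3⟩, hz, hw]
    · rw [h', if_neg, hz, hw]
      · simp only [Prod.mk.injEq]
        exact ⟨by ring, by ring⟩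
      · rintro ⟨c, hc⟩
        have e5 : p + -q = w := by rw [hw]; ring
        rw [e5] at hc
        have h8 : 4 * h * (c - m) = 2 * h := by linear_combination h6 - hc
        have h9 : 2 * h * (2 * (c - m) - 1) = 0 := by linear_combination h8
        rcases mul_eq_zero.1 h9 with h10 | h10 <;> omega
  · rintro ⟨v, u⟩ hx
    simp only [Finset.mem_filter, Finset.mem_product, Finset.mem_Icc] at hx
    obtain ⟨⟨⟨⟨h1, h2⟩, ⟨l, h3⟩⟩, ⟨h4, h5⟩, ⟨m, h6⟩⟩, h7⟩ := hx
    simp only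
    split_ifs with hc
    · simp only [Prod.mk.injEq]
      have e4 : u + v - (u - v) = 2 * v := by ring
      have e5 : u + v + (u - v) = 2 * u := by ring
      rw [e4, e5, abs_of_nonneg (by omega)]
      exact ⟨by omega, by omega⟩
    · simp only [Prod.mk.injEq]
      have e4 : u - v - (u + v) = -(2 * v) := by ring
      have e5 : u - v + (u + v) = 2 * u := by ring
      rw [e4, e5, abs_neg, abs_of_nonneg (by omega)]
      exact ⟨by omega, by omega⟩
  · rintro ⟨z, w⟩ _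
    rfl

theorem per (M : ℕ) (b : ℤ) : th M (b + M) = th M b := by
  ext n
  rw [coeff_th _ _ n n le_rfl, coeff_th _ _ n n le_rfl]
  refine Finset.sum_congr ?_ fun _ _ => rfl
  ext z
  simp only [Finset.mem_filter]
  have : (M : ℤ) ∣ z - (b + M) ↔ (M : ℤ) ∣ z - b := by
    have e : z - (b + M) = z - b - M := by ring
    rw [e]
    exact dvd_sub_self_right
  rw [this]

theorem split (k : ℕ) (b : ℤ) :
    th (2 ^ (k + 1)) b + th (2 ^ (k + 1)) (b + 2 ^ k) = th (2 ^ k) b := by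
  classical
  ext n
  rw [map_add, coeff_th _ _ n n le_rfl, coeff_th _ _ n n le_rfl, coeff_th _ _ n n le_rfl,
    ← Finset.sum_union]
  · refine Finset.sum_congr ?_ fun _ _ => rfl
    ext z
    simp only [Finset.mem_union, Finset.mem_filter]
    push_cast
    have e : (2 : ℤ) ^ (k + 1) = 2 * 2 ^ k := by ring
    rw [e]
    constructor
    · rintro (⟨h1, h2, ⟨c, h3⟩⟩ | ⟨h1, h2, ⟨c, h3⟩⟩)
      · exact ⟨h1, h2, ⟨2 * c, by rw [h3]; ring⟩⟩
      · exact ⟨h1, h2, ⟨2 * c + 1, by linear_combination h3⟩⟩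
    · rintro ⟨h1, h2, ⟨c, h3⟩⟩
      rcases Int.even_or_odd' c with ⟨d, rfl | rfl⟩
      · exact Or.inl ⟨h1, h2, ⟨d, by rw [h3]; ring⟩⟩
      · exact Or.inr ⟨h1, h2, ⟨d, by linear_combination h3⟩⟩
  · rw [Finset.disjoint_left]
    intro z h1 h2
    rw [Finset.mem_filter] at h1 h2
    obtain ⟨-, -, c, hc⟩ := h1
    obtain ⟨-, -, d, hd⟩ := h2
    push_cast at hc hd
    have hp : (0 : ℤ) < 2 ^ k := by positivity
    have h3 : (2 : ℤ) ^ k * (2 * (c - d) - 1) = 0 := by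
      rw [pow_succ] at hc hd
      linear_combination hd - hc
    rcases mul_eq_zero.1 h3 with h4 | h4 <;> omega

theorem supp (k : ℕ) (b : ℤ) (n : ℕ) (hk : 1 ≤ k) (h : coeff n (th (2 ^ k) b) ≠ 0) :
    (2 ^ (k + 1) : ℤ) ∣ n - b ^ 2 := by
  rw [coeff_th _ _ n n le_rfl] at h
  obtain ⟨z, hz, -⟩ := Finset.exists_ne_zero_of_sum_ne_zero h
  rw [Finset.mem_filter] at hz
  obtain ⟨-, h1, ⟨c, h2⟩⟩ := hz
  obtain ⟨j, rfl⟩ : ∃ j, k = j + 1 := ⟨k - 1, by omega⟩
  push_cast at h2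
  refine ⟨c * b + 2 ^ j * c ^ 2, ?_⟩
  rw [← h1]
  have e : z = b + 2 ^ (j + 1) * c := by linear_combination h2
  rw [e]
  ring

theorem four (b : ℤ) (hb : Odd b) : th 4 b = Db := by
  classical
  ext n
  rw [coeff_th _ _ n n le_rfl, Db_eq_theta, coeff_mk]
  split_ifs with h1
  · obtain ⟨i, hi⟩ := h1
    have : (Finset.Icc (-(n : ℤ)) (n : ℤ)).filter
        (fun z : ℤ => z ^ 2 = (n : ℤ) ∧ ((4 : ℕ) : ℤ) ∣ z - b) =
        {if (4 : ℤ) ∣ (2 * i + 1) - b then (2 * i + 1 : ℤ) else -(2 * i + 1)} := by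
      ext z
      simp only [Finset.mem_filter, Finset.mem_Icc, Finset.mem_singleton]
      push_cast
      constructor
      · rintro ⟨-, h2, h3⟩
        rw [hi] at h2
        push_cast at h2
        have h4 : (z - (2 * i + 1)) * (z + (2 * i + 1)) = 0 := by linear_combination h2
        rcases mul_eq_zero.1 h4 with h5 | h5
        · have : z = 2 * i + 1 := by linarith
          rw [if_pos (by rw [← this]; exact h3)]
          exact this
        · have h6 : z = -(2 * i + 1) := by linarith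
          rw [if_neg]
          · exact h6
          · intro h7
            rw [h6] at h3
            obtain ⟨c, hc⟩ := hb
            omega
      · intro hz
        have h2 : z ^ 2 = (n : ℤ) := by
          rw [hz, hi]
          split_ifs <;> push_cast <;> ring
        refine ⟨bound h2.le, h2, ?_⟩
        rw [hz]
        obtain ⟨c, hc⟩ := hb
        split_ifs with h3
        · exact h3
        · omega
    rw [this, Finset.sum_singleton]
  · apply Finset.sum_eq_zero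
    intro z hz
    exfalso
    simp only [Finset.mem_filter, Finset.mem_Icc] at hz
    obtain ⟨-, h2, h3⟩ := hz
    apply h1
    obtain ⟨c, hc⟩ := hb
    push_cast at h3
    have hodd : z % 2 = 1 := by omega
    refine ⟨((|z| - 1) / 2).toNat, ?_⟩
    have h4 : |z| % 2 = 1 := by
      rcases abs_cases z with ⟨h', -⟩ | ⟨h', -⟩ <;> rw [h'] <;> omega
    have h5 := abs_nonneg z
    have h6 : 2 * ((((|z| - 1) / 2).toNat : ℕ) : ℤ) + 1 = |z| := by omega
    zify
    rw [h6, sq_abs, h2]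

/-- TASK QD1 -/
theorem qd1 : S_QD1 where
  four := four
  per := per
  split := fun k b _ => split k b
  prod := fun k b hk _ => prod k b (by omega)
  supp := supp

end Pool.Agent.TH693.QQ.D1
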