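import Pool.Agent.TH693.QQ.QA

set_option autoImplicit false

/-!
# From bounded irrationality measure of a section to linear patterns
-/

namespace Pool.Agent.TH693.QQ

open PowerSeries Pool.Agent.TH693.PP

theorem irr_of_not_algX {c : S} (h : ¬ AlgX c) : ∀ U V : F, V ≠ 0 → (V : S) * c + (U : S) ≠ 0 := by
  intro U V hV h0
  apply h
  refine ⟨Polynomial.C V * Polynomial.X + Polynomial.C U, ?_, ?_⟩
  · intro h1
    apply hV
    have := congrArg (fun p : Polynomial F => p.coeff 1) h1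
    simpa using this
  · unfold evp
    rw [Polynomial.coe_eval₂RingHom, Polynomial.eval₂_add, Polynomial.eval₂_mul, Polynomial.eval₂_C,
      Polynomial.eval₂_X, Polynomial.eval₂_C]
    exact h0

theorem bm_of_trans (qb : S_QB) {c : S} (h1 : AlgOver Pool.Agent.H397R2.PP.Db c) (h2 : ¬ AlgX c) :
    Bm c := by
  obtain ⟨a, J, hJ, hs⟩ := qb c h1 h2
  exact qa c a J hJ hs (irr_of_not_algX h2)

theorem pow_two_expand (k : ℕ) (f : S) :
    f ^ 2 ^ k = PowerSeries.expand (2 ^ k) (by positivity) f :=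
  Pool.Agent.H397R2.PP.pow_eq_expand' (2 ^ k) k (by positivity) rfl f

theorem bm_section (f : S) (k r : ℕ) (h : Bm (proj (2 ^ k) r f)) :
    Bm (PowerSeries.mk fun n => coeff (2 ^ k * n + r) f) := by
  obtain ⟨C, hC⟩ := h
  set c := proj (2 ^ k) r f with hc
  set g : S := PowerSeries.mk fun n => coeff (2 ^ k * n + r) f with hg
  set Q : F := PowerSeries.trunc r c with hQ
  have hq : 0 < 2 ^ k := by positivity
  have hcg : c = (Q : S) + X ^ r * g ^ 2 ^ k := by
    rw [pow_two_expand]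
    ext n
    rw [map_add, Polynomial.coeff_coe, hQ, PowerSeries.coeff_trunc]
    by_cases hn : n < r
    · rw [if_pos hn, PowerSeries.coeff_X_pow_mul', if_neg (by omega), add_zero]
    · rw [if_neg hn, zero_add]
      obtain ⟨m, rfl⟩ : ∃ m, n = m + r := ⟨n - r, by omega⟩
      rw [PowerSeries.coeff_X_pow_mul, PowerSeries.coeff_expand, hc]
      unfold proj
      rw [coeff_mk]
      by_cases hm : 2 ^ k ∣ m
      · rw [if_pos hm, hg, coeff_mk]
        obtain ⟨l, rfl⟩ := hm
        rw [Nat.mul_div_cancel_left _ hq, if_pos (by rw [Nat.mul_add_mod])]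
      · rw [if_neg hm, if_neg]
        intro h1
        apply hm
        have h2 : m + r ≡ 0 + r [MOD 2 ^ k] := by
          rw [zero_add]
          exact h1
        have h3 := Nat.ModEq.add_right_cancel' r h2
        exact (Nat.modEq_zero_iff_dvd).1 h3
  refine ⟨C * (2 * 2 ^ k + 2 * r + 1), fun N U V hV hN => ?_⟩
  obtain ⟨w, hw⟩ := hN
  have h1 : (X : S) ^ (r + N * 2 ^ k) ∣ ((V ^ 2 ^ k : F) : S) * c +
      ((V ^ 2 ^ k * Q + Polynomial.X ^ r * U ^ 2 ^ k : F) : S) := by
    refine ⟨w ^ 2 ^ k, ?_⟩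
    have h2 : (V : S) ^ 2 ^ k * g ^ 2 ^ k + (U : S) ^ 2 ^ k = X ^ (N * 2 ^ k) * w ^ 2 ^ k := by
      rw [← mul_pow, ← add_pow_two, hw, mul_pow, ← pow_mul]
    rw [hcg, pow_add]
    push_cast
    linear_combination X ^ r * h2 + (V : S) ^ 2 ^ k * (Q : S) * two_zero
  have h3 := hC _ _ _ (pow_ne_zero _ hV) h1
  have d1 : (V ^ 2 ^ k).natDegree ≤ 2 ^ k * V.natDegree := Polynomial.natDegree_pow_le
  have d2 : (U ^ 2 ^ k).natDegree ≤ 2 ^ k * U.natDegree := Polynomial.natDegree_pow_le
  have d3 : Q.natDegree ≤ r := by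
    rcases Nat.eq_zero_or_pos r with h0 | h0
    · rw [hQ, h0]
      have : PowerSeries.trunc 0 c = 0 := by
        ext n
        simp [PowerSeries.coeff_trunc]
      rw [this]
      simp
    · obtain ⟨r', rfl⟩ : ∃ r', r = r' + 1 := ⟨r - 1, by omega⟩
      have := PowerSeries.natDegree_trunc_lt c r'
      rw [hQ]
      omega
  have d4 := Polynomial.natDegree_mul_le (p := V ^ 2 ^ k) (q := Q)
  have d5 := Polynomial.natDegree_mul_le (p := (Polynomial.X : F) ^ r) (q := U ^ 2 ^ k)
  rw [Polynomial.natDegree_X_pow] at d5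
  have d6 := Polynomial.natDegree_add_le (V ^ 2 ^ k * Q) (Polynomial.X ^ r * U ^ 2 ^ k)
  have d7 : (V ^ 2 ^ k * Q + Polynomial.X ^ r * U ^ 2 ^ k).natDegree + (V ^ 2 ^ k).natDegree + 1 ≤
      (2 * 2 ^ k + 2 * r + 1) * (U.natDegree + V.natDegree + 1) := by
    have e1 : (V ^ 2 ^ k * Q + Polynomial.X ^ r * U ^ 2 ^ k).natDegree ≤
        2 ^ k * V.natDegree + 2 ^ k * U.natDegree + r := by
      refine d6.trans (max_le ?_ ?_)
      · omega
      · omega
    have e2 : 2 ^ k * V.natDegree + 2 ^ k * U.natDegree + r + 2 ^ k * V.natDegree + 1 ≤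
        (2 * 2 ^ k + 2 * r + 1) * (U.natDegree + V.natDegree + 1) := by
      nlinarith [Nat.zero_le (2 ^ k * U.natDegree), Nat.zero_le (2 ^ k * V.natDegree),
        Nat.zero_le (r * U.natDegree), Nat.zero_le (r * V.natDegree), Nat.zero_le (2 ^ k)]
    omega
  have h4 : N ≤ N * 2 ^ k := Nat.le_mul_of_pos_right _ hq
  calc N ≤ r + N * 2 ^ k := by omega
    _ ≤ _ := h3
    _ ≤ C * ((2 * 2 ^ k + 2 * r + 1) * (U.natDegree + V.natDegree + 1)) := Nat.mul_le_mul_left C d7
    _ = _ := by ring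

/-- every linear pattern takes both values in short intervals -/
theorem takes' {f : S} (hf : Bm f) : ∃ C : ℕ, ∀ (L : ℕ) (c : Fin (L + 1) → ZMod 2), c ≠ 0 →
    ∀ (κ : ZMod 2) (A : ℕ), ∃ n, A ≤ n ∧ n ≤ C * (A + L + 1) ∧
      ∑ i : Fin (L + 1), c i * coeff (n + i) f = κ := by
  obtain ⟨C, hC⟩ := hf
  refine ⟨2 * C + 1, fun L c hc κ A => ?_⟩
  by_contra h
  push Not at h
  set B := (2 * C + 1) * (A + L + 1) with hB
  have h1 : ∀ a b : ZMod 2, a ≠ b → a = b + 1 := by decide
  have hrun : ∀ n, A ≤ n → n < B + 1 → ∑ i : Fin (L + 1), c i * coeff (n + i) f = κ + 1 :=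
    fun n h2 h3 => h1 _ _ (h n h2 (by omega))
  set V : F := (1 + Polynomial.X) * pat L c with hV
  have h1X : (1 + Polynomial.X : F) ≠ 0 := by
    intro h0
    have := congrArg (fun g : F => g.coeff 0) h0
    simp at this
  have hV0 : V ≠ 0 := mul_ne_zero h1X (pat_ne L c hc)
  set g : S := (V : S) * f with hg
  set U : F := PowerSeries.trunc (A + L + 1) g with hU
  have hVd : V.natDegree ≤ L + 1 := by
    have q := Polynomial.natDegree_mul_le (p := (1 + Polynomial.X : F)) (q := pat L c)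
    have q1 : (1 + Polynomial.X : F).natDegree ≤ 1 := by
      have := Polynomial.natDegree_add_le (1 : F) Polynomial.X
      rw [Polynomial.natDegree_one, Polynomial.natDegree_X] at this
      simpa using this
    have q2 := pat_deg L c
    rw [hV]
    omega
  have hUd : U.natDegree ≤ A + L := by
    have := PowerSeries.natDegree_trunc_lt g (A + L)
    rw [hU]
    omega
  have hdiv : (X : S) ^ (B + 1 + L) ∣ (V : S) * f + (U : S) := by
    rw [PowerSeries.X_pow_dvd_iff]
    intro m hm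
    rw [map_add, ← hg, Polynomial.coeff_coe, hU, PowerSeries.coeff_trunc]
    split_ifs with h2
    · exact (by decide : ∀ a : ZMod 2, a + a = 0) _
    · rw [add_zero]
      obtain ⟨n, rfl⟩ : ∃ n, m = n + L + 1 := ⟨m - L - 1, by omega⟩
      have e : g = (pat L c : S) * f + X * ((pat L c : S) * f) := by
        rw [hg, hV]
        push_cast
        ring
      rw [e, map_add, PowerSeries.coeff_succ_X_mul, coeff_pat, hrun n (by omega) (by omega)]
      have e2 : n + L + 1 = (n + 1) + L := by ring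
      rw [e2, coeff_pat, hrun (n + 1) (by omega) (by omega)]
      exact (by decide : ∀ a : ZMod 2, a + a = 0) _
  have h3 := hC _ _ _ hV0 hdiv
  have h4 : C * (U.natDegree + V.natDegree + 1) ≤ C * (2 * (A + L + 1)) :=
    Nat.mul_le_mul_left C (by omega)
  have h5 : B = C * (2 * (A + L + 1)) + (A + L + 1) := by rw [hB]; ring
  omega

end Pool.Agent.TH693.QQ
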