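import Pool.Agent.TH693.QQ.Asm

set_option autoImplicit false

/-!
# From bounded irrationality measure of a projection to the section, all moduli
-/

namespace Pool.Agent.TH693.QQ

open PowerSeries Pool.Agent.TH693.PP

theorem coe_expand (M : ℕ) (hM : M ≠ 0) (f : F) :
    ((Polynomial.expand (ZMod 2) M f : F) : S) = PowerSeries.expand M hM (f : S) := by
  ext n
  rw [Polynomial.coeff_coe, Polynomial.coeff_expand (Nat.pos_of_ne_zero hM), PowerSeries.coeff_expand]
  split_ifs with h
  · rw [Polynomial.coeff_coe]
  · rfl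

theorem bm_section_gen (f : S) (M r : ℕ) (hM : M ≠ 0) (h : Bm (proj M r f)) :
    Bm (PowerSeries.mk fun n => coeff (M * n + r) f) := by
  obtain ⟨C, hC⟩ := h
  set c := proj M r f with hc
  set g : S := PowerSeries.mk fun n => coeff (M * n + r) f with hg
  set Q : F := PowerSeries.trunc r c with hQ
  have hq : 0 < M := Nat.pos_of_ne_zero hM
  have hcg : c = (Q : S) + X ^ r * PowerSeries.expand M hM g := by
    ext n
    rw [map_add, Polynomial.coeff_coe, hQ, PowerSeries.coeff_trunc]
    by_cases hn : n < r
    · rw [if_pos hn, PowerSeries.coeff_X_pow_mul', if_neg (by omega), add_zero]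
    · rw [if_neg hn, zero_add]
      obtain ⟨m, rfl⟩ : ∃ m, n = m + r := ⟨n - r, by omega⟩
      rw [PowerSeries.coeff_X_pow_mul, PowerSeries.coeff_expand, hc]
      unfold proj
      rw [coeff_mk]
      by_cases hm : M ∣ m
      · rw [if_pos hm, hg, coeff_mk]
        obtain ⟨l, rfl⟩ := hm
        rw [Nat.mul_div_cancel_left _ hq, if_pos (by rw [Nat.mul_add_mod])]
      · rw [if_neg hm, if_neg]
        intro h1
        apply hm
        have h2 : m + r ≡ 0 + r [MOD M] := by
          rw [zero_add]
          exact h1
        have h3 := Nat.ModEq.add_right_cancel' r h2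
        exact (Nat.modEq_zero_iff_dvd).1 h3
  refine ⟨C * (2 * M + 2 * r + 1), fun N U V hV hN => ?_⟩
  obtain ⟨w, hw⟩ := hN
  have hV' : Polynomial.expand (ZMod 2) M V ≠ 0 := by
    intro h0
    exact hV ((Polynomial.expand_eq_zero hq).1 h0)
  have h1 : (X : S) ^ (r + M * N) ∣ ((Polynomial.expand (ZMod 2) M V : F) : S) * c +
      ((Polynomial.expand (ZMod 2) M V * Q + Polynomial.X ^ r * Polynomial.expand (ZMod 2) M U : F) : S) := by
    refine ⟨PowerSeries.expand M hM w, ?_⟩
    have h2 : PowerSeries.expand M hM (V : S) * PowerSeries.expand M hM g +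
        PowerSeries.expand M hM (U : S) = X ^ (M * N) * PowerSeries.expand M hM w := by
      rw [← map_mul, ← map_add, hw, map_mul, map_pow, PowerSeries.expand_X, ← pow_mul]
    rw [hcg, pow_add]
    push_cast
    rw [coe_expand M hM, coe_expand M hM]
    linear_combination X ^ r * h2 + PowerSeries.expand M hM (V : S) * (Q : S) * two_zero
  have h3 := hC _ _ _ hV' h1
  have d1 : (Polynomial.expand (ZMod 2) M V).natDegree = V.natDegree * M := Polynomial.natDegree_expand _ _
  have d2 : (Polynomial.expand (ZMod 2) M U).natDegree = U.natDegree * M := Polynomial.natDegree_expand _ _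
  have d3 : Q.natDegree ≤ r := by
    rcases Nat.eq_zero_or_pos r with h0 | h0
    · rw [hQ, h0]
      have : PowerSeries.trunc 0 c = 0 := by
        ext n
        simp
      rw [this]
      simp
    · obtain ⟨r', rfl⟩ : ∃ r', r = r' + 1 := ⟨r - 1, by omega⟩
      have := PowerSeries.natDegree_trunc_lt c r'
      rw [hQ]
      omega
  have d4 := Polynomial.natDegree_mul_le (p := Polynomial.expand (ZMod 2) M V) (q := Q)
  have d5 := Polynomial.natDegree_mul_le (p := (Polynomial.X : F) ^ r)
    (q := Polynomial.expand (ZMod 2) M U)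
  rw [Polynomial.natDegree_X_pow] at d5
  have d6 := Polynomial.natDegree_add_le (Polynomial.expand (ZMod 2) M V * Q)
    (Polynomial.X ^ r * Polynomial.expand (ZMod 2) M U)
  have d7 : (Polynomial.expand (ZMod 2) M V * Q +
      Polynomial.X ^ r * Polynomial.expand (ZMod 2) M U).natDegree +
      (Polynomial.expand (ZMod 2) M V).natDegree + 1 ≤
      (2 * M + 2 * r + 1) * (U.natDegree + V.natDegree + 1) := by
    have e1 : (Polynomial.expand (ZMod 2) M V * Q +
        Polynomial.X ^ r * Polynomial.expand (ZMod 2) M U).natDegree ≤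
        V.natDegree * M + U.natDegree * M + r := by
      refine d6.trans (max_le ?_ ?_)
      · omega
      · omega
    have e2 : V.natDegree * M + U.natDegree * M + r + V.natDegree * M + 1 ≤
        (2 * M + 2 * r + 1) * (U.natDegree + V.natDegree + 1) := by
      nlinarith [Nat.zero_le (M * U.natDegree), Nat.zero_le (M * V.natDegree),
        Nat.zero_le (r * U.natDegree), Nat.zero_le (r * V.natDegree), Nat.zero_le M]
    omega
  have h4 : N ≤ M * N := Nat.le_mul_of_pos_left _ hq
  calc N ≤ r + M * N := by omega
    _ ≤ _ := h3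
    _ ≤ C * ((2 * M + 2 * r + 1) * (U.natDegree + V.natDegree + 1)) := Nat.mul_le_mul_left C d7
    _ = _ := by ring

end Pool.Agent.TH693.QQ
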