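import Pool.Agent.TH693.QQ.Stm
import Pool.Agent.TH150.QBgen

set_option autoImplicit false

/-!
# Task QB (helper150 for helper693): a separable relation over `F_2(X, g(X^(3^a)))`
-/

namespace Pool.Agent.TH693.QQ

open PowerSeries Pool.Agent.TH693.PP Pool.Agent.H397R2.PP Pool.Agent.TH150.QB

theorem charP_S : CharP S 2 :=
  charP_of_injective_ringHom (PowerSeries.C_injective (R := ZMod 2)) 2

theorem io_X : io Polynomial.X = (X : S) := by
  simp [io]

theorem io_C (c : ZMod 2) : io (Polynomial.C c) = (PowerSeries.C c : S) := by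
  simp [io]

theorem sg_injective (a : ℕ) : Function.Injective (sg a) := by
  intro f h hfh
  ext n
  have := congrArg (fun p : S => coeff (3 ^ a * n) p) hfh
  simpa [sg, PowerSeries.coeff_expand_mul] using this

theorem sg_io (a : ℕ) : ((sg a : S →ₐ[ZMod 2] S) : S →+* S).comp io =
    io.comp ((Polynomial.expand (ZMod 2) (3 ^ a)) : F →+* F) := by
  refine Polynomial.ringHom_ext (fun c => ?_) ?_
  · simp only [RingHom.comp_apply, RingHom.coe_coe, Polynomial.expand_C]
    rw [io_C]
    exact PowerSeries.expand_C _ _ _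
  · simp only [RingHom.comp_apply, RingHom.coe_coe, Polynomial.expand_X, map_pow]
    rw [io_X]
    exact PowerSeries.expand_X _ _

theorem sg_zero (f : S) : sg 0 f = f := by
  unfold sg
  have : PowerSeries.expand (3 ^ 0) (by positivity : 3 ^ 0 ≠ 0) f =
      PowerSeries.expand 1 one_ne_zero f := by
    congr 1
  rw [this, PowerSeries.expand_one_apply]

theorem sg_succ (a : ℕ) (f : S) : sg (a + 1) f = sg a (sg 1 f) := by
  unfold sg
  rw [← PowerSeries.expand_mul]
  congr 1

theorem sp_sg {z u : S} (h : Sp io z u) (a : ℕ) : Sp io (sg a z) (sg a u) :=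
  Sp.map io h (sg a : S →+* S) _ (sg_injective a) (sg_io a)

theorem sp_frob {z u : S} (h : Sp io z u) (j : ℕ) : Sp io (z ^ 2 ^ j) (u ^ 2 ^ j) := by
  have : CharP S 2 := charP_S
  have : Fact (Nat.Prime 2) := ⟨Nat.prime_two⟩
  have h1 := Sp.map io h (iterateFrobenius S 2 j) (iterateFrobenius F 2 j)
    (iterateFrobenius_inj S 2 j) (by
      ext1
      · ext c
        simp [iterateFrobenius_def]
      · simp [iterateFrobenius_def])
  rw [iterateFrobenius_def, iterateFrobenius_def] at h1
  exact h1

theorem Db_ne_zero' : Db ≠ 0 := by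
  intro h
  have h1 := congrArg (coeff 1) h
  rw [Db_eq_theta, coeff_mk, if_pos ⟨0, by norm_num⟩] at h1
  simp at h1

/-- the modular equation gives a separable relation -/
theorem sp_base : Sp io (sg 1 Db) Db := by
  have hc : ∀ z : S, ev io z (Polynomial.X : Polynomial F) = z := fun z => by simp [ev]
  refine ⟨Polynomial.X ^ 4 + Polynomial.C Polynomial.X * Polynomial.X +
    Polynomial.C (Polynomial.X ^ 4), ?_, ?_⟩
  · simp only [Polynomial.map_add, Polynomial.map_mul, Polynomial.map_pow, Polynomial.map_X,
      Polynomial.map_C, Polynomial.eval_add, Polynomial.eval_mul, Polynomial.eval_pow,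
      Polynomial.eval_X, Polynomial.eval_C, map_pow, hc]
    have h1 := modular_equation
    have h2 : sg 1 Db = PowerSeries.expand 3 (by norm_num) Db := by
      unfold sg
      congr 1
    rw [h2, h1]
    linear_combination (Db * PowerSeries.expand 3 (by norm_num) Db +
      (PowerSeries.expand 3 (by norm_num) Db) ^ 4) * two_zero
  · simp only [Polynomial.map_add, Polynomial.map_mul, Polynomial.map_pow, Polynomial.map_X,
      Polynomial.map_C, map_pow, hc, Polynomial.derivative_add, Polynomial.derivative_mul,
      Polynomial.derivative_C, Polynomial.derivative_X, Polynomial.derivative_X_pow,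
      Polynomial.eval_add, Polynomial.eval_mul, Polynomial.eval_pow,
      Polynomial.eval_X, Polynomial.eval_C]
    intro h
    apply Db_ne_zero'
    apply sg_injective 1
    rw [map_zero]
    have h4 : ((4 : ℕ) : S) = 0 := by
      have : (4 : S) = 2 * 2 := by norm_num
      push_cast
      rw [this, two_zero, zero_mul]
    have hC : Polynomial.derivative (Polynomial.C (sg 1 Db) ^ 4) = 0 := by
      rw [← Polynomial.C_pow, Polynomial.derivative_C]
    simp only [h4, hC, zero_mul, zero_add, Polynomial.eval_zero] at h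
    simpa using h

theorem sp_all (a : ℕ) : Sp io (sg a Db) Db := by
  induction a with
  | zero =>
    rw [sg_zero]
    refine ⟨Polynomial.X - Polynomial.C Polynomial.X, ?_, ?_⟩
    · simp [ev]
    · simp
  | succ a ih =>
    have h1 := sp_sg sp_base a
    rw [← sg_succ] at h1
    exact h1.trans io ih

theorem qb : S_QB := by
  intro g hg hX
  have : CharP S 2 := charP_S
  have hAl : Al io Db g := hg
  obtain ⟨i, hi⟩ := al_sp io hAl
  obtain ⟨j, hj⟩ := al_sp io (exchange io hAl (fun A hA h => hX ⟨A, hA, h⟩))
  refine ⟨i + j + 1, i + j, ?_, ?_⟩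
  · calc 2 ^ (i + j) < 2 ^ (i + j + 1) := Nat.pow_lt_pow_right (by norm_num) (by omega)
      _ ≤ 3 ^ (i + j + 1) := Nat.pow_le_pow_left (by norm_num) _
  · set a := i + j + 1 with ha
    have s1 : Sp io (sg a g) ((sg a Db) ^ 2 ^ j) := by
      have := sp_sg hj a
      rwa [map_pow] at this
    have s2 : Sp io ((sg a Db) ^ 2 ^ j) (Db ^ 2 ^ j) := sp_frob (sp_all a) j
    have s3 : Sp io (Db ^ 2 ^ j) (g ^ 2 ^ (i + j)) := by
      have := sp_frob hi j
      rwa [← pow_mul, ← pow_add] at this
    exact (s1.trans io s2).trans io s3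

end Pool.Agent.TH693.QQ
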