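import Pool.Agent.TH693.QQ.Stm

set_option autoImplicit false

/-!
# Project QQ, task QC: `Db` is transcendental over `F_2(X)` (job 4781, helper11 for helper693)
-/

namespace Pool.Agent.TH693.QQ.QC

open PowerSeries Pool.Agent.TH693.PP Pool.Agent.H397R2.PP Pool.Agent.H397R2.PP.TH

theorem dep0 {A B : Type*} [CommRing A] [IsDomain A] [IsNoetherianRing A] [CommRing B] [Algebra A B]
    (w : B) (hint : IsIntegral A w) : ∃ (s : Finset ℕ) (g : ℕ → A),
      ∑ i ∈ s, g i • w ^ 2 ^ i = 0 ∧ ∃ i ∈ s, g i ≠ 0 := by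
  have hfg := hint.fg_adjoin_singleton
  have hN : IsNoetherian A (Subalgebra.toSubmodule (Algebra.adjoin A {w})) :=
    isNoetherian_of_fg_of_noetherian _ hfg
  have hw : w ∈ Algebra.adjoin A {w} := Algebra.subset_adjoin (Set.mem_singleton w)
  have hwi : ∀ i : ℕ, w ^ 2 ^ i ∈ Subalgebra.toSubmodule (Algebra.adjoin A {w}) :=
    fun i => Subalgebra.pow_mem _ hw _
  obtain ⟨v, hv⟩ : ∃ v : ℕ → (Subalgebra.toSubmodule (Algebra.adjoin A {w})),
    ∀ i, (v i : B) = w ^ 2 ^ i := ⟨fun i => ⟨w ^ 2 ^ i, hwi i⟩, fun i => rfl⟩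
  have hnot : ¬ LinearIndependent A v := fun hv => by
    have := LinearIndependent.finite_of_isNoetherian hv
    exact not_finite ℕ
  rw [not_linearIndependent_iff] at hnot
  obtain ⟨s, g, hg, i, hi, hgi⟩ := hnot
  refine ⟨s, g, ?_, i, hi, hgi⟩
  have h1 := congrArg (Submodule.subtype _) hg
  rw [map_sum, map_zero] at h1
  rw [← h1]
  refine Finset.sum_congr rfl fun j _ => ?_
  rw [map_smul, Submodule.subtype_apply, hv]

/-- dependence of the iterated squares of an algebraic element -/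
theorem dep {A B : Type*} [CommRing A] [IsDomain A] [IsNoetherianRing A] [CommRing B]
    (φ : A →+* B) (z : B) (G : Polynomial A) (hG : G ≠ 0) (h : G.eval₂ φ z = 0) :
    ∃ (s : Finset ℕ) (a : ℕ → A), ∑ i ∈ s, φ (a i) * z ^ 2 ^ i = 0 ∧ ∃ i ∈ s, a i ≠ 0 := by
  let _ : Algebra A B := φ.toAlgebra
  have halg : IsAlgebraic A z := ⟨G, hG, by rw [Polynomial.aeval_def]; exact h⟩
  obtain ⟨c, hc, hint⟩ := halg.exists_integral_multiple
  obtain ⟨s, g, hg, i, hi, hgi⟩ := dep0 (c • z) hint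
  refine ⟨s, fun i => g i * c ^ 2 ^ i, ?_, i, hi, mul_ne_zero hgi (pow_ne_zero _ hc)⟩
  rw [← hg]
  refine Finset.sum_congr rfl fun j _ => ?_
  rw [smul_pow, smul_smul, Algebra.smul_def]
  exact rfl

open Classical in
theorem coeff_Dbp (i n : ℕ) :
    coeff n (Db ^ 2 ^ i) = if ∃ u : ℕ, u % 2 = 1 ∧ n = 2 ^ i * u ^ 2 then (1 : ZMod 2) else 0 := by
  rw [pow_eq_expand, Db_ind, expand_ind, coeff_ind]
  congr 1
  apply propext
  constructor
  · rintro ⟨k, hk, j, hj⟩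
    exact ⟨2 * j + 1, by omega, by rw [hk, hj]⟩
  · rintro ⟨u, hu, h⟩
    exact ⟨u ^ 2, h, u / 2, by
      congr 1
      omega⟩

/-- two different nonnegative integers have squares at distance at least each of them -/
theorem sq_far (a b : ℤ) (ha : 0 ≤ a) (hb : 0 ≤ b) (h : a ≠ b) : a ≤ |a ^ 2 - b ^ 2| := by
  rcases lt_or_gt_of_ne h with h1 | h1
  · rw [abs_of_nonpos (by nlinarith)]
    nlinarith
  · rw [abs_of_nonneg (by nlinarith)]
    nlinarith

/-- the arithmetic end -/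
theorem arith (h : ℤ) (hh : 0 ≤ h) (n0 : ℕ)
    (H : ∀ n : ℕ, n % 2 = 1 → n0 ≤ n → ∃ m : ℤ, 0 ≤ m ∧ |(n : ℤ) ^ 2 - 2 * m ^ 2| ≤ h) : False := by
  obtain ⟨n, hn1, hn2, hn3⟩ : ∃ n : ℕ, n % 2 = 1 ∧ n0 ≤ n ∧ 10 * h + 100 ≤ n := by
    refine ⟨2 * (n0 + 5 * h.toNat + 50) + 1, by omega, by omega, ?_⟩
    push_cast
    rw [Int.toNat_of_nonneg hh]
    omega
  obtain ⟨m, hm0, hm⟩ := H n hn1 hn2
  obtain ⟨m', hm0', hm'⟩ := H (n + 2) (by omega) (by omega)
  push_cast at hm'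
  rw [abs_le] at hm hm'
  generalize (n : ℤ) = N at hm hm' hn3
  have e1 : 2 * (m' - m) * (m' + m) ≤ 4 * N + 4 + 2 * h := by nlinarith
  have e2 : 4 * N + 4 - 2 * h ≤ 2 * (m' - m) * (m' + m) := by nlinarith
  rcases lt_or_ge 0 (m' - m) with hs | hs
  · rcases lt_or_ge 1 (m' - m) with hs1 | hs1
    · -- `m' - m ≥ 2`
      have e3 : 8 * m + 8 ≤ 4 * N + 4 + 2 * h := by nlinarith
      have e4 : 2 * m ≤ N + h := by omega
      nlinarith
    · -- `m' = m + 1`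
      have e3 : m' = m + 1 := by omega
      subst e3
      have e4 : 4 * N + 4 - 2 * h ≤ 4 * m + 2 := by nlinarith
      have e5 : 2 * N - h ≤ 2 * m := by omega
      nlinarith
  · nlinarith

theorem qc : S_QC := by
  classical
  rintro ⟨G, hG, hev⟩
  have hev' : G.eval₂ io Db = 0 := hev
  obtain ⟨s, a, hsum, hne⟩ := dep io Db G hG hev'
  -- the least index
  obtain ⟨i0, ⟨hi0s, hi0⟩, hmin⟩ : ∃ i0, (i0 ∈ s ∧ a i0 ≠ 0) ∧ ∀ i, i ∈ s → a i ≠ 0 → i0 ≤ i := by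
    obtain ⟨i, hi, hai⟩ := hne
    have hex : ∃ i, i ∈ s ∧ a i ≠ 0 := ⟨i, hi, hai⟩
    exact ⟨Nat.find hex, Nat.find_spec hex, fun j hj haj => Nat.find_min' hex ⟨hj, haj⟩⟩
  obtain ⟨e, he⟩ : ∃ e, (a i0).coeff e ≠ 0 := by
    by_contra hcon
    push Not at hcon
    exact hi0 (Polynomial.ext fun n => by rw [hcon n, Polynomial.coeff_zero])
  -- a bound for all degrees
  obtain ⟨h, hh⟩ : ∃ h : ℕ, ∀ i ∈ s, (a i).natDegree ≤ h :=
    ⟨s.sup fun i => (a i).natDegree, fun i hi => Finset.le_sup (f := fun i => (a i).natDegree) hi⟩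
  have hcoef : ∀ i ∈ s, ∀ e', (a i).coeff e' ≠ 0 → e' ≤ h := fun i hi e' he' =>
    (Polynomial.le_natDegree_of_ne_zero he').trans (hh i hi)
  have heh : e ≤ h := hcoef i0 hi0s e he
  refine arith h (by positivity) (h + 1) fun n hn hnh => ?_
  -- the coefficient
  set N : ℕ := e + 2 ^ i0 * n ^ 2 with hN
  have hc := congrArg (coeff N) hsum
  rw [map_sum, map_zero] at hc
  have hterm : ∀ i ∈ s, coeff N (io (a i) * Db ^ 2 ^ i) ≠ 0 →
      ∃ e' u : ℕ, (a i).coeff e' ≠ 0 ∧ u % 2 = 1 ∧ N = e' + 2 ^ i * u ^ 2 := by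
    intro i hi hne
    rw [coeff_mul] at hne
    obtain ⟨x, hx, hx2⟩ := Finset.exists_ne_zero_of_sum_ne_zero hne
    rw [coeff_Dbp] at hx2
    have h1 : ∃ u : ℕ, u % 2 = 1 ∧ x.2 = 2 ^ i * u ^ 2 := by
      by_contra hcon
      rw [if_neg hcon, mul_zero] at hx2
      exact hx2 rfl
    obtain ⟨u, hu, hxu⟩ := h1
    have h2 : coeff x.1 (io (a i)) = (a i).coeff x.1 := Polynomial.coeff_coe _ _
    rw [h2] at hx2
    refine ⟨x.1, u, fun h0 => hx2 (by rw [h0, zero_mul]), hu, ?_⟩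
    rw [← hxu]
    exact (Finset.HasAntidiagonal.mem_antidiagonal.1 hx).symm
  -- the term of the index `i0`
  have hfirst : coeff N (io (a i0) * Db ^ 2 ^ i0) = (a i0).coeff e := by
    rw [coeff_mul, Finset.sum_eq_single (e, 2 ^ i0 * n ^ 2)]
    · have h2 : coeff e (io (a i0)) = (a i0).coeff e := Polynomial.coeff_coe _ _
      simp only
      rw [h2, coeff_Dbp, if_pos ⟨n, hn, rfl⟩, mul_one]
    · rintro ⟨x, y⟩ hx hxy
      by_contra hne
      rw [coeff_Dbp] at hne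
      have h1 : ∃ u : ℕ, u % 2 = 1 ∧ y = 2 ^ i0 * u ^ 2 := by
        by_contra hcon
        rw [if_neg hcon, mul_zero] at hne
        exact hne rfl
      obtain ⟨u, hu, hxu⟩ := h1
      have h2 : coeff x (io (a i0)) = (a i0).coeff x := Polynomial.coeff_coe _ _
      rw [h2] at hne
      have h3 : x ≤ h := hcoef i0 hi0s x fun h0 => hne (by rw [h0, zero_mul])
      have h4 : x + 2 ^ i0 * u ^ 2 = e + 2 ^ i0 * n ^ 2 := by
        rw [← hxu]
        exact Finset.HasAntidiagonal.mem_antidiagonal.1 hx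
      by_cases hnu : (n : ℤ) = u
      · have hnu' : n = u := by exact_mod_cast hnu
        subst hnu'
        apply hxy
        rw [Prod.mk.injEq]
        exact ⟨by omega, hxu⟩
      · have h5 := sq_far n u (by positivity) (by positivity) hnu
        have h6 : (2 : ℤ) ^ i0 * ((n : ℤ) ^ 2 - (u : ℤ) ^ 2) = x - e := by
          have : (x : ℤ) + 2 ^ i0 * (u : ℤ) ^ 2 = e + 2 ^ i0 * (n : ℤ) ^ 2 := by exact_mod_cast h4
          linarith
        have h7 : (1 : ℤ) ≤ 2 ^ i0 := one_le_pow₀ (by norm_num)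
        have h8 : |(2 : ℤ) ^ i0 * ((n : ℤ) ^ 2 - (u : ℤ) ^ 2)| ≤ h := by
          rw [h6, abs_le]
          constructor <;> omega
        rw [abs_mul, abs_of_pos (by positivity : (0 : ℤ) < 2 ^ i0)] at h8
        have h9 : |(n : ℤ) ^ 2 - (u : ℤ) ^ 2| ≤ h := by
          have := abs_nonneg ((n : ℤ) ^ 2 - (u : ℤ) ^ 2)
          nlinarith
        have h10 : (h : ℤ) + 1 ≤ n := by exact_mod_cast hnh
        omega
    · intro hcon
      exact absurd (Finset.HasAntidiagonal.mem_antidiagonal.2 hN.symm) hcon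
  -- another term does not vanish
  obtain ⟨i, hi, hii, hterm'⟩ : ∃ i ∈ s, i ≠ i0 ∧ coeff N (io (a i) * Db ^ 2 ^ i) ≠ 0 := by
    by_contra hcon
    push Not at hcon
    rw [Finset.sum_eq_single_of_mem i0 hi0s (fun j hj hji => hcon j hj hji), hfirst] at hc
    exact he hc
  obtain ⟨e', u, he', hu, hNu⟩ := hterm i hi hterm'
  have hai : a i ≠ 0 := fun h0 => he' (by rw [h0, Polynomial.coeff_zero])
  have hlt : i0 < i := lt_of_le_of_ne (hmin i hi hai) (Ne.symm hii)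
  have heh' := hcoef i hi e' he'
  obtain ⟨r, hr⟩ : ∃ r, i = i0 + r := ⟨i - i0, by omega⟩
  have hr1 : 1 ≤ r := by omega
  -- the main inequality
  have hkey : |(n : ℤ) ^ 2 - 2 ^ r * (u : ℤ) ^ 2| ≤ (h : ℤ) := by
    have h6 : (2 : ℤ) ^ i0 * ((n : ℤ) ^ 2 - 2 ^ r * (u : ℤ) ^ 2) = e' - e := by
      have h4 : (e : ℤ) + 2 ^ i0 * (n : ℤ) ^ 2 = e' + 2 ^ i * (u : ℤ) ^ 2 := by
        exact_mod_cast hN.symm.trans hNu
      rw [hr, pow_add] at h4
      linear_combination h4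
    have h7 : (1 : ℤ) ≤ 2 ^ i0 := one_le_pow₀ (by norm_num)
    have h8 : |(2 : ℤ) ^ i0 * ((n : ℤ) ^ 2 - 2 ^ r * (u : ℤ) ^ 2)| ≤ (h : ℤ) := by
      rw [h6, abs_le]
      constructor <;> omega
    rw [abs_mul, abs_of_pos (by positivity : (0 : ℤ) < 2 ^ i0)] at h8
    have := abs_nonneg ((n : ℤ) ^ 2 - 2 ^ r * (u : ℤ) ^ 2)
    nlinarith
  obtain ⟨t, ht⟩ := Nat.even_or_odd' r
  rcases ht with ht | ht
  · exfalso
    have h1 : (2 : ℤ) ^ r * (u : ℤ) ^ 2 = ((2 ^ t * u : ℕ) : ℤ) ^ 2 := by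
      rw [ht]
      push_cast
      ring
    rw [h1] at hkey
    have hne : (n : ℤ) ≠ ((2 ^ t * u : ℕ) : ℤ) := by
      intro h2
      have h3 : n = 2 ^ t * u := by exact_mod_cast h2
      obtain ⟨t', rfl⟩ : ∃ t', t = t' + 1 := ⟨t - 1, by omega⟩
      rw [pow_succ, mul_assoc, mul_comm, mul_assoc] at h3
      omega
    have h5 := sq_far n ((2 ^ t * u : ℕ) : ℤ) (by positivity) (by positivity) hne
    have h10 : (h : ℤ) + 1 ≤ n := by exact_mod_cast hnh
    omega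
  · refine ⟨((2 ^ t * u : ℕ) : ℤ), by positivity, ?_⟩
    have h1 : 2 * ((2 ^ t * u : ℕ) : ℤ) ^ 2 = 2 ^ r * (u : ℤ) ^ 2 := by
      rw [ht]
      push_cast
      ring
    rw [h1]
    exact hkey

end Pool.Agent.TH693.QQ.QC
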