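import Pool.Agent.TH693.QQ.Stm

set_option autoImplicit false

/-! # Task QD: the projections of powers of `Db` are integral over `F_2[Db]` (by helper429) -/

namespace Pool.Agent.TH693.QQ

open PowerSeries Pool.Agent.TH693.PP Pool.Agent.H397R2.PP

namespace QD

theorem int_Db : IsIntegral AD (Db : S) :=
  isIntegral_algebraMap (R := AD) (x := ⟨Db, Algebra.subset_adjoin rfl⟩)

/-- roots of quadratic polynomials with integral coefficients are integral -/
theorem int_quad {y y' : S} (hp : IsIntegral AD (y + y')) (hq : IsIntegral AD (y * y')) :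
    IsIntegral AD y := by
  have h1 : IsIntegral (integralClosure AD S) y := by
    let p : integralClosure AD S := ⟨y + y', hp⟩
    let q : integralClosure AD S := ⟨y * y', hq⟩
    refine ⟨Polynomial.X ^ 2 + (Polynomial.C p * Polynomial.X + Polynomial.C q), ?_, ?_⟩
    · apply Polynomial.monic_X_pow_add
      exact (Polynomial.degree_linear_le).trans_lt (by norm_num)
    · rw [Polynomial.eval₂_add, Polynomial.eval₂_add, Polynomial.eval₂_mul,
        Polynomial.eval₂_pow, Polynomial.eval₂_X, Polynomial.eval₂_C, Polynomial.eval₂_C]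
      change y ^ 2 + ((y + y') * y + y * y') = 0
      linear_combination (y ^ 2 + y * y') * two_zero
  exact isIntegral_trans y h1

theorem int_th (h : S_QD1) (k : ℕ) (b : ℤ) (hb : Odd b) : IsIntegral AD (th (2 ^ (k + 2)) b) := by
  induction k generalizing b with
  | zero =>
    have : th (2 ^ (0 + 2)) b = Db := by
      have := h.four b hb
      norm_num
      exact this
    rw [this]
    exact int_Db
  | succ k ih =>
    have h1 := h.split (k + 2) b hb
    have h2 := h.prod (k + 2) b (by omega) hb
    have hb' : Odd (b + 2 ^ (k + 2 - 1)) := by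
      apply hb.add_even
      rw [show k + 2 - 1 = k + 1 by omega, pow_succ]
      exact (even_two).mul_left _
    refine int_quad (y' := th (2 ^ (k + 2 + 1)) (b + 2 ^ (k + 2))) ?_ ?_
    · rw [show k + 1 + 2 = k + 2 + 1 by ring, h1]
      exact ih b hb
    · rw [show k + 1 + 2 = k + 2 + 1 by ring, h2]
      exact (int_Db.pow _).mul ((ih _ hb').pow 2)

theorem Db_sum (h : S_QD1) (m : ℕ) :
    (Db : S) = ∑ j ∈ Finset.range (2 ^ m), th (2 ^ (m + 2)) (1 + 4 * (j : ℤ)) := by
  induction m with
  | zero =>
    have := h.four 1 odd_one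
    simp only [pow_zero, Finset.range_one, Finset.sum_singleton, Nat.cast_zero, mul_zero, add_zero,
      zero_add]
    norm_num
    exact this.symm
  | succ m ih =>
    rw [pow_succ, mul_two, Finset.sum_range_add, ← Finset.sum_add_distrib, ih]
    apply Finset.sum_congr rfl
    intro j _
    have ho : Odd (1 + 4 * (j : ℤ)) := ⟨2 * j, by ring⟩
    have := h.split (m + 2) (1 + 4 * (j : ℤ)) ho
    rw [← this, show m + 1 + 2 = m + 2 + 1 by ring]
    congr 2
    push_cast
    ring

theorem coeff_proj (M r : ℕ) (f : S) (n : ℕ) :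
    coeff n (proj M r f) = if n % M = r % M then coeff n f else 0 := by
  rw [proj, coeff_mk]

theorem proj_sum {ι : Type} (M r : ℕ) (s : Finset ι) (f : ι → S) :
    proj M r (∑ i ∈ s, f i) = ∑ i ∈ s, proj M r (f i) := by
  ext n
  rw [coeff_proj, map_sum, map_sum]
  simp only [coeff_proj]
  split_ifs with h
  · rfl
  · simp

theorem int_proj_th (h : S_QD1) (m a : ℕ) (b : ℤ) (hb : Odd b) :
    IsIntegral AD (proj (2 ^ (m + 3)) a (th (2 ^ (m + 2)) b)) := by
  by_cases hc : (2 ^ (m + 3) : ℤ) ∣ a - b ^ 2
  · have : proj (2 ^ (m + 3)) a (th (2 ^ (m + 2)) b) = th (2 ^ (m + 2)) b := by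
      ext n
      rw [coeff_proj]
      split_ifs with h1
      · rfl
      · by_contra h2
        apply h1
        have h3 := h.supp (m + 2) b n (by omega) (fun h => h2 h.symm)
        have h4 : (2 ^ (m + 3) : ℤ) ∣ (n : ℤ) - a := by
          have e : (n : ℤ) - a = (n - b ^ 2) - (a - b ^ 2) := by ring
          rw [e]
          exact dvd_sub h3 hc
        have h5 : (a : ℤ) ≡ n [ZMOD ((2 ^ (m + 3) : ℕ) : ℤ)] := by
          rw [Int.modEq_iff_dvd]
          exact_mod_cast h4
        have h6 : a ≡ n [MOD 2 ^ (m + 3)] := Int.natCast_modEq_iff.1 h5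
        exact h6.symm
    rw [this]
    exact int_th h m b hb
  · have : proj (2 ^ (m + 3)) a (th (2 ^ (m + 2)) b) = 0 := by
      ext n
      rw [coeff_proj, map_zero]
      split_ifs with h1
      · by_contra h2
        apply hc
        have h3 := h.supp (m + 2) b n (by omega) h2
        have h5 : n ≡ a [MOD 2 ^ (m + 3)] := h1
        have h6 : (n : ℤ) ≡ a [ZMOD ((2 ^ (m + 3) : ℕ) : ℤ)] := Int.natCast_modEq_iff.2 h5
        rw [Int.modEq_iff_dvd] at h6
        have h7 : (2 ^ (m + 3) : ℤ) ∣ (a : ℤ) - n := by exact_mod_cast h6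
        have e : (a : ℤ) - b ^ 2 = (a - n) + (n - b ^ 2) := by ring
        rw [e]
        exact dvd_add h7 h3
      · rfl
    rw [this]
    exact isIntegral_zero

theorem int_proj_big (h : S_QD1) (m a : ℕ) : IsIntegral AD (proj (2 ^ (m + 3)) a Db) := by
  rw [Db_sum h m, proj_sum]
  apply IsIntegral.sum
  intro j _
  exact int_proj_th h m a _ ⟨2 * j, by ring⟩

theorem proj_dvd (M N a : ℕ) (hN : 0 < N) (hd : M ∣ N) (f : S) :
    proj M a f = ∑ b ∈ (Finset.range N).filter (fun b => b % M = a % M), proj N b f := by
  ext n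
  rw [coeff_proj, map_sum]
  simp only [coeff_proj]
  by_cases h : n % M = a % M
  · rw [if_pos h, Finset.sum_eq_single (n % N)]
    · rw [Nat.mod_mod, if_pos rfl]
    · intro b hb hne
      rw [Finset.mem_filter, Finset.mem_range] at hb
      rw [if_neg]
      intro hc
      apply hne
      rw [hc, Nat.mod_eq_of_lt hb.1]
    · intro hc
      exfalso
      apply hc
      rw [Finset.mem_filter, Finset.mem_range]
      exact ⟨Nat.mod_lt _ hN, by rw [Nat.mod_mod_of_dvd _ hd, h]⟩
  · rw [if_neg h]
    symm
    apply Finset.sum_eq_zero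
    intro b hb
    rw [Finset.mem_filter, Finset.mem_range] at hb
    rw [if_neg]
    intro hc
    apply h
    rw [← hb.2, ← Nat.mod_mod_of_dvd n hd, hc, Nat.mod_mod_of_dvd b hd]

theorem int_proj (h : S_QD1) (k a : ℕ) : IsIntegral AD (proj (2 ^ k) a Db) := by
  rw [proj_dvd (2 ^ k) (2 ^ (k + 3)) a (by positivity) (pow_dvd_pow 2 (by omega))]
  apply IsIntegral.sum
  intro b _
  exact int_proj_big h k b

theorem proj_mul (M a : ℕ) (hM : 0 < M) (f g : S) :
    proj M a (f * g) = ∑ b ∈ Finset.range M, proj M b f * proj M (a + (M - b)) g := by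
  ext n
  rw [coeff_proj, map_sum, coeff_mul]
  simp only [coeff_mul, coeff_proj]
  rw [Finset.sum_comm]
  have key : ∀ p ∈ Finset.HasAntidiagonal.antidiagonal n, (∑ b ∈ Finset.range M,
      (if p.1 % M = b % M then coeff p.1 f else 0) *
        (if p.2 % M = (a + (M - b)) % M then coeff p.2 g else 0)) =
      if n % M = a % M then coeff p.1 f * coeff p.2 g else 0 := by
    intro p hp
    rw [Finset.HasAntidiagonal.mem_antidiagonal] at hp
    rw [Finset.sum_eq_single (p.1 % M)]
    · rw [Nat.mod_mod, if_pos rfl]
      have hlt := Nat.mod_lt p.1 hM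
      have h1 : p.2 % M = (a + (M - p.1 % M)) % M ↔ n % M = a % M := by
        have h2 : p.2 ≡ a + (M - p.1 % M) [MOD M] ↔ n ≡ a [MOD M] := by
          have h3 : p.1 % M ≡ p.1 [MOD M] := Nat.mod_modEq _ _
          constructor
          · intro h4
            have h5 := h3.add h4
            have h6 : p.1 % M + (a + (M - p.1 % M)) = a + M := by omega
            have h7 : p.1 % M + p.2 ≡ n [MOD M] := by
              have := h3.add_right p.2
              rwa [hp] at this
            have h8 : p.1 % M + p.2 ≡ a + M [MOD M] := by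
              have := h4.add_left (p.1 % M)
              rwa [h6] at this
            have h9 : a + M ≡ a [MOD M] := by
              simp [Nat.ModEq]
            exact h7.symm.trans (h8.trans h9)
          · intro h4
            apply Nat.ModEq.add_left_cancel' (p.1 % M)
            have h6 : p.1 % M + (a + (M - p.1 % M)) = a + M := by omega
            rw [h6]
            have h7 : p.1 % M + p.2 ≡ n [MOD M] := by
              have := h3.add_right p.2
              rwa [hp] at this
            have h9 : a + M ≡ a [MOD M] := by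
              simp [Nat.ModEq]
            exact h7.trans (h4.trans h9.symm)
        exact h2
      by_cases h4 : n % M = a % M
      · rw [if_pos h4, if_pos (h1.2 h4)]
      · rw [if_neg h4, if_neg (fun h => h4 (h1.1 h)), mul_zero]
    · intro b hb hne
      rw [Finset.mem_range] at hb
      rw [if_neg, zero_mul]
      intro hc
      apply hne
      rw [hc, Nat.mod_eq_of_lt hb]
    · intro hc
      exact absurd (Finset.mem_range.2 (Nat.mod_lt _ hM)) hc
  rw [Finset.sum_congr rfl key]
  split_ifs
  · rfl
  · simp

theorem proj_one (M a : ℕ) : proj M a 1 = if 0 % M = a % M then 1 else 0 := by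
  ext n
  rw [coeff_proj]
  by_cases h0 : n = 0
  · subst h0
    split_ifs <;> simp
  · rw [coeff_one, if_neg h0]
    split_ifs <;> simp [coeff_one, h0]

end QD

/-- task QD -/
theorem qd : S_QD := by
  intro h k s a
  induction s generalizing a with
  | zero =>
    rw [pow_zero, QD.proj_one]
    split_ifs
    · exact isIntegral_one
    · exact isIntegral_zero
  | succ s ih =>
    rw [pow_succ, QD.proj_mul _ _ (by positivity)]
    apply IsIntegral.sum
    intro b _
    exact (ih b).mul (QD.int_proj h k _)

end Pool.Agent.TH693.QQ
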