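import Pool.Agent.TH693.QQ.Stm

/-! Task QE1: the relation between the sections of `P` and the projections of `Db ^ s` (written by helper113). -/

set_option autoImplicit false

namespace Pool.Agent.TH693.QQ

open PowerSeries Pool.Agent.TH693.PP Pool.Agent.H397R2.PP

namespace QE1

theorem coeff_proj (M r n : ℕ) (f : S) :
    coeff n (proj M r f) = if n % M = r % M then coeff n f else 0 := by
  unfold proj
  rw [coeff_mk]

/-- projections commute with the multiplication by series in `X ^ M'` -/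
theorem proj_mul_expand (M M' a : ℕ) (hM' : M' ≠ 0) (hd : M ∣ M') (f g : S) :
    proj M a (f * expand M' hM' g) = proj M a f * expand M' hM' g := by
  ext n
  rw [coeff_proj, coeff_mul, coeff_mul]
  have key : ∀ p ∈ Finset.HasAntidiagonal.antidiagonal n,
      coeff p.1 (proj M a f) * coeff p.2 (expand M' hM' g) =
        if n % M = a % M then coeff p.1 f * coeff p.2 (expand M' hM' g) else 0 := by
    rintro ⟨i, j⟩ hij
    rw [Finset.HasAntidiagonal.mem_antidiagonal] at hij
    simp only at hij ⊢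
    rw [coeff_proj]
    by_cases hj : M' ∣ j
    · have h1 : n % M = i % M := by
        obtain ⟨t, rfl⟩ := hd.trans hj
        rw [← hij, Nat.add_mul_mod_self_left]
      rw [h1, ite_mul, zero_mul]
    · rw [coeff_expand_of_not_dvd M' hM' g hj, mul_zero, mul_zero, ite_self]
  rw [Finset.sum_congr rfl key]
  split_ifs with h
  · rfl
  · rw [Finset.sum_const_zero]

theorem proj_X_pow (k r s : ℕ) (f : S) :
    proj (2 ^ (k + 3)) (8 * r + s) (X ^ s * expand 8 (by norm_num) f) =
      X ^ s * expand 8 (by norm_num) (proj (2 ^ k) r f) := by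
  ext n
  rw [coeff_proj, coeff_X_pow_mul', coeff_X_pow_mul']
  by_cases hs : s ≤ n
  · rw [if_pos hs, if_pos hs]
    obtain ⟨t, rfl⟩ : ∃ t, n = t + s := ⟨n - s, by omega⟩
    rw [Nat.add_sub_cancel]
    by_cases h8 : 8 ∣ t
    · obtain ⟨u, rfl⟩ := h8
      rw [coeff_expand_mul, coeff_expand_mul, coeff_proj]
      have h1 : (8 * u + s) % 2 ^ (k + 3) = (8 * r + s) % 2 ^ (k + 3) ↔ u % 2 ^ k = r % 2 ^ k := by
        have e : 2 ^ (k + 3) = 8 * 2 ^ k := by rw [pow_add]; ring
        rw [e]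
        constructor
        · intro h
          have h2 : 8 * u ≡ 8 * r [MOD 8 * 2 ^ k] := Nat.ModEq.add_right_cancel' s h
          exact Nat.ModEq.mul_left_cancel' (by norm_num) h2
        · intro h
          have h2 : 8 * u ≡ 8 * r [MOD 8 * 2 ^ k] := Nat.ModEq.mul_left' 8 h
          exact Nat.ModEq.add_right s h2
      by_cases h2 : u % 2 ^ k = r % 2 ^ k
      · rw [if_pos (h1.2 h2), if_pos h2]
      · rw [if_neg (fun h => h2 (h1.1 h)), if_neg h2]
    · rw [coeff_expand_of_not_dvd 8 _ _ h8, coeff_expand_of_not_dvd 8 _ _ h8, ite_self]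
  · rw [if_neg hs, if_neg hs, ite_self]

end QE1

theorem qe1 : S_QE1 := by
  intro k r
  obtain ⟨s, hs⟩ : ∃ s, 3 * s + 1 = 4 ^ k := by
    induction k with
    | zero => exact ⟨0, rfl⟩
    | succ k ih =>
      obtain ⟨s, hs⟩ := ih
      exact ⟨4 * s + 1, by rw [pow_succ, ← hs]; ring⟩
  refine ⟨k, s, hs, ?_⟩
  have hDb : Db = X * E ^ 24 := rfl
  have h8 : ∀ f : S, expand 8 (by norm_num) f = f ^ 8 := fun f => (pow_eq_expand 3 f).symm
  have e1 : Db ^ s = X ^ s * expand 8 (by norm_num) P * expand (2 ^ (2 * k + 3)) (by positivity) E := by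
    rw [h8, ← pow_eq_expand, hDb]
    have e2 : 2 ^ (2 * k + 3) = 24 * s + 8 := by
      rw [pow_add, pow_mul]
      have : (2 : ℕ) ^ 2 = 4 := rfl
      rw [this, ← hs]
      ring
    rw [e2]
    have h := P_mul_E
    calc (X * E ^ 24) ^ s = X ^ s * E ^ (24 * s) * (P * E) ^ 8 := by rw [h]; ring
      _ = _ := by ring
  have e3 : proj (2 ^ (k + 3)) (8 * r + s) (Db ^ s) =
      X ^ s * (proj (2 ^ k) r P) ^ 8 * E ^ 2 ^ (2 * k + 3) := by
    rw [e1, QE1.proj_mul_expand _ _ _ _ (pow_dvd_pow 2 (by omega)), QE1.proj_X_pow, h8,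
      ← pow_eq_expand]
  rw [e3, hDb]
  have e4 : 2 ^ (2 * k + 3) = 8 * 4 ^ k := by
    rw [pow_add, pow_mul]
    have : (2 : ℕ) ^ 2 = 4 := rfl
    rw [this]
    ring
  rw [e4, ← hs]
  ring

end Pool.Agent.TH693.QQ
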