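import Pool.Agent.TH693.QQ.Stm

/-!
# Task QE2: from the relation to algebraicity and transcendence
-/

set_option autoImplicit false

namespace Pool.Agent.TH693.QQ

open PowerSeries Pool.Agent.TH693.PP Pool.Agent.H397R2.PP

namespace QE2

section abs

variable {k L : Type} [Field k] [Field L] [Algebra k L]

/-- the matroid closure -/
def cl (k : Type) {L : Type} [Field k] [Field L] [Algebra k L] (s : Set L) : Set L :=
  (AlgebraicIndependent.matroid k L).closure s

lemma mem_cl {s : Set L} {y : L} : y ∈ cl k s ↔ IsAlgebraic (Algebra.adjoin k s) y := by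
  unfold cl
  rw [AlgebraicIndependent.matroid_closure_eq, SetLike.mem_coe, Subalgebra.mem_algebraicClosure]

lemma self_mem {s : Set L} {y : L} (h : y ∈ s) : y ∈ cl k s :=
  mem_cl.2 (isAlgebraic_algebraMap (⟨y, Algebra.subset_adjoin h⟩ : Algebra.adjoin k s))

lemma cl_cl {s t : Set L} (h : s ⊆ cl k t) {y : L} (hy : y ∈ cl k s) : y ∈ cl k t :=
  Matroid.closure_subset_closure_of_subset_closure h hy

lemma cl_mono {s t : Set L} (h : s ⊆ t) {y : L} (hy : y ∈ cl k s) : y ∈ cl k t :=
  cl_cl (fun _ hx => self_mem (h hx)) hy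

lemma mul_mem' {s : Set L} {y z : L} (hy : y ∈ cl k s) (hz : z ∈ cl k s) : y * z ∈ cl k s :=
  mem_cl.2 ((mem_cl.1 hy).mul (mem_cl.1 hz))

lemma pow_mem' {s : Set L} {y : L} (hy : y ∈ cl k s) (n : ℕ) : y ^ n ∈ cl k s :=
  mem_cl.2 ((mem_cl.1 hy).pow n)

lemma inv_mem' {s : Set L} {y : L} (hy : y ∈ cl k s) : y⁻¹ ∈ cl k s :=
  mem_cl.2 (mem_cl.1 hy).inv

lemma of_pow_mem {s : Set L} {y : L} {n : ℕ} (hn : 0 < n) (hy : y ^ n ∈ cl k s) : y ∈ cl k s :=
  mem_cl.2 ((mem_cl.1 hy).of_pow hn)

/-- an element which is algebraic over `k(x)` and over `k(d)` is algebraic over `k` if `d` is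
transcendental over `k(x)` -/
lemma exch {x d om : L} (hd : d ∉ cl k {x}) (h1 : om ∈ cl k {x}) (h2 : om ∈ cl k {d}) :
    om ∈ cl k (∅ : Set L) := by
  by_contra hcon
  have h3 : om ∈ (AlgebraicIndependent.matroid k L).closure (insert d ∅) := by
    rw [insert_empty_eq]; exact h2
  have h4 := Matroid.mem_closure_insert hcon h3
  rw [insert_empty_eq] at h4
  exact hd (cl_cl (by rintro _ rfl; exact h1) h4)

lemma root_of_unity [Finite k] {om : L} (h0 : om ≠ 0) (h : om ∈ cl k (∅ : Set L)) :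
    ∃ n : ℕ, 0 < n ∧ om ^ n = 1 := by
  have h1 : IsAlgebraic k om := by
    have h2 := mem_cl.1 h
    rw [Algebra.adjoin_empty] at h2
    obtain ⟨p, hp, hp2⟩ := h2
    have hlift : p ∈ Polynomial.lifts (algebraMap k (⊥ : Subalgebra k L)) := by
      rw [Polynomial.lifts_iff_coeff_lifts]
      intro n
      obtain ⟨a, ha⟩ := Algebra.mem_bot.1 (p.coeff n).2
      exact ⟨a, Subtype.ext ha⟩
    obtain ⟨q, hq⟩ := (Polynomial.mem_lifts p).1 hlift
    refine ⟨q, ?_, ?_⟩
    · rintro rfl
      rw [Polynomial.map_zero] at hq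
      exact hp hq.symm
    · rw [← hq, Polynomial.aeval_map_algebraMap] at hp2
      exact hp2
  have hint : IsIntegral k om := h1.isIntegral
  have hfd : FiniteDimensional k (IntermediateField.adjoin k {om}) :=
    IntermediateField.adjoin.finiteDimensional hint
  have hfin : Finite (IntermediateField.adjoin k {om}) := Module.finite_of_finite k
  set u : (IntermediateField.adjoin k {om})ˣ :=
    Units.mk0 ⟨om, IntermediateField.mem_adjoin_simple_self k om⟩ (by
      intro h
      exact h0 (congrArg Subtype.val h)) with hu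
  have hfo := isOfFinOrder_of_finite u
  obtain ⟨n, hn, hn2⟩ := isOfFinOrder_iff_pow_eq_one.1 hfo
  refine ⟨n, hn, ?_⟩
  have h3 := congrArg (fun v : (IntermediateField.adjoin k {om})ˣ =>
    ((v : IntermediateField.adjoin k {om}) : L)) hn2
  simp only [Units.val_pow_eq_pow_val, Units.val_one] at h3
  exact h3

end abs

section conc

/-- the field of fractions of the ring of power series -/
abbrev LL : Type := FractionRing S

/-- the inclusion -/
noncomputable def ii : S →ₐ[ZMod 2] LL := IsScalarTower.toAlgHom (ZMod 2) S LL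

lemma ii_inj : Function.Injective ii := IsFractionRing.injective S LL

lemma evp_C (z : S) (f : F) : evp z (Polynomial.C f) = io f := by
  simp [evp]

lemma evp_X (z : S) : evp z Polynomial.X = z := by
  simp [evp]

lemma io_C (a : ZMod 2) : io (Polynomial.C a) = algebraMap (ZMod 2) S a := by
  simp [io]

lemma io_X : io Polynomial.X = (X : S) := by
  simp [io]

/-- the field generated by `X` and `z` is contained in the range of `evp z` -/
lemma mem_range {z : S} {a : LL} (ha : a ∈ Algebra.adjoin (ZMod 2) {ii X, ii z}) :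
    a ∈ ((ii : S →+* LL).comp (evp z)).range := by
  induction ha using Algebra.adjoin_induction with
  | mem x hx =>
    rcases hx with rfl | hx
    · exact ⟨Polynomial.C Polynomial.X, by
        rw [RingHom.comp_apply, evp_C, io_X]; rfl⟩
    · rw [Set.mem_singleton_iff.1 hx]
      exact ⟨Polynomial.X, by rw [RingHom.comp_apply, evp_X]; rfl⟩
  | algebraMap r =>
    refine ⟨Polynomial.C (Polynomial.C r), ?_⟩
    rw [RingHom.comp_apply, evp_C, io_C]
    exact ii.commutes r
  | add x y _ _ hx hy => exact add_mem hx hy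
  | mul x y _ _ hx hy => exact mul_mem hx hy

lemma io_mem_range {a : LL} (ha : a ∈ Algebra.adjoin (ZMod 2) {ii X}) :
    a ∈ ((ii : S →+* LL).comp io).range := by
  induction ha using Algebra.adjoin_induction with
  | mem x hx =>
    rw [Set.mem_singleton_iff.1 hx]
    exact ⟨Polynomial.X, by rw [RingHom.comp_apply, io_X]; rfl⟩
  | algebraMap r =>
    refine ⟨Polynomial.C r, ?_⟩
    rw [RingHom.comp_apply, io_C]
    exact ii.commutes r
  | add x y _ _ hx hy => exact add_mem hx hy
  | mul x y _ _ hx hy => exact mul_mem hx hy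

lemma algOver_of_mem {z g : S} (h : ii g ∈ cl (ZMod 2) {ii X, ii z}) : AlgOver z g := by
  obtain ⟨p, hp, hp2⟩ := mem_cl.1 h
  set p' : Polynomial LL :=
    p.map (algebraMap (Algebra.adjoin (ZMod 2) {ii X, ii z}) LL) with hp'
  have hlift : p' ∈ Polynomial.lifts ((ii : S →+* LL).comp (evp z)) := by
    rw [Polynomial.lifts_iff_coeff_lifts]
    intro n
    rw [hp', Polynomial.coeff_map]
    exact mem_range (p.coeff n).2
  obtain ⟨G, hG⟩ := (Polynomial.mem_lifts p').1 hlift
  have hp0 : p' ≠ 0 := by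
    rw [hp']
    exact (Polynomial.map_ne_zero_iff Subtype.val_injective).2 hp
  have hm : (G.map (evp z)).map (ii : S →+* LL) = p' := by rw [Polynomial.map_map, hG]
  refine ⟨G, ?_, ?_⟩
  · intro h0
    rw [h0, Polynomial.map_zero] at hm
    exact hp0 hm.symm
  · apply ii_inj
    have h1 : (p'.eval (ii g)) = 0 := by
      rw [hp', Polynomial.eval_map]
      exact hp2
    rw [← hm, Polynomial.eval_map] at h1
    rw [map_zero, ← h1]
    exact Polynomial.hom_eval₂ (G.map (evp z)) (RingHom.id S) (ii : S →+* LL) g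

lemma algX_of_mem {g : S} (h : ii g ∈ cl (ZMod 2) {ii X}) : AlgX g := by
  obtain ⟨p, hp, hp2⟩ := mem_cl.1 h
  set p' : Polynomial LL := p.map (algebraMap (Algebra.adjoin (ZMod 2) {ii X}) LL) with hp'
  have hlift : p' ∈ Polynomial.lifts ((ii : S →+* LL).comp io) := by
    rw [Polynomial.lifts_iff_coeff_lifts]
    intro n
    rw [hp', Polynomial.coeff_map]
    exact io_mem_range (p.coeff n).2
  obtain ⟨G, hG⟩ := (Polynomial.mem_lifts p').1 hlift
  have hp0 : p' ≠ 0 := by
    rw [hp']
    exact (Polynomial.map_ne_zero_iff Subtype.val_injective).2 hp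
  refine ⟨G, ?_, ?_⟩
  · intro h0
    rw [h0, Polynomial.map_zero] at hG
    exact hp0 hG.symm
  · apply ii_inj
    have h1 : (p'.eval (ii g)) = 0 := by
      rw [hp', Polynomial.eval_map]
      exact hp2
    rw [← hG, Polynomial.eval_map] at h1
    rw [map_zero, ← h1]
    exact Polynomial.hom_eval₂ G io (ii : S →+* LL) g

lemma io_inj : Function.Injective io := Polynomial.coe_injective (ZMod 2)

lemma io_mem (f : F) : ii (io f) ∈ Algebra.adjoin (ZMod 2) {ii X} := by
  induction f using Polynomial.induction_on with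
  | C a =>
    rw [io_C, ii.commutes]
    exact Subalgebra.algebraMap_mem _ a
  | add p q hp hq => rw [map_add, map_add]; exact add_mem hp hq
  | monomial n a _ =>
    rw [map_mul, map_pow, io_X, io_C, map_mul, map_pow, ii.commutes]
    have h1 : ii X ∈ Algebra.adjoin (ZMod 2) {ii X} :=
      Algebra.subset_adjoin (Set.mem_singleton _)
    exact Subalgebra.mul_mem _ (Subalgebra.algebraMap_mem _ a) (Subalgebra.pow_mem _ h1 _)

lemma mem_of_algX {g : S} (h : AlgX g) : ii g ∈ cl (ZMod 2) {ii X} := by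
  obtain ⟨G, hG, hG2⟩ := h
  rw [mem_cl]
  let ψ : F →+* Algebra.adjoin (ZMod 2) {ii X} :=
    ((ii : S →+* LL).comp io).codRestrict (Algebra.adjoin (ZMod 2) {ii X}) io_mem
  have hψ : Function.Injective ψ := by
    intro a b hab
    exact io_inj (ii_inj (congrArg Subtype.val hab))
  refine ⟨G.map ψ, (Polynomial.map_ne_zero_iff hψ).2 hG, ?_⟩
  rw [Polynomial.aeval_def, Polynomial.eval₂_map]
  have h1 := congrArg ii hG2
  rw [map_zero] at h1
  rw [← h1]
  exact (Polynomial.hom_eval₂ G io (ii : S →+* LL) g).symm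

lemma mem_of_integral {w : S} (h : IsIntegral AD w) : ii w ∈ cl (ZMod 2) {ii Db} := by
  obtain ⟨p, hp, hp2⟩ := h
  rw [mem_cl]
  have hmem : ∀ a : AD, ii (a : S) ∈ Algebra.adjoin (ZMod 2) {ii Db} := by
    intro a
    have h1 : ii (a : S) ∈ AD.map ii := ⟨a, a.2, rfl⟩
    have h2 : AD.map ii = Algebra.adjoin (ZMod 2) {ii Db} := by
      unfold AD
      rw [AlgHom.map_adjoin, Set.image_singleton]
    rw [h2] at h1
    exact h1
  let ρ : AD →+* Algebra.adjoin (ZMod 2) {ii Db} :=
    ((ii : S →+* LL).comp (algebraMap AD S)).codRestrict (Algebra.adjoin (ZMod 2) {ii Db}) hmem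
  refine ⟨p.map ρ, (hp.map ρ).ne_zero, ?_⟩
  rw [Polynomial.aeval_def, Polynomial.eval₂_map]
  have h1 := congrArg ii hp2
  rw [map_zero] at h1
  rw [← h1]
  exact (Polynomial.hom_eval₂ p (algebraMap AD S) (ii : S →+* LL) w).symm

end conc

end QE2

theorem qe2 : S_QE2 := by
  intro hDb c w e hc hw hrel
  have hd : QE2.ii Db ∉ QE2.cl (ZMod 2) {QE2.ii X} := fun h => hDb (QE2.algX_of_mem h)
  have hw' := QE2.mem_of_integral hw
  have hrel' : QE2.ii Db ^ e * QE2.ii c ^ 24 = QE2.ii X * QE2.ii w ^ 3 := by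
    rw [← map_pow, ← map_pow, ← map_pow, ← map_mul, ← map_mul, hrel]
  have hx0 : QE2.ii X ≠ 0 := by
    rw [Ne, map_eq_zero_iff QE2.ii QE2.ii_inj]
    exact PowerSeries.X_ne_zero
  have hd0 : QE2.ii Db ≠ 0 := by
    intro h0
    apply hd
    rw [h0]
    exact QE2.mem_cl.2 isAlgebraic_zero
  have hc0 : QE2.ii c ≠ 0 := by
    rw [Ne, map_eq_zero_iff QE2.ii QE2.ii_inj]
    exact hc
  constructor
  · apply QE2.algOver_of_mem
    apply QE2.of_pow_mem (n := 24) (by norm_num)
    have h1 : QE2.ii c ^ 24 = QE2.ii X * QE2.ii w ^ 3 * (QE2.ii Db ^ e)⁻¹ := by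
      field_simp
      linear_combination hrel'
    rw [h1]
    have hX : QE2.ii X ∈ QE2.cl (ZMod 2) {QE2.ii X, QE2.ii Db} := QE2.self_mem (by simp)
    have hD : QE2.ii Db ∈ QE2.cl (ZMod 2) {QE2.ii X, QE2.ii Db} := QE2.self_mem (by simp)
    have hW : QE2.ii w ∈ QE2.cl (ZMod 2) {QE2.ii X, QE2.ii Db} := QE2.cl_mono (by simp) hw'
    exact QE2.mul_mem' (QE2.mul_mem' hX (QE2.pow_mem' hW 3)) (QE2.inv_mem' (QE2.pow_mem' hD e))
  · intro hcX
    have h1 := QE2.mem_of_algX hcX
    set om : QE2.LL := QE2.ii c ^ 24 * (QE2.ii X)⁻¹ with hom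
    have hom0 : om ≠ 0 := mul_ne_zero (pow_ne_zero _ hc0) (inv_ne_zero hx0)
    have h2 : om ∈ QE2.cl (ZMod 2) {QE2.ii X} :=
      QE2.mul_mem' (QE2.pow_mem' h1 24) (QE2.inv_mem' (QE2.self_mem (Set.mem_singleton _)))
    have h3 : om = QE2.ii w ^ 3 * (QE2.ii Db ^ e)⁻¹ := by
      rw [hom]
      field_simp
      linear_combination hrel'
    have h4 : om ∈ QE2.cl (ZMod 2) {QE2.ii Db} := by
      rw [h3]
      exact QE2.mul_mem' (QE2.pow_mem' hw' 3) (QE2.inv_mem' (QE2.pow_mem' (QE2.self_mem (Set.mem_singleton _)) e))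
    obtain ⟨n, hn, hn1⟩ := QE2.root_of_unity hom0 (QE2.exch hd h2 h4)
    have h5 : c ^ (24 * n) = (X : S) ^ n := by
      apply QE2.ii_inj
      rw [map_pow, map_pow]
      rw [hom, mul_pow, inv_pow, ← pow_mul, mul_inv_eq_one₀ (pow_ne_zero _ hx0)] at hn1
      exact hn1
    have h6 := congrArg PowerSeries.order h5
    rw [PowerSeries.order_pow, PowerSeries.order_X_pow] at h6
    have h7 : c.order ≠ ⊤ := by
      rw [Ne, PowerSeries.order_eq_top]
      exact hc
    obtain ⟨m, hm⟩ := ENat.ne_top_iff_exists.1 h7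
    rw [← hm] at h6
    have h8 : 24 * n * m = n := by
      have : ((24 * n * m : ℕ) : ℕ∞) = (n : ℕ∞) := by
        rw [← h6]
        simp
      exact_mod_cast this
    have h9 : n * (24 * m) = n * 1 := by rw [mul_one]; linarith
    have h10 := Nat.eq_of_mul_eq_mul_left hn h9
    omega

end Pool.Agent.TH693.QQ
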