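import Pool.Agent.TH693.QQ.Stm
import Pool.Agent.H307R2.OP.AlgMain

set_option autoImplicit false

/-!
# Task QF: every residue class modulo a power of two contains an odd value of `p`
-/

namespace Pool.Agent.TH693.QQ

open PowerSeries Pool.Agent.TH693.PP Pool.Agent.H397R2.PP

/-- finite sets of primes `≡ 5 (mod 8)` of any given size -/
theorem exists_primes5 (j : ℕ) :
    ∃ s : Finset ℕ, s.card = j ∧ ∀ q ∈ s, q.Prime ∧ q % 8 = 5 := by
  induction j with
  | zero => exact ⟨∅, rfl, by simp⟩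
  | succ j ih =>
    obtain ⟨s, hs, hq⟩ := ih
    have hu : IsUnit ((5 : ℕ) : ZMod 8) := (ZMod.isUnit_iff_coprime 5 8).2 (by norm_num)
    obtain ⟨p, hp, hpp, hpe⟩ := Nat.forall_exists_prime_gt_and_eq_mod hu (s.sup id)
    have hns : p ∉ s := fun h => by
      have := Finset.le_sup (f := id) h
      simp only [id] at this
      omega
    refine ⟨insert p s, by rw [Finset.card_insert_of_notMem hns, hs], ?_⟩
    intro q hq'
    rcases Finset.mem_insert.1 hq' with rfl | h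
    · refine ⟨hpp, ?_⟩
      have := (ZMod.natCast_eq_natCast_iff' q 5 8).1 hpe
      simpa using this
    · exact hq q h

theorem prod_mod8 (s : Finset ℕ) (h : ∀ q ∈ s, q % 8 = 5) :
    ((∏ q ∈ s, q : ℕ) : ZMod 8) = 5 ^ s.card := by
  rw [Nat.cast_prod, Finset.prod_congr rfl (g := fun _ => (5 : ZMod 8)), Finset.prod_const]
  intro q hq
  have : ((q : ℕ) : ZMod 8) = ((5 : ℕ) : ZMod 8) :=
    (ZMod.natCast_eq_natCast_iff' q 5 8).2 (by rw [h q hq])
  simpa using this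

theorem qf : S_QF := by
  intro k r hzero
  obtain ⟨t, ht3, htk⟩ : ∃ t : ℕ, 3 ≤ t ∧ k ≤ t := ⟨max 3 k, le_max_left _ _, le_max_right _ _⟩
  obtain ⟨m, hm⟩ : ∃ m : ℕ, 3 * m + 1 = 4 ^ t := by
    have h : 4 ^ t % 3 = 1 := by rw [Nat.pow_mod]; simp
    exact ⟨4 ^ t / 3, by omega⟩
  have h64 : ∃ c, 4 ^ t = 64 * c := by
    refine ⟨4 ^ (t - 3), ?_⟩
    rw [show (64 : ℕ) = 4 ^ 3 by norm_num, ← pow_add]
    congr 1; omega
  have hm8 : m % 8 = 5 := by
    obtain ⟨c, hc⟩ := h64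
    omega
  obtain ⟨s, hscard, hs⟩ := exists_primes5 (2 ^ (t - 1) - 2)
  set Q : ℕ := ∏ q ∈ s, q with hQdef
  have hQodd : Nat.Coprime Q (2 ^ (k + 3)) := by
    apply Nat.Coprime.pow_right
    rw [hQdef]
    apply Nat.Coprime.prod_left
    intro q hq
    have h5 := (hs q hq).2
    rw [Nat.coprime_comm, Nat.coprime_two_left, Nat.odd_iff]
    omega
  have hQ8 : ((Q : ℕ) : ZMod 8) = 1 := by
    rw [hQdef, prod_mod8 s fun q hq => (hs q hq).2, hscard]
    have h4 : ∃ e, 2 ^ (t - 1) - 2 = 2 * e := by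
      refine ⟨2 ^ (t - 2) - 1, ?_⟩
      have : 2 ^ (t - 1) = 2 * 2 ^ (t - 2) := by
        rw [← pow_succ']; congr 1; omega
      omega
    obtain ⟨e, he⟩ := h4
    rw [he, pow_mul, show (5 : ZMod 8) ^ 2 = 1 by decide, one_pow]
  have hmodd : Nat.Coprime (8 * r + m) (2 ^ (k + 3)) := by
    apply Nat.Coprime.pow_right
    rw [Nat.coprime_comm, Nat.coprime_two_left, Nat.odd_iff]
    omega
  have : NeZero (2 ^ (k + 3)) := ⟨by positivity⟩
  have hQu : IsUnit ((Q : ℕ) : ZMod (2 ^ (k + 3))) := (ZMod.isUnit_iff_coprime _ _).2 hQodd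
  have hRu : IsUnit ((8 * r + m : ℕ) : ZMod (2 ^ (k + 3))) :=
    (ZMod.isUnit_iff_coprime _ _).2 hmodd
  obtain ⟨u, hu⟩ := hQu
  have hau : IsUnit (((8 * r + m : ℕ) : ZMod (2 ^ (k + 3))) * ((u⁻¹ : (ZMod (2 ^ (k + 3)))ˣ) :
      ZMod (2 ^ (k + 3)))) := hRu.mul (Units.isUnit _)
  obtain ⟨p, hp, hpp, hpe⟩ := Nat.forall_exists_prime_gt_and_eq_mod hau (m + s.sup id)
  have hns : p ∉ s := fun h => by
    have := Finset.le_sup (f := id) h
    simp only [id] at this
    omega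
  -- the product
  have hN : ((Q * p : ℕ) : ZMod (2 ^ (k + 3))) = ((8 * r + m : ℕ) : ZMod (2 ^ (k + 3))) := by
    rw [Nat.cast_mul, hpe, ← hu, mul_left_comm, Units.mul_inv, mul_one]
  have hNm : (Q * p) ≡ (8 * r + m) [MOD 2 ^ (k + 3)] :=
    (ZMod.natCast_eq_natCast_iff _ _ _).1 hN
  have hN8 : (Q * p) % 8 = 5 := by
    have h8 : (8 : ℕ) ∣ 2 ^ (k + 3) := ⟨2 ^ k, by rw [pow_add]; ring⟩
    have := hNm.of_dvd h8
    unfold Nat.ModEq at this
    rw [this]; omega
  have hp8 : p % 8 = 5 := by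
    have h1 : ((Q * p : ℕ) : ZMod 8) = ((5 : ℕ) : ZMod 8) :=
      (ZMod.natCast_eq_natCast_iff' _ _ _).2 (by rw [hN8])
    rw [Nat.cast_mul, hQ8, one_mul] at h1
    have := (ZMod.natCast_eq_natCast_iff' _ _ _).1 h1
    simpa using this
  have hQpos : 1 ≤ Q := by
    rw [hQdef]
    exact Finset.prod_pos fun q hq => (hs q hq).1.pos
  have hge : m ≤ Q * p := by
    calc m ≤ 1 * p := by omega
      _ ≤ Q * p := Nat.mul_le_mul_right _ hQpos
  obtain ⟨n, hn⟩ : ∃ n, Q * p = 8 * n + m := ⟨(Q * p - m) / 8, by omega⟩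
  have hnr : n ≡ r [MOD 2 ^ k] := by
    rw [hn] at hNm
    have h1 : 8 * n ≡ 8 * r [MOD 2 ^ (k + 3)] := Nat.ModEq.add_right_cancel' m hNm
    rw [show 2 ^ (k + 3) = 8 * 2 ^ k by rw [pow_add]; ring] at h1
    exact Nat.ModEq.mul_left_cancel' (by norm_num) h1
  have hcard : (insert p s).card = 2 ^ (t - 1) - 1 := by
    rw [Finset.card_insert_of_notMem hns, hscard]
    have : 2 ^ 2 ≤ 2 ^ (t - 1) := Nat.pow_le_pow_right (by norm_num) (by omega)
    omega
  have hall : ∀ q ∈ insert p s, q.Prime ∧ q % 8 = 5 := by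
    intro q hq
    rcases Finset.mem_insert.1 hq with rfl | h
    · exact ⟨hpp, hp8⟩
    · exact hs q h
  have hoc := Pool.Agent.H307R2.OP.oc_main t m ht3 hm (insert p s)
    (fun q hq => ⟨(hall q hq).1, Or.inr (hall q hq).2⟩) hcard
    (Or.inl (by
      rw [Finset.card_eq_zero, Finset.filter_eq_empty_iff]
      intro q hq h3
      have := (hall q hq).2
      omega))
  rw [Finset.prod_insert hns, mul_comm p, ← hQdef, hn, ← partition_identity t m n hm] at hoc
  have hex : ∃ j ∈ Finset.Icc (-(n : ℤ)) n, (if 4 ^ t * pentagonal j ≤ n then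
      (Fintype.card (Nat.Partition (n - 4 ^ t * pentagonal j)) : ZMod 2) else 0) ≠ 0 := by
    apply Finset.exists_ne_zero_of_sum_ne_zero
    rw [hoc]; exact one_ne_zero
  obtain ⟨j, -, hj⟩ := hex
  split_ifs at hj with hle
  · have hmod : (n - 4 ^ t * pentagonal j) % 2 ^ k = r % 2 ^ k := by
      have h2 : (2 ^ k : ℕ) ∣ 4 ^ t * pentagonal j := by
        apply Dvd.dvd.mul_right
        rw [show (4 : ℕ) = 2 ^ 2 by norm_num, ← pow_mul]
        exact pow_dvd_pow 2 (by omega)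
      have h3 : n - 4 ^ t * pentagonal j ≡ n [MOD 2 ^ k] := by
        have := (Nat.modEq_iff_dvd' (Nat.sub_le n (4 ^ t * pentagonal j)) (n := 2 ^ k)).2
          (by rw [Nat.sub_sub_self hle]; exact h2)
        exact this
      exact h3.trans hnr
    have hc : coeff (n - 4 ^ t * pentagonal j) (proj (2 ^ k) r P) ≠ 0 := by
      rw [proj, coeff_mk, if_pos hmod, P, coeff_mk]
      exact hj
    rw [hzero] at hc
    exact hc (by simp)
  · exact hj rfl

end Pool.Agent.TH693.QQ
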