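import Pool.Agent.TH693.QQ.Asm
import Pool.Agent.TH693.QQ.QB
import Pool.Agent.TH693.QQ.QC
import Pool.Agent.TH693.QQ.QD
import Pool.Agent.TH693.QQ.QE1
import Pool.Agent.TH693.QQ.QE2
import Pool.Agent.TH693.QQ.QF

set_option autoImplicit false

namespace Pool.Agent.TH693.QQ

open PowerSeries Pool.Agent.TH693.PP

theorem main1 (qd1 : S_QD1) : S_main := by
  intro k r
  obtain ⟨m, s, -, hrel⟩ := qe1 k r
  obtain ⟨h1, h2⟩ := qe2 QC.qc _ _ _ (qf k r) (qd qd1 (k + 3) s (8 * r + s)) hrel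
  have h := bm_section P k r (bm_of_trans qb h1 h2)
  have e : (PowerSeries.mk fun n => coeff (2 ^ k * n + r) P) =
      (PowerSeries.mk fun n => (Fintype.card (Nat.Partition (2 ^ k * n + r)) : ZMod 2)) := by
    ext n
    rw [coeff_mk, coeff_mk]
    unfold P
    rw [coeff_mk]
  rwa [e] at h

end Pool.Agent.TH693.QQ
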