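import Pool.Agent.TH693.QQ.Stm2
import Pool.Agent.TH693.QQ.QE1

/-! Task QG1: the relation between the sections of `P ^ t`, `t` odd, and the projections of
`Db ^ s` (written by helper753; the case `t = 1` is QE1 of helper113). -/

set_option autoImplicit false

namespace Pool.Agent.TH693.QQ

open PowerSeries Pool.Agent.TH693.PP Pool.Agent.H397R2.PP

namespace QG1

theorem proj_form {k r s t M : ℕ} (hkM : k ≤ M) (U : S)
    (h : Db ^ s = X ^ s * (P ^ t) ^ 8 * U ^ 2 ^ (M + 3)) :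
    proj (2 ^ (k + 3)) (8 * r + s) (Db ^ s) =
      X ^ s * (proj (2 ^ k) r (P ^ t)) ^ 8 * U ^ 2 ^ (M + 3) := by
  have h8 : ∀ f : S, expand 8 (by norm_num) f = f ^ 8 := fun f => (pow_eq_expand 3 f).symm
  have e1 : Db ^ s = X ^ s * expand 8 (by norm_num) (P ^ t) *
      expand (2 ^ (M + 3)) (by positivity) U := by
    rw [h8, ← pow_eq_expand, h]
  rw [e1, QE1.proj_mul_expand _ _ _ _ (pow_dvd_pow 2 (by omega)), QE1.proj_X_pow, h8,
    ← pow_eq_expand]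

/-- powers of two are large -/
theorem le_two_pow (n : ℕ) : n ≤ 2 ^ n := Nat.lt_two_pow_self.le

theorem two_pow_mod_three (n : ℕ) : 2 ^ (2 * n) % 3 = 1 ∧ 2 ^ (2 * n + 1) % 3 = 2 := by
  have h : 2 ^ (2 * n) % 3 = 1 := by
    rw [pow_mul, Nat.pow_mod]
    norm_num
  refine ⟨h, ?_⟩
  rw [pow_succ, Nat.mul_mod, h]

theorem two_pow_even {M : ℕ} (hM : 1 ≤ M) : 2 ^ M % 2 = 0 := by
  obtain ⟨m, rfl⟩ : ∃ m, M = m + 1 := ⟨M - 1, by omega⟩
  rw [pow_succ]
  omega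

end QG1

theorem qg1 : S_QG1 := by
  intro t k r ht
  have hDb : Db = X * E ^ 24 := rfl
  have hPE := P_mul_E
  have ht2 : t % 2 = 1 := Nat.odd_iff.1 ht
  by_cases h3 : t % 3 = 0
  · -- `t = 3 t'`
    obtain ⟨t', rfl⟩ : ∃ t', t = 3 * t' := ⟨t / 3, by omega⟩
    obtain ⟨M, hM⟩ : ∃ M : ℕ, M = k + t' + 3 := ⟨_, rfl⟩
    have hM1 := QG1.le_two_pow M
    have hM2 := QG1.two_pow_even (M := M) (by omega)
    obtain ⟨s, hs⟩ : ∃ s, s + t' = 2 ^ M := ⟨2 ^ M - t', by omega⟩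
    refine ⟨3 * 2 ^ M, s, Nat.odd_iff.2 (by omega), by omega, ?_⟩
    have hU : Db ^ s = X ^ s * (P ^ (3 * t')) ^ 8 * T ^ 2 ^ (M + 3) := by
      have e2 : 2 ^ (M + 3) = 8 * (s + t') := by
        rw [hs, pow_add]
        ring
      rw [e2, hDb]
      unfold T
      calc (X * E ^ 24) ^ s = X ^ s * E ^ (24 * s) * (P * E) ^ (24 * t') := by rw [hPE]; ring
        _ = _ := by ring
    rw [QG1.proj_form (by omega) T hU, hDb]
    have e4 : 2 ^ (M + 3) = 8 * 2 ^ M := by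
      rw [pow_add]
      ring
    rw [e4, ← hs]
    unfold T
    ring
  · -- `3` does not divide `t`
    obtain ⟨M, hkM, htM, hmod⟩ : ∃ M : ℕ, k ≤ M ∧ t + 9 ≤ M ∧ 2 ^ M % 3 = t % 3 := by
      have h := QG1.two_pow_mod_three (k + t + 9)
      rcases (by omega : t % 3 = 1 ∨ t % 3 = 2) with h1 | h1
      · exact ⟨2 * (k + t + 9), by omega, by omega, by rw [h.1, h1]⟩
      · exact ⟨2 * (k + t + 9) + 1, by omega, by omega, by rw [h.2, h1]⟩
    have hM1 := QG1.le_two_pow M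
    have hM2 := QG1.two_pow_even (M := M) (by omega)
    obtain ⟨s, hs⟩ : ∃ s, 3 * s + t = 2 ^ M := ⟨(2 ^ M - t) / 3, by omega⟩
    refine ⟨2 ^ M, s, Nat.odd_iff.2 (by omega), by omega, ?_⟩
    have hU : Db ^ s = X ^ s * (P ^ t) ^ 8 * E ^ 2 ^ (M + 3) := by
      have e2 : 2 ^ (M + 3) = 24 * s + 8 * t := by
        rw [pow_add, ← hs]
        ring
      rw [e2, hDb]
      calc (X * E ^ 24) ^ s = X ^ s * E ^ (24 * s) * (P * E) ^ (8 * t) := by rw [hPE]; ring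
        _ = _ := by ring
    rw [QG1.proj_form hkM E hU, hDb]
    have e4 : 2 ^ (M + 3) = 8 * 2 ^ M := by
      rw [pow_add]
      ring
    rw [e4, ← hs]
    ring

end Pool.Agent.TH693.QQ
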