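import Pool.Agent.TH693.QQ.Stm2
import Pool.Agent.TH693.QQ.QE2

/-!
# Task QG2: from the relation for `P ^ t` to algebraicity and transcendence
(job of helper693, written by helper767 from helper124's file `QE2`, the case `t = 1`)
-/

set_option autoImplicit false

namespace Pool.Agent.TH693.QQ

open PowerSeries Pool.Agent.TH693.PP Pool.Agent.H397R2.PP

theorem qg2 : S_QG2 := by
  intro hDb t c w e ht hc hw hrel
  have hd : QE2.ii Db ∉ QE2.cl (ZMod 2) {QE2.ii X} := fun h => hDb (QE2.algX_of_mem h)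
  have hw' := QE2.mem_of_integral hw
  have hrel' : QE2.ii Db ^ e * QE2.ii c ^ 24 = QE2.ii X ^ t * QE2.ii w ^ 3 := by
    rw [← map_pow, ← map_pow, ← map_pow, ← map_pow, ← map_mul, ← map_mul, hrel]
  have hx0 : QE2.ii X ≠ 0 := by
    rw [Ne, map_eq_zero_iff QE2.ii QE2.ii_inj]
    exact PowerSeries.X_ne_zero
  have hd0 : QE2.ii Db ≠ 0 := by
    intro h0
    apply hd
    rw [h0]
    exact QE2.mem_cl.2 isAlgebraic_zero
  have hc0 : QE2.ii c ≠ 0 := by
    rw [Ne, map_eq_zero_iff QE2.ii QE2.ii_inj]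
    exact hc
  constructor
  · apply QE2.algOver_of_mem
    apply QE2.of_pow_mem (n := 24) (by norm_num)
    have h1 : QE2.ii c ^ 24 = QE2.ii X ^ t * QE2.ii w ^ 3 * (QE2.ii Db ^ e)⁻¹ := by
      rw [eq_mul_inv_iff_mul_eq₀ (pow_ne_zero _ hd0), ← hrel', mul_comm]
    rw [h1]
    have hX : QE2.ii X ∈ QE2.cl (ZMod 2) {QE2.ii X, QE2.ii Db} := QE2.self_mem (by simp)
    have hD : QE2.ii Db ∈ QE2.cl (ZMod 2) {QE2.ii X, QE2.ii Db} := QE2.self_mem (by simp)
    have hW : QE2.ii w ∈ QE2.cl (ZMod 2) {QE2.ii X, QE2.ii Db} := QE2.cl_mono (by simp) hw'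
    exact QE2.mul_mem' (QE2.mul_mem' (QE2.pow_mem' hX t) (QE2.pow_mem' hW 3))
      (QE2.inv_mem' (QE2.pow_mem' hD e))
  · intro hcX
    have h1 := QE2.mem_of_algX hcX
    set om : QE2.LL := QE2.ii c ^ 24 * (QE2.ii X ^ t)⁻¹ with hom
    have hom0 : om ≠ 0 := mul_ne_zero (pow_ne_zero _ hc0) (inv_ne_zero (pow_ne_zero _ hx0))
    have h2 : om ∈ QE2.cl (ZMod 2) {QE2.ii X} :=
      QE2.mul_mem' (QE2.pow_mem' h1 24)
        (QE2.inv_mem' (QE2.pow_mem' (QE2.self_mem (Set.mem_singleton _)) t))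
    have h3 : om = QE2.ii w ^ 3 * (QE2.ii Db ^ e)⁻¹ := by
      rw [hom, eq_mul_inv_iff_mul_eq₀ (pow_ne_zero _ hd0), mul_right_comm, mul_comm _ (QE2.ii Db ^ e),
        hrel', mul_right_comm, mul_inv_cancel₀ (pow_ne_zero _ hx0), one_mul]
    have h4 : om ∈ QE2.cl (ZMod 2) {QE2.ii Db} := by
      rw [h3]
      exact QE2.mul_mem' (QE2.pow_mem' hw' 3)
        (QE2.inv_mem' (QE2.pow_mem' (QE2.self_mem (Set.mem_singleton _)) e))
    obtain ⟨n, hn, hn1⟩ := QE2.root_of_unity hom0 (QE2.exch hd h2 h4)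
    have h5 : c ^ (24 * n) = (X : S) ^ (t * n) := by
      apply QE2.ii_inj
      rw [map_pow, map_pow]
      rw [hom, mul_pow, inv_pow, ← pow_mul, ← pow_mul,
        mul_inv_eq_one₀ (pow_ne_zero _ hx0)] at hn1
      exact hn1
    have h6 := congrArg PowerSeries.order h5
    rw [PowerSeries.order_pow, PowerSeries.order_X_pow] at h6
    have h7 : c.order ≠ ⊤ := by
      rw [Ne, PowerSeries.order_eq_top]
      exact hc
    obtain ⟨m, hm⟩ := ENat.ne_top_iff_exists.1 h7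
    rw [← hm] at h6
    have h8 : 24 * n * m = t * n := by
      have : ((24 * n * m : ℕ) : ℕ∞) = ((t * n : ℕ) : ℕ∞) := by
        rw [← h6]
        simp
      exact_mod_cast this
    have h9 : n * (24 * m) = n * t := by linarith
    have h10 := Nat.eq_of_mul_eq_mul_left hn h9
    exact ht ⟨m, h10.symm⟩

end Pool.Agent.TH693.QQ
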