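import Pool.Agent.TH693.QQ.Stm2
import Pool.Agent.H307R2.OP.AlgMain

set_option autoImplicit false

/-!
# Every admissible class modulo `2 ^ K` contains an exponent of `Db ^ s`, `s` odd, `s ≥ 3`
-/


namespace Pool.Agent.TH693.QQ.QN

/-- distinct large primes in prescribed classes -/
theorem pick (M : ℕ) (hM : M ≠ 0) (B : ℕ) (cs : List ℕ) (hcs : ∀ c ∈ cs, c.Coprime M) :
    ∃ l : List ℕ, l.Nodup ∧ (∀ q ∈ l, q.Prime ∧ B < q) ∧
      l.map (fun q => q % M) = cs.map (fun c => c % M) := by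
  induction cs with
  | nil => exact ⟨[], by simp, by simp, by simp⟩
  | cons c cs ih =>
    obtain ⟨l, h1, h2, h3⟩ := ih fun c' hc' => hcs c' (List.mem_cons_of_mem _ hc')
    obtain ⟨q, hq1, hq2, hq3⟩ := Nat.forall_exists_prime_gt_and_modEq (B + l.sum) hM
      (hcs c (by simp))
    refine ⟨q :: l, ?_, ?_, ?_⟩
    · rw [List.nodup_cons]
      refine ⟨fun hmem => ?_, h1⟩
      have := List.single_le_sum (fun x _ => Nat.zero_le x) q hmem
      omega
    · intro q' hq'
      rcases List.mem_cons.1 hq' with rfl | h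
      · exact ⟨hq2, by omega⟩
      · exact h2 q' h
    · rw [List.map_cons, List.map_cons, h3]
      congr 1

theorem prod_mod (M : ℕ) (l l' : List ℕ)
    (h : l.map (fun q => q % M) = l'.map (fun c => c % M)) : l.prod % M = l'.prod % M := by
  induction l generalizing l' with
  | nil =>
    cases l' with
    | nil => rfl
    | cons c l' => simp at h
  | cons q l ih =>
    cases l' with
    | nil => simp at h
    | cons c l' =>
      rw [List.map_cons, List.map_cons, List.cons.injEq] at h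
      rw [List.prod_cons, List.prod_cons, Nat.mul_mod, h.1, ih l' h.2, ← Nat.mul_mod]

/-- solving `u * c = a` modulo `2 ^ K` -/
theorem solve (K u a : ℕ) (hK : 1 ≤ K) (hu : u % 2 = 1) :
    ∃ c : ℕ, (u * c) % 2 ^ K = a % 2 ^ K := by
  have hc : u.Coprime (2 ^ K) := by
    apply Nat.Coprime.pow_right
    exact (Nat.odd_iff.2 hu).coprime_two_right
  have h1 : 1 < 2 ^ K := Nat.one_lt_two_pow (by omega)
  obtain ⟨v, hv1, hv⟩ := Nat.exists_mul_mod_eq_one_of_coprime hc h1
  refine ⟨v * a, ?_⟩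
  rw [← mul_assoc, Nat.mul_mod, hv, one_mul, Nat.mod_mod]

theorem mod8 (K x y : ℕ) (hK : 3 ≤ K) (h : x % 2 ^ K = y % 2 ^ K) : x % 8 = y % 8 := by
  have h8 : 8 ∣ 2 ^ K := by
    have := pow_dvd_pow 2 hK
    simpa using this
  rw [← Nat.mod_mod_of_dvd x h8, h, Nat.mod_mod_of_dvd y h8]

theorem unit8 (u c t : ℕ) (hu : u % 2 = 1) (h : (u * c) % 8 = (t * u) % 8) : c % 8 = t % 8 := by
  have key : ∀ x y z : Fin 8, (x : ℕ) % 2 = 1 → (x * y : ℕ) % 8 = (z * x : ℕ) % 8 → y = z := by
    decide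
  rw [Nat.mul_mod, Nat.mul_mod t u] at h
  have := key ⟨u % 8, Nat.mod_lt _ (by norm_num)⟩ ⟨c % 8, Nat.mod_lt _ (by norm_num)⟩
    ⟨t % 8, Nat.mod_lt _ (by norm_num)⟩ (by simp only; omega) h
  exact congrArg Fin.val this

theorem pow3 (a : ℕ) : 3 ^ a % 8 = 1 + 2 * (a % 2) := by
  induction a with
  | zero => simp
  | succ a ih =>
    rw [pow_succ, Nat.mul_mod, ih]
    rcases Nat.mod_two_eq_zero_or_one a with h | h
    · have h' : (a + 1) % 2 = 1 := by omega
      rw [h, h']
    · have h' : (a + 1) % 2 = 0 := by omega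
      rw [h, h']

theorem pow5 (a : ℕ) : 5 ^ a % 8 = 1 + 4 * (a % 2) := by
  induction a with
  | zero => simp
  | succ a ih => rw [pow_succ]; omega

theorem pow35 (a m : ℕ) : (3 ^ a * 5 ^ m) % 8 = (1 + 2 * (a % 2) + 4 * (m % 2)) % 8 := by
  rw [Nat.mul_mod, pow3, pow5]
  rcases Nat.mod_two_eq_zero_or_one a with h | h <;>
    rcases Nat.mod_two_eq_zero_or_one m with h' | h' <;> rw [h, h']

theorem odd35 (a m : ℕ) : (3 ^ a * 5 ^ m) % 2 = 1 := by
  have := pow35 a m
  omega

/-- the list of the classes -/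
theorem classes (a m K t : ℕ) (hK : 3 ≤ K) (hN : 1 ≤ a + m) (ht : t % 8 = (3 ^ a * 5 ^ m) % 8) :
    ∃ cs : List ℕ, cs.length = a + m ∧ (∀ c ∈ cs, c % 8 = 3 ∨ c % 8 = 5) ∧
      cs.countP (fun c => c % 8 = 3) = a ∧ cs.prod % 2 ^ K = t % 2 ^ K := by
  rcases Nat.eq_zero_or_pos a with ha | ha
  · subst ha
    obtain ⟨n, rfl⟩ : ∃ n, m = n + 1 := ⟨m - 1, by omega⟩
    obtain ⟨c, hc⟩ := solve K (5 ^ n) t (by omega) (by simpa using odd35 0 n)
    have h1 := mod8 K _ _ hK hc
    have h2 : c % 8 = 5 % 8 := by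
      refine unit8 (5 ^ n) c 5 (by simpa using odd35 0 n) ?_
      rw [h1, ht, pow_zero, one_mul, pow_succ, mul_comm]
    refine ⟨c :: List.replicate n 5, by simp, ?_, ?_, ?_⟩
    · intro x hx
      rcases List.mem_cons.1 hx with rfl | h
      · right; exact h2
      · rw [List.eq_of_mem_replicate h]; right; rfl
    · rw [List.countP_cons, List.countP_replicate]
      simp [h2]
    · rw [List.prod_cons, List.prod_replicate, mul_comm, hc]
  · obtain ⟨n, rfl⟩ : ∃ n, a = n + 1 := ⟨a - 1, by omega⟩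
    obtain ⟨c, hc⟩ := solve K (3 ^ n * 5 ^ m) t (by omega) (odd35 n m)
    have h1 := mod8 K _ _ hK hc
    have h2 : c % 8 = 3 % 8 := by
      refine unit8 (3 ^ n * 5 ^ m) c 3 (odd35 n m) ?_
      rw [h1, ht, pow_succ]
      congr 1
      ring
    refine ⟨c :: (List.replicate n 3 ++ List.replicate m 5), by simp; omega, ?_, ?_, ?_⟩
    · intro x hx
      rcases List.mem_cons.1 hx with rfl | h
      · left; exact h2
      · rcases List.mem_append.1 h with h | h
        · rw [List.eq_of_mem_replicate h]; left; rfl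
        · rw [List.eq_of_mem_replicate h]; right; rfl
    · rw [List.countP_cons, List.countP_append, List.countP_replicate, List.countP_replicate]
      simp [h2]
    · rw [List.prod_cons, List.prod_append, List.prod_replicate, List.prod_replicate, mul_comm, hc]

/-- the list of the primes -/
theorem primes (a m K t : ℕ) (hK : 3 ≤ K) (hN : 1 ≤ a + m) (ht : t % 8 = (3 ^ a * 5 ^ m) % 8) :
    ∃ l : List ℕ, l.Nodup ∧ l.length = a + m ∧ (∀ q ∈ l, q.Prime ∧ (q % 8 = 3 ∨ q % 8 = 5)) ∧
      l.countP (fun c => c % 8 = 3) = a ∧ l.prod % 2 ^ K = t % 2 ^ K := by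
  obtain ⟨cs, h1, h2, h3, h4⟩ := classes a m K t hK hN ht
  obtain ⟨l, g1, g2, g3⟩ := pick (2 ^ K) (by positivity) 0 cs (by
    intro c hc
    apply Nat.Coprime.pow_right
    have h5 : c % 2 = 1 := by rcases h2 c hc with h | h <;> omega
    exact (Nat.odd_iff.2 h5).coprime_two_right)
  have g4 : l.map (fun q => q % 8) = cs.map (fun q => q % 8) := by
    have h8 : 8 ∣ 2 ^ K := by
      have := pow_dvd_pow 2 hK
      simpa using this
    have := congrArg (List.map (fun q => q % 8)) g3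
    rw [List.map_map, List.map_map] at this
    have e : ((fun q : ℕ => q % 8) ∘ fun q => q % 2 ^ K) = fun q => q % 8 := by
      funext q
      simp only [Function.comp]
      exact Nat.mod_mod_of_dvd q h8
    rw [e] at this
    exact this
  refine ⟨l, g1, ?_, ?_, ?_, ?_⟩
  · have := congrArg List.length g3
    simp only [List.length_map] at this
    rw [this, h1]
  · intro q hq
    refine ⟨(g2 q hq).1, ?_⟩
    have hm : q % 8 ∈ l.map (fun q => q % 8) := List.mem_map.2 ⟨q, hq, rfl⟩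
    rw [g4] at hm
    obtain ⟨c, hc, hc'⟩ := List.mem_map.1 hm
    rw [← hc']
    exact h2 c hc
  · have e1 : ∀ L : List ℕ, L.countP (fun c => c % 8 = 3) =
        (L.map (fun q => q % 8)).countP (fun c => c = 3) := by
      intro L
      rw [List.countP_map]
      rfl
    rw [e1, g4, ← e1, h3]
  · rw [prod_mod _ _ _ g3, h4]

open PowerSeries Pool.Agent.H397R2.PP Pool.Agent.H307R2.OP

theorem sp_digit (n d : ℕ) (hd : d < 2) : sp (2 * n + d) = 4 * sp n + d := P3.sp_digit n d hd

/-- splitting the binary digits of `j` -/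
theorem split_digits (j : ℕ) : ∃ a m : ℕ, j = sp a + 2 * sp m ∧ cont j = a + m := by
  induction j using Nat.strong_induction_on with
  | _ j ih =>
    rcases Nat.eq_zero_or_pos j with h0 | h0
    · subst h0
      exact ⟨0, 0, by rw [OC.sp_zero], NIL.cont_zero⟩
    · obtain ⟨n, d, hd, rfl⟩ := NIL.split4 j
      obtain ⟨a, m, h1, h2⟩ := ih n (by omega)
      refine ⟨2 * a + d % 2, 2 * m + d / 2, ?_, ?_⟩
      · rw [sp_digit _ _ (by omega), sp_digit _ _ (by omega), h1]
        omega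
      · rw [NIL.cont_digit _ _ hd, h2]
        have : wdig d = d % 2 + d / 2 := by
          interval_cases d <;> simp [wdig]
        omega

theorem sp_mod (a : ℕ) : sp a % 4 = a % 2 := by
  obtain ⟨n, d, hd, rfl⟩ := P3.split2 a
  rw [sp_digit _ _ hd]
  omega

/-- the value of the product of the Hecke operators -/
theorem value (a m : ℕ) : (TO 3 ^ a) ((TO 5 ^ m) (Db ^ (2 * sp a + 4 * sp m + 1))) = Db := by
  have h1 := pair_main a m m le_rfl
  rw [if_pos rfl, Nat.add_sub_cancel] at h1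
  set w := (TO 5 ^ m) (Db ^ (2 * sp a + 4 * sp m + 1)) + Db ^ (2 * sp a + 1) with hw
  have e : (TO 5 ^ m) (Db ^ (2 * sp a + 4 * sp m + 1)) = w + Db ^ (2 * sp a + 1) := by
    rw [hw, add_assoc ((TO 5 ^ m) _), OC.add_self, add_zero]
  have h3 : (TO 3 ^ a) w = 0 := by
    have hF3 : Fil (-1) (TO 3) := (fq_main.q3 3 (by norm_num) (by norm_num)).1
    have h5 := OC.Fil_pow hF3 a _ _ h1
    have h6 : ((a : ℤ) + (a : ℤ) * (-1)).toNat = 0 := by
      have : (a : ℤ) + (a : ℤ) * (-1) = 0 := by ring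
      rw [this]; rfl
    rw [h6] at h5
    exact OC.WW_zero h5
  rw [e, map_add, h3, zero_add]
  exact p3 t3h a

end Pool.Agent.TH693.QQ.QN

namespace Pool.Agent.TH693.QQ

open PowerSeries Pool.Agent.TH693.PP Pool.Agent.H397R2.PP Pool.Agent.H307R2.OP

/-- task QN -/
theorem qn : S_QN := by
  intro s K a hs h3 hK ha
  obtain ⟨j, hj⟩ : ∃ j, s = 2 * j + 1 := by
    obtain ⟨j, hj⟩ := hs
    exact ⟨j, hj⟩
  obtain ⟨b, m, hj1, hj2⟩ := QN.split_digits j
  have hN : 1 ≤ b + m := by
    rw [← hj2]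
    rcases Nat.eq_zero_or_pos (cont j) with h | h
    · have := NIL.cont_eq_zero h
      omega
    · exact h
  have hs1 : s = 2 * sp b + 4 * sp m + 1 := by omega
  have hs8 : a % 8 = (3 ^ b * 5 ^ m) % 8 := by
    rw [ha, QN.pow35, hs1]
    have h1 := QN.sp_mod b
    have h2 := QN.sp_mod m
    omega
  obtain ⟨l, l1, l2, l3, l4, l5⟩ := QN.primes b m K a hK hN hs8
  have hfW : Db ^ s ∈ NIL.WW (b + m + 1) := by
    rw [hj]
    apply NIL.WW_mem
    omega
  have hstep : (l.map TO).prod (Db ^ s) = (l.map fun q => TO (OC.rp q)).prod (Db ^ s) := by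
    have h1 := OC.fil_diff fq_main l l3 _ _ hfW
    rw [l2] at h1
    have h2 : (((b + m + 1 : ℕ) : ℤ) + (-((b + m : ℕ) : ℤ) - 1)).toNat = 0 := by omega
    rw [h2] at h1
    have h3 := OC.WW_zero h1
    rw [LinearMap.add_apply] at h3
    have h5 := OC.add_self ((l.map fun q => TO (OC.rp q)).prod (Db ^ s))
    calc (l.map TO).prod (Db ^ s) = ((l.map TO).prod (Db ^ s) +
          (l.map fun q => TO (OC.rp q)).prod (Db ^ s)) +
            (l.map fun q => TO (OC.rp q)).prod (Db ^ s) := by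
          rw [add_assoc, h5, add_zero]
      _ = _ := by rw [h3, zero_add]
  have hval : (l.map TO).prod (Db ^ s) = Db := by
    rw [hstep, OC.prod_rp heckeFacts, l4, l2, Nat.add_sub_cancel_left, Module.End.mul_apply, hs1]
    exact QN.value b m
  have hco : coeff l.prod (Db ^ s) = 1 := by
    have h1 := OC.coeff_list l l1 (fun q hq => (l3 q hq).1) 1 (by
      intro q hq hdvd
      have h1 := (l3 q hq).1
      have h2 : q = 1 := Nat.dvd_one.1 hdvd
      rw [h2] at h1
      exact Nat.not_prime_one h1) (Db ^ s)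
    rw [one_mul, hval] at h1
    rw [← h1]
    exact OC.coeff_one_Db'
  intro h0
  have h6 := congrArg (coeff l.prod) h0
  rw [proj, coeff_mk, if_pos l5, hco, map_zero] at h6
  exact one_ne_zero h6

end Pool.Agent.TH693.QQ
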