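import Pool.Agent.TH693.QQ.Asm2
import Pool.Agent.TH693.QQ.QB
import Pool.Agent.TH693.QQ.QC
import Pool.Agent.TH693.QQ.QD
import Pool.Agent.TH693.QQ.QG1
import Pool.Agent.TH693.QQ.QG2
import Pool.Agent.TH693.QQ.QN

set_option autoImplicit false

/-!
# Sections modulo powers of two of odd powers of the partition generating function
-/

namespace Pool.Agent.TH693.QQ

open PowerSeries Pool.Agent.TH693.PP Pool.Agent.H397R2.PP

theorem proj_ne {t k r : ℕ} (ht : Odd t) : proj (2 ^ k) r (P ^ t) ≠ 0 := by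
  obtain ⟨e, s, hs, hs3, hrel⟩ := qg1 t k r ht
  intro h0
  rw [h0, zero_pow (by norm_num), mul_zero] at hrel
  rcases mul_eq_zero.1 hrel.symm with h1 | h1
  · exact X_ne (eq_zero_of_pow_eq_zero h1)
  · exact qn s (k + 3) (8 * r + s) hs hs3 (by omega) (by omega) (eq_zero_of_pow_eq_zero h1)

theorem main2 (qd1 : S_QD1) {t : ℕ} (ht : Odd t) (k r : ℕ) :
    Bm (PowerSeries.mk fun n => coeff (2 ^ k * n + r) (P ^ t)) := by
  obtain ⟨e, s, hs, hs3, hrel⟩ := qg1 t k r ht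
  have h24 : ¬ 24 ∣ t := by
    rintro ⟨c, rfl⟩
    obtain ⟨d, hd⟩ := ht
    omega
  obtain ⟨h1, h2⟩ := qg2 QC.qc t _ _ _ h24 (proj_ne ht) (qd qd1 (k + 3) s (8 * r + s)) hrel
  exact bm_section_gen (P ^ t) (2 ^ k) r (by positivity) (bm_of_trans qb h1 h2)

end Pool.Agent.TH693.QQ
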