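import Pool.Agent.TH693.QQ.Stm2

set_option autoImplicit false

/-!
# Sections with respect to all moduli: statements of the tasks

`kk` is an algebraic closure of `F_2`, `Sk = kk[[X]]`, `Lk` its fraction field.
-/

namespace Pool.Agent.TH693.QQ

open PowerSeries Pool.Agent.TH693.PP Pool.Agent.H397R2.PP

abbrev kk : Type := AlgebraicClosure (ZMod 2)

abbrev Sk : Type := kk⟦X⟧

abbrev Lk : Type := FractionRing Sk

/-- the inclusion `F_2[[X]] → kk[[X]]` -/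
noncomputable def ik : S →+* Sk := PowerSeries.map (algebraMap (ZMod 2) kk)

/-- `F_2[Db]` in `Lk` -/
noncomputable def Ak : Subalgebra (ZMod 2) Lk := Algebra.adjoin (ZMod 2) {algebraMap Sk Lk (ik Db)}

/-- algebraic over `F_2(Db)` -/
def AL (f : Lk) : Prop := IsAlgebraic Ak f

/-- `Σ_{z odd} u ^ z X ^ (z ^ 2)`, `z` in `ℤ` -/
noncomputable def gU (u : kk) : Sk := PowerSeries.mk fun n =>
  ∑ z ∈ (Finset.Icc (-(n : ℤ)) (n : ℤ)).filter (fun z : ℤ => z ^ 2 = (n : ℤ) ∧ z % 2 = 1), u ^ z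

/-- `Σ_{z even} u ^ z X ^ (z ^ 2)`, `z` in `ℤ` -/
noncomputable def hU (u : kk) : Sk := PowerSeries.mk fun n =>
  ∑ z ∈ (Finset.Icc (-(n : ℤ)) (n : ℤ)).filter (fun z : ℤ => z ^ 2 = (n : ℤ) ∧ z % 2 = 0), u ^ z

/-- task T1: duplication formulas -/
def S_T1 : Prop := ∀ u : kk, u ≠ 0 → hU (u ^ 2) = (gU u + hU u) ^ 4 ∧
  ik Db * gU (u ^ 2) = gU u ^ 2 * hU u ^ 2 ∧ constantCoeff (hU u) = 1

/-- task T2: algebraicity at roots of unity of odd order -/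
def S_T2 : Prop := S_T1 → ∀ M : ℕ, Odd M → ∀ u : kk, u ^ M = 1 → AL (algebraMap Sk Lk (gU u))

/-- task T3: `Db(ζ X)` is algebraic over `F_2(Db)` -/
def S_T3 : Prop := (∀ M : ℕ, Odd M → ∀ u : kk, u ^ M = 1 → AL (algebraMap Sk Lk (gU u))) →
  ∀ M : ℕ, Odd M → ∀ u : kk, u ^ M = 1 → AL (algebraMap Sk Lk (PowerSeries.rescale u (ik Db)))

/-- task T4: sections of `P ^ t` -/
def S_T4 : Prop :=
  (∀ M : ℕ, Odd M → ∀ u : kk, u ^ M = 1 → AL (algebraMap Sk Lk (PowerSeries.rescale u (ik Db)))) →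
  S_QG1 → (∀ k s a : ℕ, IsIntegral AD (proj (2 ^ k) a (Db ^ s))) →
  ∀ t M r : ℕ, Odd t → 0 < M →
    AL (algebraMap Sk Lk (ik (proj M r (P ^ t))) ^ 24 / algebraMap Sk Lk X ^ t)

/-- task T5: algebraicity and transcendence -/
def S_T5 : Prop := ¬ AlgX Db → ∀ (t : ℕ) (c : S), ¬ 24 ∣ t → c ≠ 0 →
  AL (algebraMap Sk Lk (ik c) ^ 24 / algebraMap Sk Lk X ^ t) → AlgOver Db c ∧ ¬ AlgX c

end Pool.Agent.TH693.QQ
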