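import Pool.Agent.TH693.QQ.Main2
import Pool.Agent.TH693.QQ.Stm3

set_option autoImplicit false

/-!
# Sections modulo all moduli of odd powers of the partition generating function
-/

namespace Pool.Agent.TH693.QQ

open PowerSeries Pool.Agent.TH693.PP Pool.Agent.H397R2.PP

theorem main3 (qd1 : S_QD1) (t1 : S_T1) (t2 : S_T2) (t3 : S_T3) (t4 : S_T4) (t5 : S_T5)
    {t : ℕ} (ht : Odd t) (M r : ℕ) (hM : M ≠ 0) (h0 : proj M r (P ^ t) ≠ 0) :
    Bm (PowerSeries.mk fun n => coeff (M * n + r) (P ^ t)) := by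
  have h24 : ¬ 24 ∣ t := by
    rintro ⟨c, rfl⟩
    obtain ⟨d, hd⟩ := ht
    omega
  have hAL := t4 (t3 (t2 t1)) qg1 (qd qd1) t M r ht (Nat.pos_of_ne_zero hM)
  obtain ⟨h1, h2⟩ := t5 QC.qc t _ h24 h0 hAL
  exact bm_section_gen (P ^ t) M r hM (bm_of_trans qb h1 h2)

/-- the final statement for the section of `P ^ t` -/
theorem final (qd1 : S_QD1) (t1 : S_T1) (t2 : S_T2) (t3 : S_T3) (t4 : S_T4) (t5 : S_T5)
    {t : ℕ} (ht : Odd t) (M r : ℕ) (hM : M ≠ 0)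
    (h : (∃ k, M = 2 ^ k) ∨ ∃ n, coeff (M * n + r) (P ^ t) ≠ 0) :
    ∃ C : ℕ, ∀ (L : ℕ) (c : Fin (L + 1) → ZMod 2), c ≠ 0 →
    ∀ (κ : ZMod 2) (A : ℕ), ∃ n, A ≤ n ∧ n ≤ C * (A + L + 1) ∧
      ∑ i : Fin (L + 1), c i * coeff (M * (n + i) + r) (P ^ t) = κ := by
  have hb : Bm (PowerSeries.mk fun n => coeff (M * n + r) (P ^ t)) := by
    rcases h with ⟨k, rfl⟩ | ⟨n, hn⟩
    · exact main2 qd1 ht k r
    · refine main3 qd1 t1 t2 t3 t4 t5 ht M r hM ?_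
      intro h0
      apply hn
      have := congrArg (coeff (M * n + r)) h0
      unfold proj at this
      rwa [coeff_mk, if_pos (by rw [Nat.mul_add_mod]), map_zero] at this
  obtain ⟨C, hC⟩ := takes' hb
  refine ⟨C, fun L c hc κ A => ?_⟩
  obtain ⟨n, h1, h2, h3⟩ := hC L c hc κ A
  refine ⟨n, h1, h2, ?_⟩
  rw [← h3]
  refine Finset.sum_congr rfl fun i _ => ?_
  rw [coeff_mk]

end Pool.Agent.TH693.QQ
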