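import Pool.Agent.TH693.QQ.Stm3
import Pool.Agent.H397R2.PP.TH

set_option autoImplicit false

/-!
# Task T1: duplication formulas for the odd and even parts of the theta function
-/

namespace Pool.Agent.TH693.QQ.T1

open PowerSeries Pool.Agent.TH693.PP Pool.Agent.H397R2.PP Pool.Agent.TH693.QQ

lemma bound {z N : ℤ} (h : z ^ 2 ≤ N) : -N ≤ z ∧ z ≤ N := by
  rcases lt_trichotomy z 0 with h0 | h0 | h0
  · constructor <;> nlinarith
  · subst h0; constructor <;> nlinarith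
  · constructor <;> nlinarith

lemma sq_series (f : Sk) :
    f ^ 2 = PowerSeries.mk fun n => if 2 ∣ n then (coeff (n / 2) f) ^ 2 else 0 := by
  have h : (PowerSeries.expand 2 (by norm_num) f).map (frobenius kk 2) = f ^ 2 :=
    MvPowerSeries.map_frobenius_expand (R := kk) (σ := Unit) 2 (by norm_num) (f := f)
  rw [← h]
  ext n
  rw [PowerSeries.coeff_map, PowerSeries.coeff_expand, PowerSeries.coeff_mk]
  split_ifs with h2
  · rw [frobenius_def]
  · rw [map_zero]

lemma sum_sq {ι : Type*} (s : Finset ι) (f : ι → kk) : (∑ i ∈ s, f i) ^ 2 = ∑ i ∈ s, f i ^ 2 := by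
  have := map_sum (frobenius kk 2) f s
  rw [frobenius_def] at this
  rw [this]
  exact Finset.sum_congr rfl fun i _ => frobenius_def 2 (f i)

/-- the part of the theta series with `z ≡ r (mod 2)` -/
noncomputable def ph (r : ℤ) (u : kk) : Sk := PowerSeries.mk fun n =>
  ∑ z ∈ (Finset.Icc (-(n : ℤ)) (n : ℤ)).filter (fun z : ℤ => z ^ 2 = (n : ℤ) ∧ z % 2 = r), u ^ z

lemma coeff_ph (r : ℤ) (u : kk) (N n : ℕ) (h : n ≤ N) : coeff n (ph r u) =
    ∑ z ∈ (Finset.Icc (-(N : ℤ)) (N : ℤ)).filter (fun z : ℤ => z ^ 2 = (n : ℤ) ∧ z % 2 = r), u ^ z := by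
  rw [ph, coeff_mk]
  refine Finset.sum_congr ?_ fun _ _ => rfl
  ext z
  simp only [Finset.mem_filter, Finset.mem_Icc]
  constructor
  · rintro ⟨h1, h2, h3⟩
    exact ⟨⟨by omega, by omega⟩, h2, h3⟩
  · rintro ⟨h1, h2, h3⟩
    exact ⟨bound h2.le, h2, h3⟩

lemma coeff_ph_sq (r : ℤ) (u : kk) (N n : ℕ) (h : n ≤ N) : coeff n (ph r u ^ 2) =
    ∑ z ∈ (Finset.Icc (-(N : ℤ)) (N : ℤ)).filter (fun z : ℤ => 2 * z ^ 2 = (n : ℤ) ∧ z % 2 = r),
      (u ^ 2) ^ z := by
  rw [sq_series, coeff_mk]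
  split_ifs with h2
  · obtain ⟨m, rfl⟩ := h2
    rw [Nat.mul_div_cancel_left m (by norm_num), coeff_ph r u N m (by omega), sum_sq]
    refine Finset.sum_congr ?_ fun z _ => ?_
    · ext z
      simp only [Finset.mem_filter, Finset.mem_Icc]
      push_cast
      constructor
      · rintro ⟨h1, h2, h3⟩
        exact ⟨h1, by omega, h3⟩
      · rintro ⟨h1, h2, h3⟩
        exact ⟨h1, by omega, h3⟩
    · rw [← zpow_natCast, ← zpow_natCast, ← zpow_mul, ← zpow_mul, mul_comm]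
  · symm
    apply Finset.sum_eq_zero
    intro z hz
    rw [Finset.mem_filter] at hz
    obtain ⟨-, h3, -⟩ := hz
    exact absurd ⟨(z ^ 2).toNat, by have := sq_nonneg z; omega⟩ h2

/-- coefficients of a product of two series given by sums over integers -/
lemma coeff_prod {ι κ : Type*} [DecidableEq ι] [DecidableEq κ] (f g : Sk) (N : ℕ) (A : Finset ι)
    (B : Finset κ) (α : ι → ℤ) (β : κ → ℤ) (hα : ∀ a ∈ A, 0 ≤ α a) (hβ : ∀ b ∈ B, 0 ≤ β b)
    (a : ι → kk) (b : κ → kk)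
    (hf : ∀ n ≤ N, coeff n f = ∑ z ∈ A.filter (fun z => α z = (n : ℤ)), a z)
    (hg : ∀ n ≤ N, coeff n g = ∑ z ∈ B.filter (fun z => β z = (n : ℤ)), b z) :
    coeff N (f * g) = ∑ x ∈ (A ×ˢ B).filter (fun x => α x.1 + β x.2 = (N : ℤ)), a x.1 * b x.2 := by
  rw [coeff_mul]
  have h1 : ∀ p ∈ Finset.HasAntidiagonal.antidiagonal N, coeff p.1 f * coeff p.2 g =
      ∑ x ∈ A ×ˢ B, if α x.1 = (p.1 : ℤ) ∧ β x.2 = (p.2 : ℤ) then a x.1 * b x.2 else 0 := by
    intro p hp
    rw [Finset.HasAntidiagonal.mem_antidiagonal] at hp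
    rw [hf p.1 (by omega), hg p.2 (by omega), Finset.sum_mul_sum, ← Finset.sum_product',
      ← Finset.filter_product, Finset.sum_filter]
  rw [Finset.sum_congr rfl h1, Finset.sum_comm, Finset.sum_filter]
  refine Finset.sum_congr rfl fun x hx => ?_
  rw [Finset.mem_product] at hx
  have ha := hα x.1 hx.1
  have hb := hβ x.2 hx.2
  split_ifs with h
  · rw [Finset.sum_eq_single ((α x.1).toNat, (β x.2).toNat)]
    · rw [if_pos ⟨by simp; omega, by simp; omega⟩]
    · rintro ⟨p, q⟩ - hne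
      rw [if_neg]
      rintro ⟨h2, h3⟩
      apply hne
      simp only at h2 h3
      rw [h2, h3]
      simp
    · intro hn
      exfalso
      apply hn
      rw [Finset.HasAntidiagonal.mem_antidiagonal]
      simp only
      omega
  · apply Finset.sum_eq_zero
    rintro ⟨p, q⟩ hp
    rw [Finset.HasAntidiagonal.mem_antidiagonal] at hp
    rw [if_neg]
    rintro ⟨h2, h3⟩
    simp only at h2 h3 hp
    apply h
    omega

lemma gU_eq (u : kk) : gU u = ph 1 u := rfl

lemma hU_eq (u : kk) : hU u = ph 0 u := rfl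

theorem part3 (u : kk) : constantCoeff (hU u) = 1 := by
  rw [hU_eq, ← coeff_zero_eq_constantCoeff_apply, ph, coeff_mk]
  have : (Finset.Icc (-((0 : ℕ) : ℤ)) ((0 : ℕ) : ℤ)).filter
      (fun z : ℤ => z ^ 2 = ((0 : ℕ) : ℤ) ∧ z % 2 = 0) = {0} := by
    ext z
    simp only [Finset.mem_filter, Finset.mem_Icc, Finset.mem_singleton]
    constructor
    · rintro ⟨⟨h1, h2⟩, -⟩
      push_cast at h1 h2
      omega
    · rintro rfl
      simp
  rw [this]
  simp

lemma coeff_sum (u : kk) (N n : ℕ) (h : n ≤ N) : coeff n (gU u + hU u) =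
    ∑ z ∈ (Finset.Icc (-(N : ℤ)) (N : ℤ)).filter (fun z : ℤ => z ^ 2 = (n : ℤ)), u ^ z := by
  rw [map_add, gU_eq, hU_eq, coeff_ph 1 u N n h, coeff_ph 0 u N n h, ← Finset.sum_union]
  · refine Finset.sum_congr ?_ fun _ _ => rfl
    ext z
    simp only [Finset.mem_union, Finset.mem_filter, Finset.mem_Icc]
    have := Int.emod_two_eq_zero_or_one z
    tauto
  · rw [Finset.disjoint_left]
    intro z h1 h2
    rw [Finset.mem_filter] at h1 h2
    omega

theorem part1 (u : kk) : hU (u ^ 2) = (gU u + hU u) ^ 4 := by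
  rw [show (4 : ℕ) = 2 * 2 from rfl, pow_mul, sq_series ((gU u + hU u) ^ 2), sq_series (gU u + hU u)]
  ext n
  rw [coeff_mk, coeff_mk, hU_eq, coeff_ph 0 (u ^ 2) n n le_rfl]
  by_cases h4 : 4 ∣ n
  · obtain ⟨m, rfl⟩ := h4
    rw [if_pos (by omega), if_pos (by omega), show 4 * m / 2 / 2 = m by omega,
      coeff_sum u (4 * m) m (by omega), sum_sq, sum_sq]
    refine Finset.sum_bij' (fun z _ => z / 2) (fun z _ => 2 * z) ?_ ?_ ?_ ?_ ?_
    · intro z hz
      simp only [Finset.mem_filter, Finset.mem_Icc] at hz ⊢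
      obtain ⟨⟨h1, h2⟩, h3, h5⟩ := hz
      obtain ⟨y, rfl⟩ : ∃ y, z = 2 * y := ⟨z / 2, by omega⟩
      rw [Int.mul_ediv_cancel_left y (by norm_num)]
      push_cast at h1 h2 h3 ⊢
      exact ⟨⟨by omega, by omega⟩, by nlinarith⟩
    · intro z hz
      simp only [Finset.mem_filter, Finset.mem_Icc] at hz ⊢
      obtain ⟨-, h3⟩ := hz
      have h6 : (2 * z) ^ 2 = ((4 * m : ℕ) : ℤ) := by push_cast; nlinarith
      exact ⟨bound h6.le, h6, by omega⟩
    · intro z hz
      simp only [Finset.mem_filter, Finset.mem_Icc] at hz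
      omega
    · intro z _
      omega
    · intro z hz
      simp only [Finset.mem_filter, Finset.mem_Icc] at hz
      obtain ⟨y, rfl⟩ : ∃ y, z = 2 * y := ⟨z / 2, by omega⟩
      rw [Int.mul_ediv_cancel_left y (by norm_num), ← zpow_natCast, ← zpow_natCast, ← zpow_natCast,
        ← zpow_mul, ← zpow_mul, ← zpow_mul]
      congr 1
      push_cast
      ring
  · rw [Finset.sum_eq_zero]
    · split_ifs with h1 h2
      · omega
      · simp
      · simp
    · intro z hz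
      exfalso
      simp only [Finset.mem_filter, Finset.mem_Icc] at hz
      obtain ⟨-, h3, h5⟩ := hz
      obtain ⟨y, rfl⟩ : ∃ y, z = 2 * y := ⟨z / 2, by omega⟩
      apply h4
      have h7 : 4 * y ^ 2 = (n : ℤ) := by rw [← h3]; ring
      exact ⟨(y ^ 2).toNat, by have := sq_nonneg y; omega⟩

lemma coeff_Db (N n : ℕ) (h : n ≤ N) : coeff n (ik Db) =
    ∑ _d ∈ ((Finset.Icc (0 : ℤ) (N : ℤ)).filter (fun d : ℤ => d % 2 = 1)).filter
      (fun d : ℤ => d ^ 2 = (n : ℤ)), (1 : kk) := by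
  classical
  rw [ik, coeff_map, Db_eq_theta, coeff_mk]
  split_ifs with h1
  · obtain ⟨i, hi⟩ := h1
    have : ((Finset.Icc (0 : ℤ) (N : ℤ)).filter (fun d : ℤ => d % 2 = 1)).filter
      (fun d : ℤ => d ^ 2 = (n : ℤ)) = {((2 * i + 1 : ℕ) : ℤ)} := by
      ext z
      simp only [Finset.mem_filter, Finset.mem_Icc, Finset.mem_singleton]
      constructor
      · rintro ⟨⟨⟨h1, h2⟩, h3⟩, h5⟩
        rw [hi] at h5
        push_cast at h5 ⊢
        have : (z - (2 * i + 1)) * (z + (2 * i + 1)) = 0 := by linear_combination h5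
        rcases mul_eq_zero.1 this with h | h
        · linarith
        · exfalso; omega
      · rintro rfl
        have h6 : (((2 * i + 1 : ℕ) : ℤ)) ^ 2 = (n : ℤ) := by rw [hi]; push_cast; ring
        refine ⟨⟨⟨by positivity, ?_⟩, by push_cast; omega⟩, h6⟩
        exact (bound h6.le).2.trans (by exact_mod_cast h)
    rw [this, Finset.sum_singleton, map_one]
  · rw [map_zero, Finset.sum_eq_zero]
    intro z hz
    exfalso
    simp only [Finset.mem_filter, Finset.mem_Icc] at hz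
    obtain ⟨⟨⟨h2, h3⟩, h4⟩, h5⟩ := hz
    apply h1
    refine ⟨(z / 2).toNat, ?_⟩
    obtain ⟨y, rfl⟩ : ∃ y : ℤ, z = 2 * y + 1 := ⟨z / 2, by omega⟩
    have h6 : (2 * y + 1) / 2 = y := by omega
    rw [h6]
    have h7 : ((y.toNat : ℕ) : ℤ) = y := by omega
    have h8 : (n : ℤ) = ((2 * y.toNat + 1) ^ 2 : ℕ) := by push_cast; rw [h7, ← h5]
    exact_mod_cast h8

theorem part2 (u : kk) (hu : u ≠ 0) : ik Db * gU (u ^ 2) = gU u ^ 2 * hU u ^ 2 := by
  classical
  ext N
  rw [gU_eq, gU_eq, hU_eq,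
    coeff_prod (ph 1 u ^ 2) (ph 0 u ^ 2) N
      ((Finset.Icc (-(N : ℤ)) (N : ℤ)).filter (fun z : ℤ => z % 2 = 1))
      ((Finset.Icc (-(N : ℤ)) (N : ℤ)).filter (fun z : ℤ => z % 2 = 0))
      (fun z => 2 * z ^ 2) (fun z => 2 * z ^ 2) (fun z _ => by positivity) (fun z _ => by positivity)
      (fun z => (u ^ 2) ^ z) (fun z => (u ^ 2) ^ z)
      (fun n hn => by
        rw [coeff_ph_sq 1 u N n hn, Finset.filter_filter]
        refine Finset.sum_congr ?_ fun _ _ => rfl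
        ext z
        simp only [Finset.mem_filter]
        tauto)
      (fun n hn => by
        rw [coeff_ph_sq 0 u N n hn, Finset.filter_filter]
        refine Finset.sum_congr ?_ fun _ _ => rfl
        ext z
        simp only [Finset.mem_filter]
        tauto),
    coeff_prod (ik Db) (ph 1 (u ^ 2)) N
      ((Finset.Icc (0 : ℤ) (N : ℤ)).filter (fun d : ℤ => d % 2 = 1))
      ((Finset.Icc (-(N : ℤ)) (N : ℤ)).filter (fun z : ℤ => z % 2 = 1))
      (fun z => z ^ 2) (fun z => z ^ 2) (fun z _ => by positivity) (fun z _ => by positivity)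
      (fun _ => 1) (fun z => (u ^ 2) ^ z) (fun n hn => coeff_Db N n hn)
      (fun n hn => by
        rw [coeff_ph 1 (u ^ 2) N n hn, Finset.filter_filter]
        refine Finset.sum_congr ?_ fun _ _ => rfl
        ext z
        simp only [Finset.mem_filter]
        tauto)]
  symm
  refine Finset.sum_bij' (fun x _ => (|x.1 - x.2|, x.1 + x.2))
    (fun x _ => if (x.2 + x.1) / 2 % 2 = 1 then ((x.2 + x.1) / 2, (x.2 - x.1) / 2)
      else ((x.2 - x.1) / 2, (x.2 + x.1) / 2)) ?_ ?_ ?_ ?_ ?_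
  · rintro ⟨z, w⟩ hx
    simp only [Finset.mem_filter, Finset.mem_product, Finset.mem_Icc] at hx ⊢
    obtain ⟨⟨⟨⟨h1, h2⟩, h3⟩, ⟨h4, h5⟩, h6⟩, h7⟩ := hx
    have hN : (0 : ℤ) ≤ N := by positivity
    have e1 : |z - w| ^ 2 + (z + w) ^ 2 = N := by rw [sq_abs, ← h7]; ring
    have e2 := bound (z := |z - w|) (N := N) (by nlinarith [sq_nonneg (z + w)])
    have e3 := bound (z := z + w) (N := N) (by nlinarith [sq_nonneg (|z - w|)])
    refine ⟨⟨⟨⟨abs_nonneg _, e2.2⟩, ?_⟩, ⟨e3.1, e3.2⟩, by omega⟩, e1⟩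
    rcases abs_cases (z - w) with ⟨h, -⟩ | ⟨h, -⟩ <;> rw [h] <;> omega
  · rintro ⟨d, s⟩ hx
    simp only [Finset.mem_filter, Finset.mem_product, Finset.mem_Icc] at hx
    obtain ⟨⟨⟨⟨h1, h2⟩, h3⟩, ⟨h4, h5⟩, h6⟩, h7⟩ := hx
    obtain ⟨p, hp⟩ : ∃ p, s + d = 2 * p := ⟨(s + d) / 2, by omega⟩
    obtain ⟨q, hq⟩ : ∃ q, s - d = 2 * q := ⟨(s - d) / 2, by omega⟩
    simp only [hp, hq]
    rw [Int.mul_ediv_cancel_left p (by norm_num), Int.mul_ediv_cancel_left q (by norm_num)]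
    have hs : s = p + q := by omega
    have hd : d = p - q := by omega
    subst hs
    subst hd
    have e1 : 2 * p ^ 2 + 2 * q ^ 2 = N := by rw [← h7]; ring
    have e2 := bound (z := p) (N := N) (by nlinarith [sq_nonneg q, sq_nonneg p])
    have e3 := bound (z := q) (N := N) (by nlinarith [sq_nonneg q, sq_nonneg p])
    split_ifs with h
    · simp only [Finset.mem_filter, Finset.mem_product, Finset.mem_Icc]
      exact ⟨⟨⟨e2, h⟩, e3, by omega⟩, e1⟩
    · simp only [Finset.mem_filter, Finset.mem_product, Finset.mem_Icc]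
      exact ⟨⟨⟨e3, by omega⟩, e2, by omega⟩, by rw [← e1]; ring⟩
  · rintro ⟨z, w⟩ hx
    simp only [Finset.mem_filter, Finset.mem_product, Finset.mem_Icc] at hx ⊢
    obtain ⟨⟨⟨⟨h1, h2⟩, h3⟩, ⟨h4, h5⟩, h6⟩, h7⟩ := hx
    rcases abs_cases (z - w) with ⟨h, -⟩ | ⟨h, -⟩
    · rw [h]
      have e1 : (z + w + (z - w)) / 2 = z := by omega
      have e2 : (z + w - (z - w)) / 2 = w := by omega
      rw [e1, e2, if_pos h3]
    · rw [h]
      have e1 : (z + w + -(z - w)) / 2 = w := by omega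
      have e2 : (z + w - -(z - w)) / 2 = z := by omega
      rw [e1, e2, if_neg (by omega)]
  · rintro ⟨d, s⟩ hx
    simp only [Finset.mem_filter, Finset.mem_product, Finset.mem_Icc] at hx
    obtain ⟨⟨⟨⟨h1, h2⟩, h3⟩, ⟨h4, h5⟩, h6⟩, h7⟩ := hx
    obtain ⟨p, hp⟩ : ∃ p, s + d = 2 * p := ⟨(s + d) / 2, by omega⟩
    obtain ⟨q, hq⟩ : ∃ q, s - d = 2 * q := ⟨(s - d) / 2, by omega⟩
    simp only [hp, hq]
    rw [Int.mul_ediv_cancel_left p (by norm_num), Int.mul_ediv_cancel_left q (by norm_num)]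
    split_ifs with h
    · simp only [Prod.mk.injEq]
      rw [abs_of_nonneg (by omega)]
      exact ⟨by omega, by omega⟩
    · simp only [Prod.mk.injEq]
      rw [abs_of_nonpos (by omega)]
      exact ⟨by omega, by omega⟩
  · rintro ⟨z, w⟩ _
    simp only
    rw [one_mul, ← zpow_add₀ (pow_ne_zero 2 hu)]

/-- TASK T1. -/
theorem t1 : S_T1 := fun u hu => ⟨part1 u, part2 u hu, part3 u⟩

end Pool.Agent.TH693.QQ.T1
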