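import Pool.Agent.TH693.QQ.Stm3

/-!
# Task T2: algebraicity at roots of unity of odd order (job of helper693, written by helper293)
-/

set_option autoImplicit false

namespace Pool.Agent.TH693.QQ

namespace T2

open Polynomial


/-- numerators and denominators of the iterates -/
noncomputable def PQ {A : Type} [CommRing A] (D : A) : ℕ → A[X] × A[X]
  | 0 => (X, 1)
  | (i + 1) => (C D * ((PQ D i).1 + (PQ D i).2) ^ 4, (PQ D i).1 ^ 2 * (PQ D i).2 ^ 2)

theorem deg_PQ {A : Type} [CommRing A] [IsDomain A] {D : A} (hD : D ≠ 0) (i : ℕ) :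
    (PQ D i).1.natDegree = 4 ^ i ∧ (PQ D i).2.natDegree + 2 ^ i ≤ 4 ^ i ∧ (PQ D i).2 ≠ 0 := by
  induction i with
  | zero => simp [PQ]
  | succ i ih =>
    obtain ⟨h1, h2, h3⟩ := ih
    have h4 : 0 < 2 ^ i := by positivity
    have h5 : (PQ D i).1 ≠ 0 := by
      intro h
      rw [h, natDegree_zero] at h1
      have : 0 < 4 ^ i := by positivity
      omega
    refine ⟨?_, ?_, ?_⟩
    · show (C D * ((PQ D i).1 + (PQ D i).2) ^ 4).natDegree = _
      rw [natDegree_C_mul hD, natDegree_pow, natDegree_add_eq_left_of_natDegree_lt (by omega), h1,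
        pow_succ]
      ring
    · show ((PQ D i).1 ^ 2 * (PQ D i).2 ^ 2).natDegree + _ ≤ _
      rw [natDegree_mul (pow_ne_zero _ h5) (pow_ne_zero _ h3), natDegree_pow, natDegree_pow, h1,
        pow_succ, pow_succ]
      omega
    · exact mul_ne_zero (pow_ne_zero _ h5) (pow_ne_zero _ h3)

theorem core {L A : Type} [Field L] [CommRing A] [IsDomain A] [Algebra A L]
    [FaithfulSMul A L] (D : A) (G H : ℕ → L) (hH : ∀ i, H i ≠ 0)
    (h1 : ∀ i, H (i + 1) = (G i + H i) ^ 4)
    (h2 : ∀ i, algebraMap A L D * G (i + 1) = G i ^ 2 * H i ^ 2) (d : ℕ) (hd : 0 < d)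
    (hG' : G d = G 0) (hH' : H d = H 0) : IsAlgebraic A (G 0) := by
  by_cases h0 : G 0 = 0
  · rw [h0]; exact isAlgebraic_zero
  have hinj : Function.Injective (algebraMap A L) := FaithfulSMul.algebraMap_injective A L
  have hG : ∀ i, G i ≠ 0 := by
    intro i
    induction i with
    | zero => exact h0
    | succ i ih =>
      intro h
      have := h2 i
      rw [h, mul_zero] at this
      exact mul_ne_zero (pow_ne_zero 2 ih) (pow_ne_zero 2 (hH i)) this.symm
  have hD' : algebraMap A L D ≠ 0 := by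
    intro h
    have := h2 0
    rw [h, zero_mul] at this
    exact mul_ne_zero (pow_ne_zero 2 h0) (pow_ne_zero 2 (hH 0)) this.symm
  have hD : D ≠ 0 := by
    rintro rfl
    exact hD' (map_zero _)
  -- the quotients
  have hξ0 : ∀ i, H i / G i ≠ 0 := fun i => div_ne_zero (hH i) (hG i)
  have hξ : ∀ i, H (i + 1) / G (i + 1) * (H i / G i) ^ 2 =
      algebraMap A L D * (H i / G i + 1) ^ 4 := by
    intro i
    have e1 : G (i + 1) = G i ^ 2 * H i ^ 2 / algebraMap A L D := by
      rw [← h2 i]; field_simp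
    rw [h1 i, e1]
    have := hG i
    have := hH i
    field_simp
    ring
  have hev : ∀ i, aeval (H 0 / G 0) (PQ D i).2 ≠ 0 ∧
      aeval (H 0 / G 0) (PQ D i).1 = H i / G i * aeval (H 0 / G 0) (PQ D i).2 := by
    intro i
    induction i with
    | zero => simp [PQ]
    | succ i ih =>
      obtain ⟨ih1, ih2⟩ := ih
      have e1 : aeval (H 0 / G 0) (PQ D (i + 1)).2 =
          (H i / G i) ^ 2 * aeval (H 0 / G 0) (PQ D i).2 ^ 4 := by
        show aeval (H 0 / G 0) ((PQ D i).1 ^ 2 * (PQ D i).2 ^ 2) = _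
        rw [map_mul, map_pow, map_pow, ih2]
        ring
      have e2 : aeval (H 0 / G 0) (PQ D (i + 1)).1 =
          algebraMap A L D * (H i / G i + 1) ^ 4 * aeval (H 0 / G 0) (PQ D i).2 ^ 4 := by
        show aeval (H 0 / G 0) (C D * ((PQ D i).1 + (PQ D i).2) ^ 4) = _
        rw [map_mul, map_pow, map_add, ih2, aeval_C]
        ring
      refine ⟨?_, ?_⟩
      · rw [e1]
        exact mul_ne_zero (pow_ne_zero _ (hξ0 i)) (pow_ne_zero _ ih1)
      · rw [e1, e2, ← hξ i]
        ring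
  have halg0 : IsAlgebraic A (H 0 / G 0) := by
    refine ⟨(PQ D d).1 - X * (PQ D d).2, ?_, ?_⟩
    · obtain ⟨d1, d2, d3⟩ := deg_PQ hD d
      intro h
      rw [sub_eq_zero] at h
      have h3 := congrArg natDegree h
      rw [d1, natDegree_X_mul d3] at h3
      have h4 : 2 ^ 1 ≤ 2 ^ d := Nat.pow_le_pow_right (by norm_num) hd
      omega
    · rw [map_sub, map_mul, (hev d).2, aeval_X, hG', hH', sub_self]
  have halg : ∀ i, IsAlgebraic A (H i / G i) := by
    intro i
    induction i with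
    | zero => exact halg0
    | succ i ih =>
      have e : H (i + 1) / G (i + 1) =
          algebraMap A L D * (H i / G i + 1) ^ 4 * ((H i / G i) ^ 2)⁻¹ := by
        rw [← hξ i]
        exact (mul_inv_cancel_right₀ (pow_ne_zero 2 (hξ0 i)) _).symm
      rw [e]
      exact ((isAlgebraic_algebraMap D).mul ((ih.add isAlgebraic_one).pow 4)).mul
        ((ih.pow 2).inv)
  -- the H i
  have hρ : ∀ i, ∃ ρ : L, IsAlgebraic A ρ ∧ H i = H 0 ^ (4 ^ i) * ρ := by
    intro i
    induction i with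
    | zero => exact ⟨1, isAlgebraic_one, by simp⟩
    | succ i ih =>
      obtain ⟨ρ, hρ1, hρ2⟩ := ih
      refine ⟨ρ ^ 4 * ((H i / G i)⁻¹ + 1) ^ 4,
        (hρ1.pow 4).mul (((halg i).inv.add isAlgebraic_one).pow 4), ?_⟩
      have e : G i + H i = H i * ((H i / G i)⁻¹ + 1) := by
        have := hG i
        have := hH i
        field_simp
      rw [h1 i, e, mul_pow]
      conv_lhs => rw [show H i ^ 4 = (H 0 ^ (4 ^ i) * ρ) ^ 4 by rw [← hρ2]]
      rw [mul_pow, ← pow_mul, ← pow_succ]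
      ring
  obtain ⟨ρ, hρ1, hρ2⟩ := hρ d
  rw [hH'] at hρ2
  have hρ0 : ρ ≠ 0 := by
    rintro rfl
    rw [mul_zero] at hρ2
    exact hH 0 hρ2
  have h4d : 1 < 4 ^ d := Nat.one_lt_pow (by omega) (by norm_num)
  have hH0 : IsAlgebraic A (H 0) := by
    refine IsAlgebraic.of_pow (n := 4 ^ d - 1) (by omega) ?_
    have e : H 0 ^ (4 ^ d - 1) = ρ⁻¹ := by
      have h5 : H 0 ^ (4 ^ d) = H 0 ^ (4 ^ d - 1) * H 0 := by
        rw [← pow_succ]
        congr 1
        omega
      rw [h5] at hρ2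
      have h6 : H 0 * (H 0 ^ (4 ^ d - 1) * ρ) = H 0 * 1 := by
        rw [mul_one]
        conv_rhs => rw [hρ2]
        ring
      have h7 := mul_left_cancel₀ (hH 0) h6
      exact eq_inv_of_mul_eq_one_left h7
    rw [e]
    exact hρ1.inv
  have e : G 0 = H 0 * (H 0 / G 0)⁻¹ := by
    have := hG 0
    have := hH 0
    field_simp
  rw [e]
  exact hH0.mul halg0.inv


end T2

open PowerSeries Pool.Agent.TH693.PP Pool.Agent.H397R2.PP in
theorem t2 : S_T2 := by
  intro hT1 M hM u hu
  have hM0 : 0 < M := hM.pos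
  have hu0 : u ≠ 0 := by
    rintro rfl
    rw [zero_pow hM0.ne'] at hu
    exact zero_ne_one hu
  have hd : 0 < M.totient := Nat.totient_pos.2 hM0
  have hcop : Nat.Coprime 2 M := Nat.coprime_two_left.2 hM
  have hmod : 2 ^ M.totient ≡ 1 [MOD M] := Nat.ModEq.pow_totient hcop
  have hud : u ^ (2 ^ M.totient) = u := by
    have h1 : M ∣ 2 ^ M.totient - 1 := (Nat.modEq_iff_dvd' Nat.one_le_two_pow).1 hmod.symm
    obtain ⟨k, hk⟩ := h1
    have h2 : 2 ^ M.totient = M * k + 1 := by
      have : 1 ≤ 2 ^ M.totient := Nat.one_le_two_pow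
      omega
    rw [h2, pow_succ, pow_mul, hu, one_pow, one_mul]
  have hinj : Function.Injective (algebraMap Sk Lk) := IsFractionRing.injective Sk Lk
  have hmem : algebraMap Sk Lk (ik Db) ∈ Ak := Algebra.subset_adjoin rfl
  have key := T2.core (L := Lk) (A := Ak) ⟨algebraMap Sk Lk (ik Db), hmem⟩
    (fun i => algebraMap Sk Lk (gU (u ^ (2 ^ i)))) (fun i => algebraMap Sk Lk (hU (u ^ (2 ^ i))))
    ?_ ?_ ?_ M.totient hd ?_ ?_
  · simpa [AL] using key
  · intro i h
    have h1 := (hT1 (u ^ (2 ^ i)) (pow_ne_zero _ hu0)).2.2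
    have h2 : hU (u ^ (2 ^ i)) = 0 := hinj (by rw [map_zero]; exact h)
    rw [h2, map_zero] at h1
    exact zero_ne_one h1
  · intro i
    have h1 := (hT1 (u ^ (2 ^ i)) (pow_ne_zero _ hu0)).1
    rw [← pow_mul, ← pow_succ] at h1
    rw [h1, map_pow, map_add]
  · intro i
    have h1 := (hT1 (u ^ (2 ^ i)) (pow_ne_zero _ hu0)).2.1
    rw [← pow_mul, ← pow_succ] at h1
    have h2 := congrArg (algebraMap Sk Lk) h1
    rw [map_mul, map_mul, map_pow, map_pow] at h2
    exact h2
  · rw [hud, pow_zero, pow_one]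
  · rw [hud, pow_zero, pow_one]

end Pool.Agent.TH693.QQ
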