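import Pool.Agent.TH693.QQ.Stm3
import Pool.Agent.H397R2.PP.TH

set_option autoImplicit false

/-!
# Task T3: `Db(ζ X)` is algebraic over `F_2(Db)` (helper805)
-/

namespace Pool.Agent.TH693.QQ

open PowerSeries Pool.Agent.TH693.PP Pool.Agent.H397R2.PP

namespace T3

/-! ### algebraic elements -/

lemma AL_add {f g : Lk} (hf : AL f) (hg : AL g) : AL (f + g) := IsAlgebraic.add hf hg

lemma AL_mul {f g : Lk} (hf : AL f) (hg : AL g) : AL (f * g) := IsAlgebraic.mul hf hg

lemma AL_zero : AL 0 := isAlgebraic_zero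

lemma AL_sum {ι : Type} (s : Finset ι) (f : ι → Lk) (h : ∀ i ∈ s, AL (f i)) :
    AL (∑ i ∈ s, f i) := by
  classical
  induction s using Finset.induction_on with
  | empty => rw [Finset.sum_empty]; exact AL_zero
  | insert a s ha ih =>
    rw [Finset.sum_insert ha]
    exact AL_add (h a (Finset.mem_insert_self _ _))
      (ih fun i hi => h i (Finset.mem_insert_of_mem hi))

lemma AL_Db : AL (algebraMap Sk Lk (ik Db)) := by
  have h : algebraMap Sk Lk (ik Db) =
      algebraMap Ak Lk ⟨algebraMap Sk Lk (ik Db), Algebra.subset_adjoin rfl⟩ := rfl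
  rw [h]
  exact isAlgebraic_algebraMap _

lemma AL_const (c : kk) : AL (algebraMap Sk Lk (C c)) := by
  obtain ⟨p, hp, h⟩ : IsAlgebraic (ZMod 2) c := Algebra.IsAlgebraic.isAlgebraic c
  refine ⟨p.map (algebraMap (ZMod 2) Ak), ?_, ?_⟩
  · rwa [Ne, Polynomial.map_eq_zero]
  · rw [Polynomial.aeval_map_algebraMap]
    have h1 := congrArg (fun x => algebraMap Sk Lk (C x)) h
    simp only [map_zero] at h1
    rw [← h1, Polynomial.aeval_def, Polynomial.aeval_def, Polynomial.hom_eval₂,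
      Polynomial.hom_eval₂]
    congr 1
    exact Subsingleton.elim _ _

/-! ### Fourier inversion -/

/-- the function on the classes -/
noncomputable def psi (M : ℕ) (u : kk) (b : ℕ) : kk :=
  if 0 < b ∧ 2 * b < M then u ^ (b ^ 2) - 1 else 0

/-- the function on the integers -/
noncomputable def Psi (M : ℕ) (u : kk) (z : ℤ) : kk := psi M u (z % M).toNat

/-- the Fourier coefficients -/
noncomputable def fc (M : ℕ) (u ζ : kk) (j : ℕ) : kk :=
  ∑ b ∈ Finset.range M, psi M u b * (ζ ^ j) ^ (-(b : ℤ))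

lemma cast_odd {M : ℕ} (hM : Odd M) : (M : kk) = 1 := by
  obtain ⟨m, rfl⟩ := hM
  have h2 : (2 : kk) = 0 := by
    have := CharP.cast_eq_zero kk 2
    exact_mod_cast this
  push_cast
  rw [h2]
  ring

/-- orthogonality -/
lemma orth {M : ℕ} (hM : Odd M) {ζ : kk} (hζ : IsPrimitiveRoot ζ M) (z : ℤ) :
    ∑ j ∈ Finset.range M, (ζ ^ z) ^ j = if (M : ℤ) ∣ z then 1 else 0 := by
  have hM0 : 0 < M := hM.pos
  split_ifs with h
  · have h1 : ζ ^ z = 1 := (hζ.zpow_eq_one_iff_dvd z).2 h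
    rw [h1]
    simp only [one_pow, Finset.sum_const, Finset.card_range, nsmul_eq_mul, mul_one]
    exact cast_odd hM
  · have h1 : ζ ^ z ≠ 1 := fun h1 => h ((hζ.zpow_eq_one_iff_dvd z).1 h1)
    have h2 : (ζ ^ z) ^ M = 1 := by
      rw [← zpow_natCast, ← zpow_mul, mul_comm, zpow_mul, zpow_natCast, hζ.pow_eq_one, one_zpow]
    rw [geom_sum_eq h1, h2, sub_self, zero_div]

lemma inversion {M : ℕ} (hM : Odd M) {ζ : kk} (hζ : IsPrimitiveRoot ζ M) (u : kk) (z : ℤ) :
    ∑ j ∈ Finset.range M, fc M u ζ j * (ζ ^ j) ^ z = Psi M u z := by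
  have hM0 : 0 < M := hM.pos
  have hζ0 : ζ ≠ 0 := hζ.ne_zero hM0.ne'
  have h1 : ∀ j ∈ Finset.range M, fc M u ζ j * (ζ ^ j) ^ z =
      ∑ b ∈ Finset.range M, psi M u b * (ζ ^ (z - b)) ^ j := by
    intro j _
    unfold fc
    rw [Finset.sum_mul]
    refine Finset.sum_congr rfl fun b _ => ?_
    have e : (ζ ^ (z - b)) ^ j = (ζ ^ j) ^ (-(b : ℤ)) * (ζ ^ j) ^ z := by
      rw [← zpow_add₀ (pow_ne_zero _ hζ0), ← zpow_natCast, ← zpow_natCast, ← zpow_mul, ← zpow_mul]
      congr 1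
      ring
    rw [e]
    ring
  rw [Finset.sum_congr rfl h1, Finset.sum_comm]
  have h2 : ∀ b ∈ Finset.range M, ∑ j ∈ Finset.range M, psi M u b * (ζ ^ (z - b)) ^ j =
      if b = (z % M).toNat then psi M u b else 0 := by
    intro b hb
    rw [← Finset.mul_sum, orth hM hζ]
    have hbM := Finset.mem_range.1 hb
    have hz0 : 0 ≤ z % M := Int.emod_nonneg _ (by omega)
    have hz1 : z % M < M := Int.emod_lt_of_pos _ (by omega)
    by_cases h : b = (z % M).toNat
    · rw [if_pos h, if_pos, mul_one]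
      have h3 : (b : ℤ) = z % M := by omega
      rw [h3]
      exact Int.dvd_self_sub_emod
    · rw [if_neg h, if_neg, mul_zero]
      intro hd
      apply h
      have h3 : z % M = (b : ℤ) % M := (Int.modEq_iff_dvd.2 hd).symm.eq
      rw [Int.emod_eq_of_lt (by omega) (by omega : (b : ℤ) < M)] at h3
      omega
  rw [Finset.sum_congr rfl h2, Finset.sum_ite_eq', if_pos]
  · rfl
  · have hz0 : 0 ≤ z % M := Int.emod_nonneg _ (by omega)
    have hz1 : z % M < M := Int.emod_lt_of_pos _ (by omega)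
    rw [Finset.mem_range]
    omega

/-- the two signs -/
lemma Psi_add {M : ℕ} (hM : Odd M) {u : kk} (hu : u ^ M = 1) (m : ℕ) :
    Psi M u (m : ℤ) + Psi M u (-(m : ℤ)) = u ^ (m ^ 2) - 1 := by
  have hM0 : 0 < M := hM.pos
  have hMo : M % 2 = 1 := Nat.odd_iff.1 hM
  have h2 : (2 : kk) = 0 := by
    have := CharP.cast_eq_zero kk 2
    exact_mod_cast this
  set b := m % M with hb
  have hbM : b < M := Nat.mod_lt _ hM0
  have e1 : ((m : ℤ) % M).toNat = b := by
    rw [← Int.natCast_mod]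
    exact Int.toNat_natCast _
  have key : u ^ (m ^ 2) = u ^ (b ^ 2) :=
    pow_eq_pow_of_modEq (Nat.ModEq.pow 2 (Nat.mod_modEq m M).symm) hu
  unfold Psi
  rw [e1]
  by_cases h0 : b = 0
  · have e2 : (-(m : ℤ) % M).toNat = 0 := by
      have hd : (M : ℤ) ∣ m := by
        have : M ∣ m := Nat.dvd_of_mod_eq_zero h0
        exact_mod_cast this
      rw [Int.emod_eq_zero_of_dvd (Int.dvd_neg.2 hd)]
      rfl
    rw [e2, key, h0]
    simp [psi]
  · have e2 : (-(m : ℤ) % M).toNat = M - b := by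
      have h3 : (-(m : ℤ)) % M = ((M - b : ℕ) : ℤ) := by
        have h4 : (-(m : ℤ)) = ((M - b : ℕ) : ℤ) + M * (-(m / M : ℕ) - 1) := by
          have h5 := Nat.div_add_mod m M
          rw [Nat.cast_sub hbM.le]
          have h6 : (m : ℤ) = M * ((m / M : ℕ) : ℤ) + b := by
            rw [hb]
            exact_mod_cast h5.symm
          rw [h6]
          ring
        rw [h4, Int.add_mul_emod_self_left]
        exact Int.emod_eq_of_lt (by omega) (by omega)
      rw [h3]
      exact Int.toNat_natCast _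
    rw [e2, key]
    unfold psi
    by_cases hlt : 2 * b < M
    · rw [if_pos ⟨by omega, hlt⟩, if_neg (by omega), add_zero]
    · rw [if_neg (by omega), if_pos ⟨by omega, by omega⟩, zero_add]
      have e3 : u ^ ((M - b) ^ 2) = u ^ (b ^ 2) := by
        refine pow_eq_pow_of_modEq ?_ hu
        have h7 : (((M - b) ^ 2 : ℕ) : ℤ) ≡ ((b ^ 2 : ℕ) : ℤ) [ZMOD M] := by
          rw [Int.modEq_iff_dvd]
          refine ⟨2 * b - M, ?_⟩
          push_cast [Nat.cast_sub hbM.le]
          ring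
        exact (Int.natCast_modEq_iff).1 h7
      rw [e3]

open Classical in
/-- the integer square roots -/
lemma sum_roots {M : ℕ} (hM : Odd M) {u : kk} (hu : u ^ M = 1) (n : ℕ) :
    ∑ z ∈ (Finset.Icc (-(n : ℤ)) (n : ℤ)).filter (fun z : ℤ => z ^ 2 = (n : ℤ) ∧ z % 2 = 1),
      Psi M u z = if ∃ i : ℕ, n = (2 * i + 1) ^ 2 then u ^ n - 1 else 0 := by
  split_ifs with h
  · obtain ⟨i, hi⟩ := h
    have hs : (Finset.Icc (-(n : ℤ)) (n : ℤ)).filter
        (fun z : ℤ => z ^ 2 = (n : ℤ) ∧ z % 2 = 1) =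
        {((2 * i + 1 : ℕ) : ℤ), -((2 * i + 1 : ℕ) : ℤ)} := by
      ext z
      rw [Finset.mem_filter, Finset.mem_Icc, Finset.mem_insert, Finset.mem_singleton]
      constructor
      · rintro ⟨-, h1, -⟩
        have h2 : z ^ 2 = ((2 * i + 1 : ℕ) : ℤ) ^ 2 := by rw [h1, hi]; push_cast; ring
        exact sq_eq_sq_iff_eq_or_eq_neg.1 h2
      · have hle : ((2 * i + 1 : ℕ) : ℤ) ≤ n := by
          rw [hi]
          push_cast
          nlinarith
        rintro (rfl | rfl)
        · refine ⟨⟨by omega, hle⟩, ?_, by omega⟩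
          rw [hi]; push_cast; ring
        · refine ⟨⟨by omega, by omega⟩, ?_, by omega⟩
          rw [hi]; push_cast; ring
    rw [hs, Finset.sum_pair (by omega), Psi_add hM hu, ← hi]
  · refine Finset.sum_eq_zero fun z hz => ?_
    exfalso
    rw [Finset.mem_filter] at hz
    obtain ⟨-, h1, h2⟩ := hz
    apply h
    refine ⟨z.natAbs / 2, ?_⟩
    have h3 : 2 * (z.natAbs / 2) + 1 = z.natAbs := by omega
    rw [h3]
    have h4 : ((z.natAbs ^ 2 : ℕ) : ℤ) = n := by
      rw [← h1]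
      push_cast
      exact sq_abs z
    exact_mod_cast h4.symm

/-- the series -/
lemma series {M : ℕ} (hM : Odd M) {ζ : kk} (hζ : IsPrimitiveRoot ζ M) {u : kk} (hu : u ^ M = 1) :
    PowerSeries.rescale u (ik Db) =
      ik Db + ∑ j ∈ Finset.range M, C (fc M u ζ j) * gU (ζ ^ j) := by
  classical
  ext n
  rw [map_add, map_sum, coeff_rescale]
  have h1 : ∀ j ∈ Finset.range M, coeff n (C (fc M u ζ j) * gU (ζ ^ j)) =
      ∑ z ∈ (Finset.Icc (-(n : ℤ)) (n : ℤ)).filter (fun z : ℤ => z ^ 2 = (n : ℤ) ∧ z % 2 = 1),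
        fc M u ζ j * (ζ ^ j) ^ z := by
    intro j _
    rw [coeff_C_mul, gU, coeff_mk, Finset.mul_sum]
  rw [Finset.sum_congr rfl h1, Finset.sum_comm,
    Finset.sum_congr rfl fun z _ => inversion hM hζ u z, sum_roots hM hu]
  have h2 : coeff n (ik Db) = if ∃ i : ℕ, n = (2 * i + 1) ^ 2 then (1 : kk) else 0 := by
    unfold ik
    rw [coeff_map, Db_eq_theta, coeff_mk]
    split_ifs
    · exact map_one _
    · exact map_zero _
  rw [h2]
  split_ifs
  · ring
  · ring

end T3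

/-- **Task T3.** -/
theorem t3 : S_T3 := by
  intro hG M hM u hu
  have : NeZero (M : kk) := ⟨by rw [T3.cast_odd hM]; exact one_ne_zero⟩
  have : NeZero M := ⟨hM.pos.ne'⟩
  obtain ⟨ζ, hζ⟩ : ∃ ζ : kk, IsPrimitiveRoot ζ M := HasEnoughRootsOfUnity.exists_primitiveRoot kk M
  rw [T3.series hM hζ hu, map_add, map_sum]
  refine T3.AL_add T3.AL_Db (T3.AL_sum _ _ fun j _ => ?_)
  rw [map_mul]
  refine T3.AL_mul (T3.AL_const _) (hG M hM _ ?_)
  rw [← pow_mul, mul_comm, pow_mul, hζ.pow_eq_one, one_pow]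

end Pool.Agent.TH693.QQ
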