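import Mathlib
import Pool.Agent.TH693.QQ.Stm3

set_option autoImplicit false

/-!
# Sections of `P ^ t` with respect to all moduli are algebraic up to a factor (task T4)
-/

namespace Pool.Agent.TH693.QQ

open PowerSeries Pool.Agent.TH693.PP Pool.Agent.H397R2.PP

namespace T4

/-- `f ↦ f(u X)`, from `F_2[[X]]` to `Lk` -/
noncomputable def fi (u : kk) : S →+* Lk := (algebraMap Sk Lk).comp ((PowerSeries.rescale u).comp ik)

lemma fi_apply (u : kk) (f : S) : fi u f = algebraMap Sk Lk (PowerSeries.rescale u (ik f)) := rfl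

lemma fi_one (f : S) : fi 1 f = algebraMap Sk Lk (ik f) := by
  rw [fi_apply, PowerSeries.rescale_one, RingHom.id_apply]

lemma fi_X (u : kk) : fi u X = algebraMap Sk Lk (C u) * algebraMap Sk Lk X := by
  rw [fi_apply]
  have : ik (X : S) = X := by unfold ik; exact PowerSeries.map_X _
  rw [this, PowerSeries.rescale_X, map_mul]

lemma ik_inj : Function.Injective ik :=
  PowerSeries.map_injective _ (algebraMap (ZMod 2) kk).injective

lemma fi_inj (u : kk) (hu : u ≠ 0) : Function.Injective (fi u) := by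
  intro f g h
  rw [fi_apply, fi_apply] at h
  exact ik_inj (PowerSeries.rescale_injective hu (IsFractionRing.injective Sk Lk h))

lemma AL_const (a : kk) : AL (algebraMap Sk Lk (C a)) := by
  have h1 : IsIntegral (ZMod 2) a := Algebra.IsIntegral.isIntegral a
  have h2 : IsIntegral Ak (((algebraMap Sk Lk).comp (C (R := kk))) a) :=
    IsIntegral.map_of_comp_eq (algebraMap (ZMod 2) Ak) ((algebraMap Sk Lk).comp (C (R := kk)))
      (Subsingleton.elim _ _) h1
  exact h2.isAlgebraic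

lemma AL_int (u : kk) (hu : AL (fi u Db)) (w : S) (hw : IsIntegral AD w) : AL (fi u w) := by
  set B : Subalgebra Ak Lk := Subalgebra.algebraicClosure Ak Lk with hB
  have hmem : ∀ x ∈ AD, fi u x ∈ B := by
    intro x hx
    unfold AD at hx
    induction hx using Algebra.adjoin_induction with
    | mem x hx =>
      rw [Set.mem_singleton_iff] at hx
      rw [hx]
      exact hu
    | algebraMap a =>
      have e : fi u (algebraMap (ZMod 2) S a) = algebraMap (ZMod 2) B a := by
        have h1 : (fi u).comp (algebraMap (ZMod 2) S) =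
            B.val.toRingHom.comp (algebraMap (ZMod 2) B) := Subsingleton.elim _ _
        exact RingHom.congr_fun h1 a
      rw [e]
      exact (algebraMap (ZMod 2) B a).2
    | add x y _ _ hx hy => rw [map_add]; exact B.add_mem hx hy
    | mul x y _ _ hx hy => rw [map_mul]; exact B.mul_mem hx hy
  let φ : AD →+* B := ((fi u).comp AD.val.toRingHom).codRestrict B (fun x => hmem _ x.2)
  have h1 : IsIntegral B (fi u w) := IsIntegral.map_of_comp_eq φ (fi u) (by ext x; rfl) hw
  exact IsIntegral.trans_isAlgebraic (R := Ak) h1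

lemma pow_eq {m : ℕ} (hm : 0 < m) {z : kk} (hz : IsPrimitiveRoot z m) (n r : ℕ) :
    z ^ n = z ^ r ↔ n % m = r % m := by
  have h1 : ∀ n, z ^ (n % m) = z ^ n := by
    intro n
    conv_rhs => rw [← Nat.div_add_mod n m, pow_add, pow_mul, hz.pow_eq_one, one_pow, one_mul]
  rw [← h1 n, ← h1 r]
  constructor
  · intro h
    exact hz.pow_inj (Nat.mod_lt _ hm) (Nat.mod_lt _ hm) h
  · intro h
    rw [h]

lemma sect (m : ℕ) (hm : Odd m) (z : kk) (hz : IsPrimitiveRoot z m) (r n : ℕ) :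
    ∑ i ∈ Finset.range m, ((z ^ i) ^ r)⁻¹ * (z ^ i) ^ n = if n % m = r % m then (1 : kk) else 0 := by
  have hm0 : m ≠ 0 := by
    rintro rfl
    exact absurd hm (by decide)
  have hz0 : z ≠ 0 := hz.ne_zero hm0
  have e : ∀ i, ((z ^ i) ^ r)⁻¹ * (z ^ i) ^ n = (z ^ n * (z ^ r)⁻¹) ^ i := by
    intro i
    rw [mul_pow, inv_pow, ← pow_mul, ← pow_mul, ← pow_mul, ← pow_mul, mul_comm r i, mul_comm n i,
      mul_comm]
  simp only [e]
  split_ifs with h
  · have h1 : z ^ n = z ^ r := (pow_eq (Nat.pos_of_ne_zero hm0) hz n r).2 h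
    rw [h1, mul_inv_cancel₀ (pow_ne_zero r hz0)]
    simp only [one_pow, Finset.sum_const, Finset.card_range, nsmul_eq_mul, mul_one]
    obtain ⟨j, rfl⟩ := hm
    have h2 : (2 : kk) = 0 := CharTwo.two_eq_zero
    push_cast
    rw [h2]
    ring
  · have h1 : z ^ n * (z ^ r)⁻¹ ≠ 1 := by
      intro h2
      apply h
      rw [← div_eq_mul_inv, div_eq_one_iff_eq (pow_ne_zero r hz0), pow_eq (Nat.pos_of_ne_zero hm0) hz] at h2
      exact h2
    have h2 := geom_sum_mul (z ^ n * (z ^ r)⁻¹) m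
    have h3 : (z ^ n * (z ^ r)⁻¹) ^ m = 1 := by
      rw [mul_pow, inv_pow, ← pow_mul, ← pow_mul, mul_comm n, mul_comm r, pow_mul, pow_mul,
        hz.pow_eq_one, one_pow, one_pow, inv_one, mul_one]
    rw [h3, sub_self] at h2
    rcases mul_eq_zero.1 h2 with h4 | h4
    · exact h4
    · exact absurd (sub_eq_zero.1 h4) h1

lemma proj_sum (k m r : ℕ) (hm : Odd m) (z : kk) (hz : IsPrimitiveRoot z m) (f : S) :
    ik (proj (2 ^ k * m) r f) =
      ∑ i ∈ Finset.range m, C (((z ^ i) ^ r)⁻¹) * PowerSeries.rescale (z ^ i) (ik (proj (2 ^ k) r f)) := by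
  ext n
  rw [map_sum]
  have e : ∀ i ∈ Finset.range m, coeff n (C (((z ^ i) ^ r)⁻¹) *
      PowerSeries.rescale (z ^ i) (ik (proj (2 ^ k) r f))) =
      (((z ^ i) ^ r)⁻¹ * (z ^ i) ^ n) * coeff n (ik (proj (2 ^ k) r f)) := by
    intro i _
    rw [PowerSeries.coeff_C_mul, PowerSeries.coeff_rescale]
    ring
  rw [Finset.sum_congr rfl e, ← Finset.sum_mul, sect m hm z hz r n]
  unfold ik proj
  rw [PowerSeries.coeff_map, PowerSeries.coeff_map, coeff_mk, coeff_mk]
  have hc : Nat.Coprime (2 ^ k) m := (Nat.coprime_two_left.2 hm).pow_left k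
  have hiff : n % (2 ^ k * m) = r % (2 ^ k * m) ↔ n % 2 ^ k = r % 2 ^ k ∧ n % m = r % m :=
    (Nat.modEq_and_modEq_iff_modEq_mul hc).symm
  by_cases h1 : n % 2 ^ k = r % 2 ^ k
  · by_cases h2 : n % m = r % m
    · rw [if_pos (hiff.2 ⟨h1, h2⟩), if_pos h1, if_pos h2, one_mul]
    · rw [if_neg (fun h => h2 (hiff.1 h).2), if_neg h2, zero_mul, map_zero]
  · rw [if_neg (fun h => h1 (hiff.1 h).1), if_neg h1, map_zero, mul_zero]

end T4

open T4 in
/-- task T4 -/
theorem T4_main : S_T4 := by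
  intro hDb hQ hI t M r ht hM
  obtain ⟨k, m, hm, rfl⟩ := Nat.exists_eq_two_pow_mul_odd hM.ne'
  have hm0 : m ≠ 0 := by
    rintro rfl
    exact absurd hm (by decide)
  have hne : NeZero ((m : ℕ) : ZMod 2) := ⟨by
    rw [Ne, ZMod.natCast_eq_zero_iff]
    exact fun h => (Nat.not_even_iff_odd.2 hm) (even_iff_two_dvd.2 h)⟩
  obtain ⟨z, hz⟩ := HasEnoughRootsOfUnity.exists_primitiveRoot kk m
  have hz0 : z ≠ 0 := hz.ne_zero hm0
  have hzi : ∀ i, (z ^ i) ^ m = 1 := fun i => by rw [← pow_mul, mul_comm, pow_mul, hz.pow_eq_one, one_pow]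
  have hDbi : ∀ i, AL (fi (z ^ i) Db) := fun i => hDb m hm _ (hzi i)
  obtain ⟨e, s, hs, hs3, hrel⟩ := hQ t k r ht
  set c2 := proj (2 ^ k) r (P ^ t) with hc2
  set w := proj (2 ^ (k + 3)) (8 * r + s) (Db ^ s) with hw
  set x : Lk := algebraMap Sk Lk X with hx
  have hx0 : x ≠ 0 := by
    rw [hx, Ne, map_eq_zero_iff _ (IsFractionRing.injective Sk Lk)]
    exact PowerSeries.X_ne_zero
  have hDb0 : Db ≠ 0 := by
    intro h
    have h1 : coeff 1 Db = 1 := by
      unfold Db
      rw [PowerSeries.coeff_succ_X_mul, PowerSeries.coeff_zero_eq_constantCoeff_apply, map_pow]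
      have hE : constantCoeff (pentagonalSeries (ZMod 2)) = 1 := constE
      rw [hE, one_pow]
    rw [h] at h1
    simp at h1
  -- the quotients
  have hg : ∀ i, AL (fi (z ^ i) c2 ^ 24 / x ^ t) := by
    intro i
    have h1 := congrArg (fi (z ^ i)) hrel
    rw [map_mul, map_pow, map_pow, map_mul, map_pow, map_pow, fi_X, mul_pow] at h1
    have hD : fi (z ^ i) Db ^ e ≠ 0 := by
      apply pow_ne_zero
      rw [Ne, map_eq_zero_iff _ (fi_inj _ (pow_ne_zero i hz0))]
      exact hDb0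
    have h2 : fi (z ^ i) c2 ^ 24 / x ^ t =
        (algebraMap Sk Lk (C (z ^ i)) ^ t * fi (z ^ i) w ^ 3) * (fi (z ^ i) Db ^ e)⁻¹ := by
      rw [div_eq_iff (pow_ne_zero t hx0)]
      field_simp
      rw [mul_comm, h1]
      ring
    rw [h2]
    exact (((AL_const _).pow t).mul ((AL_int _ (hDbi i) w (hI _ _ _)).pow 3)).mul ((hDbi i).pow e).inv
  by_cases hc0 : c2 = 0
  · have h1 : proj (2 ^ k * m) r (P ^ t) = 0 := by
      have h2 := proj_sum k m r hm z hz (P ^ t)
      rw [← hc2, hc0] at h2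
      simp only [map_zero, mul_zero, Finset.sum_const_zero] at h2
      exact ik_inj (by rw [h2, map_zero])
    rw [h1, map_zero, map_zero, zero_pow (by norm_num), zero_div]
    exact isAlgebraic_zero
  · have h0 : fi 1 c2 ≠ 0 := by
      rw [Ne, map_eq_zero_iff _ (fi_inj 1 one_ne_zero)]
      exact hc0
    have hg0 : AL (fi 1 c2 ^ 24 / x ^ t) := by
      have := hg 0
      rwa [pow_zero] at this
    have hg00 : fi 1 c2 ^ 24 / x ^ t ≠ 0 := div_ne_zero (pow_ne_zero _ h0) (pow_ne_zero _ hx0)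
    have hτ : ∀ i, AL (fi (z ^ i) c2 / fi 1 c2) := by
      intro i
      have h1 : AL ((fi (z ^ i) c2 / fi 1 c2) ^ 24) := by
        have h2 : (fi (z ^ i) c2 / fi 1 c2) ^ 24 =
            (fi (z ^ i) c2 ^ 24 / x ^ t) * (fi 1 c2 ^ 24 / x ^ t)⁻¹ := by
          have := pow_ne_zero t hx0
          field_simp
        rw [h2]
        exact (hg i).mul hg0.inv
      exact IsAlgebraic.of_pow (by norm_num) h1
    set T : Lk := ∑ i ∈ Finset.range m, algebraMap Sk Lk (C (((z ^ i) ^ r)⁻¹)) * (fi (z ^ i) c2 / fi 1 c2)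
      with hT
    have hTal : AL T := by
      have : T ∈ Subalgebra.algebraicClosure Ak Lk := by
        rw [hT]
        exact Subalgebra.sum_mem _ fun i _ => (AL_const _).mul (hτ i)
      exact this
    have hfin : algebraMap Sk Lk (ik (proj (2 ^ k * m) r (P ^ t))) = fi 1 c2 * T := by
      rw [proj_sum k m r hm z hz (P ^ t), map_sum, hT, Finset.mul_sum]
      refine Finset.sum_congr rfl fun i _ => ?_
      rw [map_mul, ← hc2, ← fi_apply]
      field_simp
    have h3 : algebraMap Sk Lk (ik (proj (2 ^ k * m) r (P ^ t))) ^ 24 / x ^ t =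
        (fi 1 c2 ^ 24 / x ^ t) * T ^ 24 := by
      rw [hfin, mul_pow]
      ring
    rw [h3]
    exact hg0.mul (hTal.pow 24)

end Pool.Agent.TH693.QQ
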