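import Pool.Agent.TH693.QQ.Stm3
import Pool.Agent.TH693.QQ.QE2

/-!
# Task T5: algebraicity and transcendence, in the field of fractions of `kk[[X]]`
(job of helper693, written by helper429; adapted from the files `QE2` and `QG2` of helper124 and
helper767)
-/

set_option autoImplicit false

namespace Pool.Agent.TH693.QQ

open PowerSeries Pool.Agent.TH693.PP Pool.Agent.H397R2.PP

namespace T5

/-- the inclusion of `F_2[[X]]` -/
noncomputable def jj : S →ₐ[ZMod 2] Lk where
  toRingHom := (algebraMap Sk Lk).comp ik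
  commutes' r := by
    change ((algebraMap Sk Lk).comp ik).comp (algebraMap (ZMod 2) S) r = algebraMap (ZMod 2) Lk r
    exact congrArg (fun f : ZMod 2 →+* Lk => f r) (Subsingleton.elim _ _)

lemma jj_apply (f : S) : jj f = algebraMap Sk Lk (ik f) := rfl

lemma ik_inj : Function.Injective ik :=
  PowerSeries.map_injective _ (algebraMap (ZMod 2) kk).injective

lemma jj_inj : Function.Injective jj := by
  intro f g h
  exact ik_inj (IsFractionRing.injective Sk Lk h)

lemma jj_X : jj X = algebraMap Sk Lk X := by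
  rw [jj_apply, ik, PowerSeries.map_X]

/-- the field generated by `X` and `z` is contained in the range of `evp z` -/
lemma mem_range {z : S} {a : Lk} (ha : a ∈ Algebra.adjoin (ZMod 2) {jj X, jj z}) :
    a ∈ ((jj : S →+* Lk).comp (evp z)).range := by
  induction ha using Algebra.adjoin_induction with
  | mem x hx =>
    rcases hx with rfl | hx
    · exact ⟨Polynomial.C Polynomial.X, by
        rw [RingHom.comp_apply, QE2.evp_C, QE2.io_X]; rfl⟩
    · rw [Set.mem_singleton_iff.1 hx]
      exact ⟨Polynomial.X, by rw [RingHom.comp_apply, QE2.evp_X]; rfl⟩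
  | algebraMap r =>
    refine ⟨Polynomial.C (Polynomial.C r), ?_⟩
    rw [RingHom.comp_apply, QE2.evp_C, QE2.io_C]
    exact jj.commutes r
  | add x y _ _ hx hy => exact add_mem hx hy
  | mul x y _ _ hx hy => exact mul_mem hx hy

lemma io_mem_range {a : Lk} (ha : a ∈ Algebra.adjoin (ZMod 2) {jj X}) :
    a ∈ ((jj : S →+* Lk).comp io).range := by
  induction ha using Algebra.adjoin_induction with
  | mem x hx =>
    rw [Set.mem_singleton_iff.1 hx]
    exact ⟨Polynomial.X, by rw [RingHom.comp_apply, QE2.io_X]; rfl⟩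
  | algebraMap r =>
    refine ⟨Polynomial.C r, ?_⟩
    rw [RingHom.comp_apply, QE2.io_C]
    exact jj.commutes r
  | add x y _ _ hx hy => exact add_mem hx hy
  | mul x y _ _ hx hy => exact mul_mem hx hy

lemma algOver_of_mem {z g : S} (h : jj g ∈ QE2.cl (ZMod 2) {jj X, jj z}) : AlgOver z g := by
  obtain ⟨p, hp, hp2⟩ := QE2.mem_cl.1 h
  set p' : Polynomial Lk :=
    p.map (algebraMap (Algebra.adjoin (ZMod 2) {jj X, jj z}) Lk) with hp'
  have hlift : p' ∈ Polynomial.lifts ((jj : S →+* Lk).comp (evp z)) := by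
    rw [Polynomial.lifts_iff_coeff_lifts]
    intro n
    rw [hp', Polynomial.coeff_map]
    exact mem_range (p.coeff n).2
  obtain ⟨G, hG⟩ := (Polynomial.mem_lifts p').1 hlift
  have hp0 : p' ≠ 0 := by
    rw [hp']
    exact (Polynomial.map_ne_zero_iff Subtype.val_injective).2 hp
  have hm : (G.map (evp z)).map (jj : S →+* Lk) = p' := by rw [Polynomial.map_map, hG]
  refine ⟨G, ?_, ?_⟩
  · intro h0
    rw [h0, Polynomial.map_zero] at hm
    exact hp0 hm.symm
  · apply jj_inj
    have h1 : (p'.eval (jj g)) = 0 := by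
      rw [hp', Polynomial.eval_map]
      exact hp2
    rw [← hm, Polynomial.eval_map] at h1
    rw [map_zero, ← h1]
    exact Polynomial.hom_eval₂ (G.map (evp z)) (RingHom.id S) (jj : S →+* Lk) g

lemma algX_of_mem {g : S} (h : jj g ∈ QE2.cl (ZMod 2) {jj X}) : AlgX g := by
  obtain ⟨p, hp, hp2⟩ := QE2.mem_cl.1 h
  set p' : Polynomial Lk := p.map (algebraMap (Algebra.adjoin (ZMod 2) {jj X}) Lk) with hp'
  have hlift : p' ∈ Polynomial.lifts ((jj : S →+* Lk).comp io) := by
    rw [Polynomial.lifts_iff_coeff_lifts]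
    intro n
    rw [hp', Polynomial.coeff_map]
    exact io_mem_range (p.coeff n).2
  obtain ⟨G, hG⟩ := (Polynomial.mem_lifts p').1 hlift
  have hp0 : p' ≠ 0 := by
    rw [hp']
    exact (Polynomial.map_ne_zero_iff Subtype.val_injective).2 hp
  refine ⟨G, ?_, ?_⟩
  · intro h0
    rw [h0, Polynomial.map_zero] at hG
    exact hp0 hG.symm
  · apply jj_inj
    have h1 : (p'.eval (jj g)) = 0 := by
      rw [hp', Polynomial.eval_map]
      exact hp2
    rw [← hG, Polynomial.eval_map] at h1
    rw [map_zero, ← h1]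
    exact Polynomial.hom_eval₂ G io (jj : S →+* Lk) g

lemma io_mem (f : F) : jj (io f) ∈ Algebra.adjoin (ZMod 2) {jj X} := by
  induction f using Polynomial.induction_on with
  | C a =>
    rw [QE2.io_C, jj.commutes]
    exact Subalgebra.algebraMap_mem _ a
  | add p q hp hq => rw [map_add, map_add]; exact add_mem hp hq
  | monomial n a _ =>
    rw [map_mul, map_pow, QE2.io_X, QE2.io_C, map_mul, map_pow, jj.commutes]
    have h1 : jj X ∈ Algebra.adjoin (ZMod 2) {jj X} :=
      Algebra.subset_adjoin (Set.mem_singleton _)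
    exact Subalgebra.mul_mem _ (Subalgebra.algebraMap_mem _ a) (Subalgebra.pow_mem _ h1 _)

lemma mem_of_algX {g : S} (h : AlgX g) : jj g ∈ QE2.cl (ZMod 2) {jj X} := by
  obtain ⟨G, hG, hG2⟩ := h
  rw [QE2.mem_cl]
  let ψ : F →+* Algebra.adjoin (ZMod 2) {jj X} :=
    ((jj : S →+* Lk).comp io).codRestrict (Algebra.adjoin (ZMod 2) {jj X}) io_mem
  have hψ : Function.Injective ψ := by
    intro a b hab
    exact QE2.io_inj (jj_inj (congrArg Subtype.val hab))
  refine ⟨G.map ψ, (Polynomial.map_ne_zero_iff hψ).2 hG, ?_⟩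
  rw [Polynomial.aeval_def, Polynomial.eval₂_map]
  have h1 := congrArg jj hG2
  rw [map_zero] at h1
  rw [← h1]
  exact (Polynomial.hom_eval₂ G io (jj : S →+* Lk) g).symm

lemma mem_of_AL {f : Lk} (h : AL f) : f ∈ QE2.cl (ZMod 2) {jj Db} := QE2.mem_cl.2 h

end T5

theorem t5 : S_T5 := by
  intro hDb t c ht hc hAL
  have hd : T5.jj Db ∉ QE2.cl (ZMod 2) {T5.jj X} := fun h => hDb (T5.algX_of_mem h)
  set om : Lk := T5.jj c ^ 24 * (T5.jj X ^ t)⁻¹ with hom
  have h4 : om ∈ QE2.cl (ZMod 2) {T5.jj Db} := by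
    apply T5.mem_of_AL
    rw [hom, T5.jj_X, ← div_eq_mul_inv, T5.jj_apply]
    exact hAL
  have hx0 : T5.jj X ≠ 0 := by
    rw [Ne, map_eq_zero_iff T5.jj T5.jj_inj]
    exact PowerSeries.X_ne_zero
  have hc0 : T5.jj c ≠ 0 := by
    rw [Ne, map_eq_zero_iff T5.jj T5.jj_inj]
    exact hc
  constructor
  · apply T5.algOver_of_mem
    apply QE2.of_pow_mem (n := 24) (by norm_num)
    have h1 : T5.jj c ^ 24 = om * T5.jj X ^ t := by
      rw [hom, inv_mul_cancel_right₀ (pow_ne_zero _ hx0)]
    rw [h1]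
    exact QE2.mul_mem' (QE2.cl_mono (by simp) h4) (QE2.pow_mem' (QE2.self_mem (by simp)) t)
  · intro hcX
    have h1 := T5.mem_of_algX hcX
    have hom0 : om ≠ 0 := mul_ne_zero (pow_ne_zero _ hc0) (inv_ne_zero (pow_ne_zero _ hx0))
    have h2 : om ∈ QE2.cl (ZMod 2) {T5.jj X} :=
      QE2.mul_mem' (QE2.pow_mem' h1 24)
        (QE2.inv_mem' (QE2.pow_mem' (QE2.self_mem (Set.mem_singleton _)) t))
    obtain ⟨n, hn, hn1⟩ := QE2.root_of_unity hom0 (QE2.exch hd h2 h4)
    have h5 : c ^ (24 * n) = (X : S) ^ (t * n) := by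
      apply T5.jj_inj
      rw [map_pow, map_pow]
      rw [hom, mul_pow, inv_pow, ← pow_mul, ← pow_mul,
        mul_inv_eq_one₀ (pow_ne_zero _ hx0)] at hn1
      exact hn1
    have h6 := congrArg PowerSeries.order h5
    rw [PowerSeries.order_pow, PowerSeries.order_X_pow] at h6
    have h7 : c.order ≠ ⊤ := by
      rw [Ne, PowerSeries.order_eq_top]
      exact hc
    obtain ⟨m, hm⟩ := ENat.ne_top_iff_exists.1 h7
    rw [← hm] at h6
    have h8 : 24 * n * m = t * n := by
      have : ((24 * n * m : ℕ) : ℕ∞) = ((t * n : ℕ) : ℕ∞) := by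
        rw [← h6]
        simp
      exact_mod_cast this
    have h9 : n * (24 * m) = n * t := by linarith
    have h10 := Nat.eq_of_mul_eq_mul_left hn h9
    exact ht ⟨m, h10.symm⟩

end Pool.Agent.TH693.QQ
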