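import Pool.Agent.TH693.QQ.Main3
import Pool.Agent.TH693.QQ.T1
import Pool.Agent.TH693.QQ.T2
import Pool.Agent.TH693.QQ.T3
import Pool.Agent.TH693.QQ.T4
import Pool.Agent.TH693.QQ.T5

set_option autoImplicit false

/-!
# Linear patterns of multipartition numbers modulo 2 in progressions
-/

namespace Pool.Agent.TH693.QQ

open PowerSeries Pool.Agent.TH693.PP

theorem coeff_P_pow (t n : ℕ) : coeff n (P ^ t) = (Pool.Agent.H413R3.Part.mp t n : ZMod 2) :=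
  Pool.Agent.H413R3.Part.coeff_pow_eq t n

theorem final_mp (qd1 : S_QD1) {t : ℕ} (ht : Odd t) (M r : ℕ) (hM : 0 < M)
    (h : (∃ k, M = 2 ^ k) ∨ ∃ n, Odd (Pool.Agent.H413R3.Part.mp t (M * n + r))) :
    ∃ C : ℕ, ∀ (L : ℕ) (c : Fin (L + 1) → ZMod 2), c ≠ 0 →
    ∀ (κ : ZMod 2) (A : ℕ), ∃ n, A ≤ n ∧ n ≤ C * (A + L + 1) ∧
      ∑ i : Fin (L + 1), c i * (Pool.Agent.H413R3.Part.mp t (M * (n + i) + r) : ZMod 2) = κ := by
  have h' : (∃ k, M = 2 ^ k) ∨ ∃ n, coeff (M * n + r) (P ^ t) ≠ 0 := by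
    rcases h with h | ⟨n, hn⟩
    · exact Or.inl h
    · right
      refine ⟨n, ?_⟩
      rw [coeff_P_pow, ZMod.natCast_ne_zero_iff_odd]
      exact hn
  obtain ⟨C, hC⟩ := final qd1 T1.t1 t2 t3 T4_main t5 ht M r (Nat.pos_iff_ne_zero.1 hM) h'
  refine ⟨C, fun L c hc κ A => ?_⟩
  obtain ⟨n, h1, h2, h3⟩ := hC L c hc κ A
  refine ⟨n, h1, h2, ?_⟩
  rw [← h3]
  exact Finset.sum_congr rfl fun i _ => by rw [coeff_P_pow]

end Pool.Agent.TH693.QQ
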