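import Pool.Agent.TH693.QQ.Stm

set_option autoImplicit false

/-!
# Task QA: a Mahler type relation bounds the irrationality measure
-/

namespace Pool.Agent.TH693.QQ

open PowerSeries Pool.Agent.TH693.PP

/-- substitution `X → X ^ (3 ^ a)` in polynomials -/
noncomputable def sgF (a : ℕ) : F →ₐ[ZMod 2] F := Polynomial.expand (ZMod 2) (3 ^ a)

theorem coe_sgF (a : ℕ) (f : F) : ((sgF a f : F) : S) = sg a (f : S) := by
  ext n
  unfold sgF sg
  rw [Polynomial.coeff_coe, Polynomial.coeff_expand (by positivity), PowerSeries.coeff_expand]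
  split_ifs with h
  · rw [Polynomial.coeff_coe]
  · rfl

theorem natDegree_sgF (a : ℕ) (f : F) : (sgF a f).natDegree = 3 ^ a * f.natDegree := by
  unfold sgF
  rw [Polynomial.natDegree_expand]
  ring

theorem const_sg (a : ℕ) (f : S) : constantCoeff (sg a f) = constantCoeff f := by
  unfold sg
  rw [← coeff_zero_eq_constantCoeff_apply, ← coeff_zero_eq_constantCoeff_apply]
  have := PowerSeries.coeff_expand_mul (3 ^ a) (by positivity) f 0
  simpa using this

theorem sg_X (a : ℕ) : sg a (X : S) = X ^ 3 ^ a := by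
  unfold sg
  exact PowerSeries.expand_X (3 ^ a) (by positivity)

/-- families rational in `U / V` -/
def Nice (a : ℕ) (Γ : F → F → S) : Prop :=
  ∃ C : ℕ, ∀ U V : F, V.coeff 0 = 1 → ∃ (H : F) (e : ℕ), e ≤ C ∧
    H.natDegree ≤ C * (U.natDegree + V.natDegree + 1) ∧ (H : S) = ((V : S) * sg a V) ^ e * Γ U V

theorem deg_VV (a : ℕ) (V : F) (e : ℕ) :
    ((V * sgF a V) ^ e).natDegree ≤ e * ((1 + 3 ^ a) * V.natDegree) := by
  refine Polynomial.natDegree_pow_le.trans (Nat.mul_le_mul_left e ?_)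
  refine Polynomial.natDegree_mul_le.trans ?_
  rw [natDegree_sgF]
  apply le_of_eq
  ring

theorem Nice.add {a : ℕ} {Γ Γ' : F → F → S} (h : Nice a Γ) (h' : Nice a Γ') :
    Nice a (fun U V => Γ U V + Γ' U V) := by
  obtain ⟨C, h⟩ := h
  obtain ⟨C', h'⟩ := h'
  refine ⟨(C + C') * (2 + 3 ^ a), fun U V hV => ?_⟩
  obtain ⟨H, e, h1, h2, h3⟩ := h U V hV
  obtain ⟨H', e', h1', h2', h3'⟩ := h' U V hV
  refine ⟨H * (V * sgF a V) ^ e' + H' * (V * sgF a V) ^ e, e + e', ?_, ?_, ?_⟩
  · nlinarith [Nat.zero_le ((C + C') * 3 ^ a)]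
  · have b1 := deg_VV a V e
    have b2 := deg_VV a V e'
    have c1 : e * ((1 + 3 ^ a) * V.natDegree) ≤ (C + C') * ((1 + 3 ^ a) *
        (U.natDegree + V.natDegree + 1)) := by gcongr <;> omega
    have c2 : e' * ((1 + 3 ^ a) * V.natDegree) ≤ (C + C') * ((1 + 3 ^ a) *
        (U.natDegree + V.natDegree + 1)) := by gcongr <;> omega
    have d1 : H.natDegree ≤ (C + C') * (U.natDegree + V.natDegree + 1) := by
      refine h2.trans ?_
      gcongr
      omega
    have d2 : H'.natDegree ≤ (C + C') * (U.natDegree + V.natDegree + 1) := by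
      refine h2'.trans ?_
      gcongr
      omega
    have q0 := Polynomial.natDegree_add_le (H * (V * sgF a V) ^ e') (H' * (V * sgF a V) ^ e)
    have q1 := Polynomial.natDegree_mul_le (p := H) (q := (V * sgF a V) ^ e')
    have q2 := Polynomial.natDegree_mul_le (p := H') (q := (V * sgF a V) ^ e)
    have e1 : (C + C') * (2 + 3 ^ a) * (U.natDegree + V.natDegree + 1) =
        (C + C') * (U.natDegree + V.natDegree + 1) +
          (C + C') * ((1 + 3 ^ a) * (U.natDegree + V.natDegree + 1)) := by ring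
    rw [e1]
    refine q0.trans (max_le ?_ ?_)
    · omega
    · omega
  · push_cast
    rw [coe_sgF, h3, h3']
    ring

theorem Nice.mul {a : ℕ} {Γ Γ' : F → F → S} (h : Nice a Γ) (h' : Nice a Γ') :
    Nice a (fun U V => Γ U V * Γ' U V) := by
  obtain ⟨C, h⟩ := h
  obtain ⟨C', h'⟩ := h'
  refine ⟨C + C', fun U V hV => ?_⟩
  obtain ⟨H, e, h1, h2, h3⟩ := h U V hV
  obtain ⟨H', e', h1', h2', h3'⟩ := h' U V hV
  refine ⟨H * H', e + e', by omega, ?_, ?_⟩
  · refine Polynomial.natDegree_mul_le.trans ?_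
    rw [add_mul]
    omega
  · push_cast
    rw [h3, h3']
    ring

theorem Nice.const (a : ℕ) (f : F) : Nice a (fun _ _ => (f : S)) := by
  refine ⟨f.natDegree, fun U V _ => ⟨f, 0, Nat.zero_le _, ?_, ?_⟩⟩
  · exact Nat.le_mul_of_pos_right _ (by omega)
  · simp

theorem Nice.pow {a : ℕ} {Γ : F → F → S} (h : Nice a Γ) (n : ℕ) :
    Nice a (fun U V => Γ U V ^ n) := by
  induction n with
  | zero =>
    have := Nice.const a 1
    simpa using this
  | succ n ih =>
    have := ih.mul h
    simpa [pow_succ] using this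

theorem inv_mul' {V : F} (hV : V.coeff 0 = 1) : (V : S) * (V : S)⁻¹ = 1 :=
  PowerSeries.mul_inv_cancel _ (by rw [const_coe, hV]; exact one_ne_zero)

theorem Nice.R (a : ℕ) : Nice a (fun U V => (U : S) * (V : S)⁻¹) := by
  refine ⟨3 ^ a + 1, fun U V hV => ⟨sgF a V * U, 1, Nat.le_add_left 1 _, ?_, ?_⟩⟩
  · refine Polynomial.natDegree_mul_le.trans ?_
    rw [natDegree_sgF]
    nlinarith [Nat.zero_le (3 ^ a * U.natDegree), Nat.zero_le (3 ^ a)]
  · push_cast
    rw [coe_sgF, pow_one]
    linear_combination (-(sg a (V : S) * (U : S))) * inv_mul' hV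

theorem Nice.sR (a : ℕ) : Nice a (fun U V => sg a ((U : S) * (V : S)⁻¹)) := by
  refine ⟨3 ^ a + 1, fun U V hV => ⟨V * sgF a U, 1, Nat.le_add_left 1 _, ?_, ?_⟩⟩
  · refine Polynomial.natDegree_mul_le.trans ?_
    rw [natDegree_sgF]
    nlinarith [Nat.zero_le (3 ^ a * V.natDegree), Nat.zero_le (3 ^ a)]
  · push_cast
    have h := congrArg (sg a) (inv_mul' hV)
    rw [map_mul, map_one] at h
    rw [coe_sgF, pow_one, map_mul]
    linear_combination (-((V : S) * sg a (U : S))) * h

theorem Nice.evp (a : ℕ) (q : Polynomial F) :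
    Nice a (fun U V => evp (sg a ((U : S) * (V : S)⁻¹)) q) := by
  induction q using Polynomial.induction_on' with
  | add p q hp hq =>
    have := hp.add hq
    simpa only [map_add] using this
  | monomial n f =>
    have := (Nice.const a f).mul ((Nice.sR a).pow n)
    simp only [QQ.evp, Polynomial.coe_eval₂RingHom, Polynomial.eval₂_monomial]
    exact this

theorem Nice.ev (a J : ℕ) (G : Polynomial (Polynomial F)) :
    Nice a (fun U V => (G.map (QQ.evp (sg a ((U : S) * (V : S)⁻¹)))).eval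
      (((U : S) * (V : S)⁻¹) ^ 2 ^ J)) := by
  induction G using Polynomial.induction_on' with
  | add p q hp hq =>
    have := hp.add hq
    simpa only [Polynomial.map_add, Polynomial.eval_add] using this
  | monomial n f =>
    have := (Nice.evp a f).mul (((Nice.R a).pow (2 ^ J)).pow n)
    simpa only [Polynomial.map_monomial, Polynomial.eval_monomial] using this

theorem exists_unit_part {f : S} (hf : f ≠ 0) : ∃ (n : ℕ) (ε : S), f = X ^ n * ε ∧
    constantCoeff ε = 1 := by
  classical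
  have h : ∃ n, coeff n f ≠ 0 := by
    by_contra h
    push Not at h
    exact hf (by ext n; rw [h n, map_zero])
  obtain ⟨ε, hε⟩ := PowerSeries.X_pow_dvd_iff.2 (fun m hm => not_not.1 (Nat.find_min h hm))
  refine ⟨Nat.find h, ε, hε, ?_⟩
  have h1 := Nat.find_spec h
  set n := Nat.find h
  have h2 : coeff n f = constantCoeff ε := by
    have h3 := PowerSeries.coeff_X_pow_mul ε n 0
    rw [zero_add, ← hε] at h3
    rw [h3, coeff_zero_eq_constantCoeff_apply]
  rw [h2] at h1
  exact (by decide : ∀ a : ZMod 2, a ≠ 0 → a = 1) _ h1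

theorem dvd_change (G : Polynomial (Polynomial F)) (z z' y : S) :
    z' - z ∣ (G.map (evp z')).eval y - (G.map (evp z)).eval y := by
  have hq : ∀ q : Polynomial F, z' - z ∣ evp z' q - evp z q := by
    intro q
    unfold evp
    rw [Polynomial.coe_eval₂RingHom, Polynomial.coe_eval₂RingHom, Polynomial.eval₂_eq_eval_map,
      Polynomial.eval₂_eq_eval_map]
    exact Polynomial.sub_dvd_eval_sub _ _ _
  induction G using Polynomial.induction_on' with
  | add p q hp hq =>
    rw [Polynomial.map_add, Polynomial.map_add, Polynomial.eval_add, Polynomial.eval_add]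
    have := dvd_add hp hq
    convert this using 1
    ring
  | monomial n f =>
    rw [Polynomial.map_monomial, Polynomial.map_monomial, Polynomial.eval_monomial,
      Polynomial.eval_monomial, ← sub_mul]
    exact (hq f).mul_right _

theorem add_pow_two (J : ℕ) (a b : S) : (a + b) ^ 2 ^ J = a ^ 2 ^ J + b ^ 2 ^ J := by
  induction J with
  | zero => simp
  | succ J ih => rw [pow_succ, pow_mul, ih, add_sq, ← pow_mul, ← pow_mul]

theorem qa0 {g : S} {a J : ℕ} (hJ : 2 ^ J < 3 ^ a) (hs : Sol g a J)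
    (hirr : ∀ U V : F, V ≠ 0 → (V : S) * g + (U : S) ≠ 0) :
    ∃ C : ℕ, ∀ (N : ℕ) (U V : F), V.coeff 0 = 1 → (X : S) ^ N ∣ (V : S) * g + (U : S) →
      N ≤ C * (U.natDegree + V.natDegree + 1) := by
  obtain ⟨G, hG, hG'⟩ := hs
  obtain ⟨C, hC⟩ := Nice.ev a J G
  obtain ⟨o, μ, ho, hμ⟩ := exists_unit_part hG'
  refine ⟨C + o, fun N U V hV hN => ?_⟩
  have hV0 : V ≠ 0 := by
    rintro rfl
    simp at hV
  set R : S := (U : S) * (V : S)⁻¹ with hR
  have hinv := inv_mul' hV
  have hδ0 : g + R ≠ 0 := by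
    intro h
    apply hirr U V hV0
    rw [hR] at h
    linear_combination (V : S) * h - (U : S) * hinv
  obtain ⟨n, ε, hn, hε⟩ := exists_unit_part hδ0
  have hNn : N ≤ n := by
    by_contra hlt
    push Not at hlt
    have h1 : (X : S) ^ N ∣ g + R := by
      obtain ⟨w, hw⟩ := hN
      refine ⟨w * (V : S)⁻¹, ?_⟩
      rw [hR]
      linear_combination (V : S)⁻¹ * hw - g * hinv
    have h2 := (PowerSeries.X_pow_dvd_iff.1 h1) n hlt
    have h3 := PowerSeries.coeff_X_pow_mul ε n 0
    rw [zero_add, ← hn, h2, coeff_zero_eq_constantCoeff_apply, hε] at h3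
    exact zero_ne_one h3
  by_cases hno : n ≤ o
  · calc N ≤ o := by omega
      _ ≤ (C + o) * 1 := by omega
      _ ≤ _ := Nat.mul_le_mul_left _ (by omega)
  push Not at hno
  have hRg : R = g + (g + R) := by linear_combination (-g) * two_zero
  -- expansion
  set Γ : S := (G.map (evp (sg a R))).eval (R ^ 2 ^ J) with hΓ
  have h1 := dvd_change G (sg a g) (sg a R) (R ^ 2 ^ J)
  rw [← hΓ] at h1
  obtain ⟨l, hl⟩ := h1
  have hsub : sg a R - sg a g = sg a (g + R) := by
    rw [map_add]
    linear_combination (-sg a g) * two_zero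
  rw [hsub] at hl
  have hy : R ^ 2 ^ J = g ^ 2 ^ J + (g + R) ^ 2 ^ J := by
    conv_lhs => rw [hRg]
    rw [add_pow_two]
  obtain ⟨k, hk⟩ := Polynomial.binomExpansion (G.map (evp (sg a g))) (g ^ 2 ^ J) ((g + R) ^ 2 ^ J)
  rw [← hy, hG, zero_add, ho, hn] at hk
  rw [hn, map_mul, map_pow, sg_X] at hl
  obtain ⟨n', rfl⟩ : ∃ n', n = o + 1 + n' := ⟨n - (o + 1), by omega⟩
  set n := o + 1 + n' with hndef
  obtain ⟨t, ht⟩ : ∃ t, 3 ^ a = 2 ^ J + 1 + t := ⟨3 ^ a - (2 ^ J + 1), by omega⟩
  have hfac : Γ = X ^ (2 ^ J * n + o) * (μ * ε ^ 2 ^ J + X * (X ^ n' * (k * (ε ^ 2 ^ J) ^ 2 *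
      X ^ ((2 ^ J - 1) * n) + l * sg a ε * X ^ (t * n)))) := by
    have e1 : (X : S) ^ n = X ^ o * X * X ^ n' := by rw [hndef, pow_add, pow_add, pow_one]
    have e2 : ((X : S) ^ 3 ^ a) ^ n = X ^ (2 ^ J * n) * X ^ n * X ^ (t * n) := by
      rw [← pow_mul, ht, ← pow_add, ← pow_add]
      congr 1
      ring
    have e3 : ((X : S) ^ n * ε) ^ 2 ^ J = X ^ (2 ^ J * n) * ε ^ 2 ^ J := by
      rw [mul_pow, ← pow_mul]
      congr 2
      ring
    have e4 : (X : S) ^ (2 ^ J * n) = X ^ n * X ^ ((2 ^ J - 1) * n) := by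
      rw [← pow_add]
      congr 1
      have : 1 ≤ 2 ^ J := Nat.one_le_two_pow
      obtain ⟨c, hc⟩ : ∃ c, 2 ^ J = c + 1 := ⟨2 ^ J - 1, by omega⟩
      rw [hc]
      simp only [Nat.add_sub_cancel]
      ring
    rw [e2] at hl
    rw [e3] at hk
    have hΓ2 : Γ = (G.map (evp (sg a g))).eval (R ^ 2 ^ J) +
        X ^ (2 ^ J * n) * X ^ n * X ^ (t * n) * sg a ε * l := by
      linear_combination hl
    rw [hΓ2, hk, pow_add X (2 ^ J * n) o]
    linear_combination (k * X ^ (2 ^ J * n) * (ε ^ 2 ^ J) ^ 2) * e4 +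
      (X ^ (2 ^ J * n) * X ^ (t * n) * sg a ε * l +
        k * X ^ (2 ^ J * n) * (ε ^ 2 ^ J) ^ 2 * X ^ ((2 ^ J - 1) * n)) * e1
  set β : S := μ * ε ^ 2 ^ J + X * (X ^ n' * (k * (ε ^ 2 ^ J) ^ 2 *
      X ^ ((2 ^ J - 1) * n) + l * sg a ε * X ^ (t * n))) with hβ
  have hβ0 : constantCoeff β = 1 := by
    rw [hβ, map_add, map_mul, map_pow, hμ, hε, map_mul, constantCoeff_X, zero_mul, add_zero, one_pow,
      one_mul]
  obtain ⟨H, e, he, hHd, hH⟩ := hC U V hV
  beta_reduce at hH
  rw [← hR, ← hΓ] at hH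
  have hunit : constantCoeff (((V : S) * sg a (V : S)) ^ e * β) = 1 := by
    rw [map_mul, map_pow, map_mul, const_sg, const_coe, hV, hβ0, one_mul, one_pow, one_mul]
  have hH2 : (H : S) = X ^ (2 ^ J * n + o) * (((V : S) * sg a (V : S)) ^ e * β) := by
    rw [hH, hfac]
    ring
  have hge : 2 ^ J * n + o ≤ H.natDegree := by
    by_contra hlt
    push Not at hlt
    have h0 := eq_zero_of_dvd (Dvd.intro _ hH2.symm) hlt
    rw [h0] at hH2
    have h3 := PowerSeries.coeff_X_pow_mul (((V : S) * sg a (V : S)) ^ e * β) (2 ^ J * n + o) 0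
    rw [← hH2, coeff_zero_eq_constantCoeff_apply, hunit] at h3
    simp at h3
  have h2J : 1 ≤ 2 ^ J := Nat.one_le_two_pow
  have h5 : n ≤ 2 ^ J * n := Nat.le_mul_of_pos_left _ h2J
  have h6 : C * (U.natDegree + V.natDegree + 1) ≤ (C + o) * (U.natDegree + V.natDegree + 1) :=
    Nat.mul_le_mul_right _ (by omega)
  omega

theorem qa : S_QA := by
  intro g a J hJ hs hirr
  obtain ⟨C, hC⟩ := qa0 hJ hs hirr
  refine ⟨C + 1, ?_⟩
  intro N
  induction N with
  | zero => intros; omega
  | succ N ih =>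
    intro U V hV h
    by_cases h0 : V.coeff 0 = 0
    · have hU : U.coeff 0 = 0 := by
        have h6 := (PowerSeries.X_pow_dvd_iff.1 h) 0 (by omega)
        rw [coeff_zero_eq_constantCoeff_apply, map_add, map_mul, const_coe, const_coe,
          h0, zero_mul, zero_add] at h6
        exact h6
      obtain ⟨V', rfl⟩ := Polynomial.X_dvd_iff.2 h0
      obtain ⟨U', rfl⟩ := Polynomial.X_dvd_iff.2 hU
      have hV' : V' ≠ 0 := by
        rintro rfl
        simp at hV
      have e : ((Polynomial.X * V' : F) : S) * g + ((Polynomial.X * U' : F) : S) =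
          X * ((V' : S) * g + (U' : S)) := by
        push_cast
        ring
      rw [e, pow_succ'] at h
      have h1 := ih U' V' hV' ((mul_dvd_mul_iff_left X_ne).1 h)
      have h2 : (Polynomial.X * V').natDegree = V'.natDegree + 1 := by
        rw [Polynomial.natDegree_mul Polynomial.X_ne_zero hV', Polynomial.natDegree_X]
        ring
      have h3 : U'.natDegree ≤ (Polynomial.X * U').natDegree := by
        by_cases hU0 : U' = 0
        · rw [hU0]; simp
        · rw [Polynomial.natDegree_mul Polynomial.X_ne_zero hU0]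
          omega
      rw [h2]
      have h4 : (C + 1) * (U'.natDegree + V'.natDegree + 1) + (C + 1) ≤
          (C + 1) * ((Polynomial.X * U').natDegree + (V'.natDegree + 1) + 1) := by
        have : (C + 1) * (U'.natDegree + V'.natDegree + 1) + (C + 1) =
          (C + 1) * (U'.natDegree + (V'.natDegree + 1) + 1) := by ring
        rw [this]
        gcongr
      omega
    · have h1 : ∀ a : ZMod 2, a ≠ 0 → a = 1 := by decide
      have h2 := hC _ U V (h1 _ h0) h
      have h3 : C * (U.natDegree + V.natDegree + 1) ≤ (C + 1) * (U.natDegree + V.natDegree + 1) :=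
        Nat.mul_le_mul_right _ (by omega)
      omega

end Pool.Agent.TH693.QQ
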