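import Pool.Agent.TH693.PP.One

set_option autoImplicit false

/-!
# Sections of the partition function modulo 2: statements of the tasks

`S = F_2[[X]]`, `F = F_2[X]`, `P` the partition generating function modulo 2,
`Db = X E ^ 24` (file H397R2/PP/Defs), `Db_eq_theta`, `modular_equation` in H397R2/PP/TH.
-/

namespace Pool.Agent.TH693.QQ

open PowerSeries Pool.Agent.TH693.PP Pool.Agent.H397R2.PP

/-- the inclusion of polynomials in power series -/
noncomputable def io : F →+* S := Polynomial.coeToPowerSeries.ringHom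

/-- the substitution `X → X ^ (3 ^ a)` -/
noncomputable def sg (a : ℕ) : S →ₐ[ZMod 2] S := PowerSeries.expand (3 ^ a) (by positivity)

/-- evaluation of a polynomial with coefficients in `F_2[X]` at `z` -/
noncomputable def evp (z : S) : Polynomial F →+* S := Polynomial.eval₂RingHom io z

/-- `g ^ (2 ^ J)` is separable over the field `F_2(X, g(X ^ (3 ^ a)))` -/
def Sol (g : S) (a J : ℕ) : Prop :=
  ∃ G : Polynomial (Polynomial F), (G.map (evp (sg a g))).eval (g ^ 2 ^ J) = 0 ∧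
    (Polynomial.derivative (G.map (evp (sg a g)))).eval (g ^ 2 ^ J) ≠ 0

/-- `g` is algebraic over `F_2(X, z)` -/
def AlgOver (z g : S) : Prop :=
  ∃ G : Polynomial (Polynomial F), G.map (evp z) ≠ 0 ∧ (G.map (evp z)).eval g = 0

/-- `g` is algebraic over `F_2(X)` -/
def AlgX (g : S) : Prop := ∃ G : Polynomial F, G ≠ 0 ∧ evp g G = 0

/-- bounded irrationality measure -/
def Bm (g : S) : Prop :=
  ∃ C : ℕ, ∀ (N : ℕ) (U V : F), V ≠ 0 → (X : S) ^ N ∣ (V : S) * g + (U : S) →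
    N ≤ C * (U.natDegree + V.natDegree + 1)

/-- `Σ_{n ≡ r (mod M)} f_n X ^ n` -/
noncomputable def proj (M r : ℕ) (f : S) : S :=
  PowerSeries.mk fun n => if n % M = r % M then coeff n f else 0

/-- `F_2[Db]` -/
noncomputable def AD : Subalgebra (ZMod 2) S := Algebra.adjoin (ZMod 2) {Db}

/-- task QA -/
def S_QA : Prop := ∀ (g : S) (a J : ℕ), 2 ^ J < 3 ^ a → Sol g a J →
  (∀ U V : F, V ≠ 0 → (V : S) * g + (U : S) ≠ 0) → Bm g

/-- task QB -/
def S_QB : Prop := ∀ g : S, AlgOver Db g → ¬ AlgX g → ∃ a J : ℕ, 2 ^ J < 3 ^ a ∧ Sol g a J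

/-- task QC -/
def S_QC : Prop := ¬ AlgX Db

open Classical in
/-- `Σ_{z ≡ b (mod M)} X ^ (z ^ 2)`, `z` in `ℤ`, modulo 2 -/
noncomputable def th (M : ℕ) (b : ℤ) : S := PowerSeries.mk fun n =>
  (((Finset.Icc (-(n : ℤ)) (n : ℤ)).filter
    (fun z : ℤ => z ^ 2 = (n : ℤ) ∧ (M : ℤ) ∣ z - b)).card : ZMod 2)

/-- task QD1: theta functions with characteristics modulo 2 -/
structure S_QD1 : Prop where
  four : ∀ b : ℤ, Odd b → th 4 b = Db
  per : ∀ (M : ℕ) (b : ℤ), th M (b + M) = th M b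
  split : ∀ (k : ℕ) (b : ℤ), Odd b →
    th (2 ^ (k + 1)) b + th (2 ^ (k + 1)) (b + 2 ^ k) = th (2 ^ k) b
  prod : ∀ (k : ℕ) (b : ℤ), 2 ≤ k → Odd b →
    th (2 ^ (k + 1)) b * th (2 ^ (k + 1)) (b + 2 ^ k) =
      Db ^ 2 ^ (2 * k - 1) * th (2 ^ k) (b + 2 ^ (k - 1)) ^ 2
  supp : ∀ (k : ℕ) (b : ℤ) (n : ℕ), 1 ≤ k → coeff n (th (2 ^ k) b) ≠ 0 →
    (2 ^ (k + 1) : ℤ) ∣ n - b ^ 2

/-- task QD: the projections of powers of `Db` are integral over `F_2[Db]` -/
def S_QD : Prop := S_QD1 → ∀ k s a : ℕ, IsIntegral AD (proj (2 ^ k) a (Db ^ s))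

/-- task QE1: the relation -/
def S_QE1 : Prop := ∀ k r : ℕ, ∃ m s : ℕ, 3 * s + 1 = 4 ^ m ∧
  Db ^ 4 ^ m * proj (2 ^ k) r P ^ 24 = X * proj (2 ^ (k + 3)) (8 * r + s) (Db ^ s) ^ 3

/-- task QE2: from the relation to algebraicity and transcendence -/
def S_QE2 : Prop := ¬ AlgX Db → ∀ (c w : S) (e : ℕ), c ≠ 0 → IsIntegral AD w →
  Db ^ e * c ^ 24 = X * w ^ 3 → AlgOver Db c ∧ ¬ AlgX c

/-- task QF: non-vanishing of the sections -/
def S_QF : Prop := ∀ k r : ℕ, proj (2 ^ k) r P ≠ 0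

/-- the main theorem for the section -/
def S_main : Prop := ∀ k r : ℕ,
  Bm (PowerSeries.mk fun n => (Fintype.card (Nat.Partition (2 ^ k * n + r)) : ZMod 2))

end Pool.Agent.TH693.QQ
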