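import Pool.Agent.TH693.QQ.Stm

set_option autoImplicit false

/-!
# Sections of odd powers of the partition generating function modulo 2: statements of the tasks
-/

namespace Pool.Agent.TH693.QQ

open PowerSeries Pool.Agent.TH693.PP Pool.Agent.H397R2.PP

/-- task QG1: the relation for `P ^ t`, `t` odd -/
def S_QG1 : Prop := ∀ t k r : ℕ, Odd t → ∃ e s : ℕ, Odd s ∧ 3 ≤ s ∧
  Db ^ e * proj (2 ^ k) r (P ^ t) ^ 24 = X ^ t * proj (2 ^ (k + 3)) (8 * r + s) (Db ^ s) ^ 3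

/-- task QG2: from the relation to algebraicity and transcendence -/
def S_QG2 : Prop := ¬ AlgX Db → ∀ (t : ℕ) (c w : S) (e : ℕ), ¬ 24 ∣ t → c ≠ 0 → IsIntegral AD w →
  Db ^ e * c ^ 24 = X ^ t * w ^ 3 → AlgOver Db c ∧ ¬ AlgX c

/-- task QN: every admissible class contains an exponent of `Db ^ s`, `s` odd -/
def S_QN : Prop := ∀ s K a : ℕ, Odd s → 3 ≤ s → 3 ≤ K → a % 8 = s % 8 →
  proj (2 ^ K) a (Db ^ s) ≠ 0

end Pool.Agent.TH693.QQ
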